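import Pool.Agent.H66.SLC.Fwd

/-!
# Expected number of uses of a ride, in the reversed chain
-/

set_option autoImplicit false

open Finset

namespace Pool.Agent.H66.SLC

open Pool.Agent.H66.SLP Pool.Agent.H90.SPW

section chain

open scoped Classical

variable {R : ℕ} {Y : Type} (P : Par R Y)

/-- states before the end of a ride which lands in the class `t` of the segment `r` -/
def bef (r : Fin R) (t : ℕ) (x : St P) : Prop :=
  x.1 < r.castSucc ∨ (x.1 = r.castSucc ∧ x.2.1.1 < t)

theorem bef_src (r : Fin R) (t : ℕ) (e : Ed P) (h : bef P r t (tgtC P e)) :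
    bef P r t (srcC P e) := by
  rcases e with ⟨r', u, j⟩ | ⟨r', u⟩ | ⟨t', u⟩
  · simp only [bef, srcC, tgtC] at h ⊢
    rcases h with h | ⟨h1, h2⟩
    · exact Or.inl h
    · refine Or.inr ⟨h1, ?_⟩
      have := (P.S r').cls_pi_lo j.2
      omega
  · simp only [bef, srcC, tgtC] at h ⊢
    left
    have h3 : r'.castSucc < r'.succ := Fin.castSucc_lt_succ
    rcases h with h | ⟨h1, _⟩
    · exact h3.trans h
    · rw [← h1]
      exact h3
  · simp only [bef, srcC, tgtC] at h ⊢
    rcases h with h | ⟨h1, _⟩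
    · exact Or.inl h
    · exact absurd h1.symm (Fin.castSucc_lt_last r).ne

theorem us_bef (n : ℕ) (r : Fin R) (i : ℕ) (x : St P)
    (h : bef P r ((P.S r).cls ((P.S r).π i)) x) : us (chn P).rev n (phi P r i) x = 0 := by
  refine us_zero (chn P).rev (phi P r i) (bef P r ((P.S r).cls ((P.S r).π i))) ?_ ?_ n x h
  · intro e he
    rcases e with ⟨r', u, j⟩ | e
    · simp only [phi]
      refine if_neg ?_
      rintro ⟨rfl, rfl⟩
      have he : bef P r' ((P.S r').cls ((P.S r').π j.1)) (tgtC P (Sum.inl ⟨r', u, j⟩)) := he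
      simp only [bef, tgtC] at he
      rcases he with he | ⟨_, he⟩
      · exact absurd he (lt_irrefl _)
      · omega
    · rfl
  · intro e he
    exact bef_src P r _ e he

/-- the value function of a ride for the reversed chain, on the cells with one label -/
noncomputable def hl (n : ℕ) (r : Fin R) (i : ℕ) (u0 : Fin (2 ^ P.B)) (t c : ℕ) : ℝ :=
  if h : t < P.N + 1 ∧ c < P.D r then
    us (chn P).rev n (phi P r i) (r.castSucc, ⟨t, h.1⟩, ⟨col (P.D r) u0.1 c,
      col_lt (P.hA r) u0.2 h.2⟩) else 0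

theorem hl_nonneg (n : ℕ) (r : Fin R) (i : ℕ) (u0 : Fin (2 ^ P.B)) (t c : ℕ) :
    0 ≤ hl P n r i u0 t c := by
  unfold hl
  split_ifs
  · exact us_nonneg (chn P).rev n _ (phi_nonneg P r i) _
  · exact le_rfl

theorem hl_eq (n : ℕ) (r : Fin R) (i : ℕ) (u0 : Fin (2 ^ P.B)) (t c : ℕ) (ht : t < P.N + 1)
    (hc : c < P.D r) (v : Fin (2 ^ P.B)) (hv : v.1 = col (P.D r) u0.1 c) :
    hl P n r i u0 t c = us (chn P).rev n (phi P r i) (r.castSucc, ⟨t, ht⟩, v) := by
  have h1 : v = ⟨col (P.D r) u0.1 c, col_lt (P.hA r) u0.2 hc⟩ := Fin.ext hv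
  rw [h1]
  exact dif_pos ⟨ht, hc⟩

/-- the value function from the start of a ride -/
noncomputable def hs (n : ℕ) (r : Fin R) (i : ℕ) (u0 : Fin (2 ^ P.B)) (t c : ℕ) : ℝ :=
  ∑ c' ∈ range (P.D r), theta (P.A r) c' c * hl P n r i u0 t c'

theorem hs_nonneg (n : ℕ) (r : Fin R) (i : ℕ) (u0 : Fin (2 ^ P.B)) (t c : ℕ) :
    0 ≤ hs P n r i u0 t c :=
  Finset.sum_nonneg fun _ _ => mul_nonneg (theta_nonneg _ _ _) (hl_nonneg P n r i u0 _ _)

theorem in_us (n : ℕ) (r : Fin R) (i : ℕ) (t : Fin (P.N + 1)) (v : Fin (2 ^ P.B)) :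
    us (chn P).rev n (phi P r i) (r.castSucc, t, v) ≤
      ∑ j : Fin (P.S r).F, if (P.S r).cls ((P.S r).π j.1) = t.1 ∧
          (P.S r).off ((P.S r).π j.1) / P.K r = v.1 % P.D r then
        ∑ u' : Fin (2 ^ P.B), (if u'.1 / P.D r = v.1 / P.D r then
          phi P r i (Sum.inl ⟨r, u', j⟩) + om P r u'.1 j * us (chn P).rev n (phi P r i)
          (r.castSucc, ⟨(P.S r).cls j.1, P.cls_lt r _⟩, u') else 0) else 0 := by
  refine (us_sub (chn P).rev n _ (phi_nonneg P r i) _).trans (le_of_eq ?_)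
  refine (Finset.sum_congr rfl fun e _ => ite_inst _ _ _ _).trans
    ((in_seg P r t v (fun e => phi P r i e + wtC P e * us (chn P).rev n (phi P r i)
      (srcC P e))).trans ?_)
  have h1 : (∑ r' : Fin R, if r'.succ = r.castSucc ∧ t = 0 then
          phi P r i (Sum.inr (Sum.inl (r', v))) + wtC P (Sum.inr (Sum.inl (r', v))) *
            us (chn P).rev n (phi P r i) (srcC P (Sum.inr (Sum.inl (r', v)))) else 0) = 0 := by
    refine Finset.sum_eq_zero fun r' _ => ?_
    by_cases h : r'.succ = r.castSucc ∧ t = 0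
    · rw [if_pos h]
      have h2 : us (chn P).rev n (phi P r i) (srcC P (Sum.inr (Sum.inl (r', v)))) = 0 := by
        refine us_bef P n r i _ (Or.inl ?_)
        rw [← h.1]
        exact Fin.castSucc_lt_succ
      rw [h2, mul_zero, add_zero]
      rfl
    · rw [if_neg h]
  rw [h1, add_zero]
  rfl

theorem sum_om (r : Fin R) (u0 v : Fin (2 ^ P.B)) (hv : v.1 / P.D r = u0.1 / P.D r)
    (j : Fin (P.S r).F) (n i : ℕ) : ∑ u' : Fin (2 ^ P.B), (if u'.1 / P.D r = v.1 / P.D r then
      om P r u'.1 j * us (chn P).rev n (phi P r i)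
        (r.castSucc, ⟨(P.S r).cls j.1, P.cls_lt r _⟩, u') else 0) =
    hs P n r i u0 ((P.S r).cls j.1) ((P.S r).off j.1 / P.K r) / P.K r := by
  rw [hv]
  have h1 : ∀ u' : Fin (2 ^ P.B), (if u'.1 / P.D r = u0.1 / P.D r then
      om P r u'.1 j * us (chn P).rev n (phi P r i)
        (r.castSucc, ⟨(P.S r).cls j.1, P.cls_lt r _⟩, u') else 0) =
      if u'.1 / P.D r = u0.1 / P.D r then
        theta (P.A r) (u'.1 % P.D r) ((P.S r).off j.1 / P.K r) / P.K r *
          hl P n r i u0 ((P.S r).cls j.1) (u'.1 % P.D r) else 0 := by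
    intro u'
    by_cases h : u'.1 / P.D r = u0.1 / P.D r
    · rw [if_pos h, if_pos h, hl_eq P n r i u0 _ _ (P.cls_lt r _)
        (Nat.mod_lt _ (P.D_pos r)) u' (by
          unfold col
          rw [← h]
          exact (Nat.div_add_mod' _ _).symm)]
      rfl
    · rw [if_neg h, if_neg h]
  rw [Finset.sum_congr rfl fun u' _ => h1 u',
    Fin.sum_univ_eq_sum_range (fun v => if v / P.D r = u0.1 / P.D r then
      theta (P.A r) (v % P.D r) ((P.S r).off j.1 / P.K r) / P.K r *
        hl P n r i u0 ((P.S r).cls j.1) (v % P.D r) else 0) (2 ^ P.B)]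
  refine (sum_label (P.D_pos r) (div_room (P.hA r) u0.2)
      (fun c => theta (P.A r) c ((P.S r).off j.1 / P.K r) / P.K r *
        hl P n r i u0 ((P.S r).cls j.1) c)).trans ?_
  unfold hs
  rw [Finset.sum_div]
  exact Finset.sum_congr rfl fun c _ => by ring

theorem sum_phi (r : Fin R) (v : Fin (2 ^ P.B)) (j i : Fin (P.S r).F) :
    ∑ u' : Fin (2 ^ P.B), (if u'.1 / P.D r = v.1 / P.D r then
      phi P r i.1 (Sum.inl ⟨r, u', j⟩) else 0) ≤ (if j = i then 1 else 0) / P.K r := by
  have h1 : ∀ u' : Fin (2 ^ P.B), (if u'.1 / P.D r = v.1 / P.D r then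
      phi P r i.1 (Sum.inl ⟨r, u', j⟩) else 0) = (if u'.1 / P.D r = v.1 / P.D r then
      om P r u'.1 j else 0) * if j = i then 1 else 0 := by
    intro u'
    simp only [phi, true_and]
    by_cases h : j = i
    · have h' : j.1 = i.1 := by rw [h]
      rw [if_pos h, if_pos h', mul_one]
    · have h' : ¬j.1 = i.1 := fun h' => h (Fin.ext h')
      rw [if_neg h, if_neg h', mul_zero, ite_self]
  rw [Finset.sum_congr rfl fun u' _ => h1 u', ← Finset.sum_mul]
  have h2 := in_om P r v j
  by_cases h : j = i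
  · rw [if_pos h, mul_one]
    exact h2
  · rw [if_neg h, mul_zero, zero_div]

/-- one step back from a landing -/
theorem hl_step (n : ℕ) (r : Fin R) (i : Fin (P.S r).F) (u0 : Fin (2 ^ P.B)) (t c : ℕ)
    (hc : c < P.D r) : hl P n r i.1 u0 t c ≤ ∑ j : Fin (P.S r).F,
      if (P.S r).cls ((P.S r).π j.1) = t ∧ (P.S r).off ((P.S r).π j.1) / P.K r = c then
        ((if j = i then 1 else 0) +
          hs P n r i.1 u0 ((P.S r).cls j.1) ((P.S r).off j.1 / P.K r)) / P.K r else 0 := by
  by_cases ht : t < P.N + 1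
  · rw [hl_eq P n r i.1 u0 t c ht hc ⟨col (P.D r) u0.1 c, col_lt (P.hA r) u0.2 hc⟩ rfl]
    refine (in_us P n r i.1 ⟨t, ht⟩ _).trans ?_
    refine Finset.sum_le_sum fun j _ => ?_
    by_cases hj : (P.S r).cls ((P.S r).π j.1) = t ∧
        (P.S r).off ((P.S r).π j.1) / P.K r = c
    · rw [if_pos hj, if_pos ⟨hj.1, hj.2.trans (col_mod hc).symm⟩]
      have h1 : ∀ u' : Fin (2 ^ P.B), (if u'.1 / P.D r =
          (⟨col (P.D r) u0.1 c, col_lt (P.hA r) u0.2 hc⟩ : Fin (2 ^ P.B)).1 / P.D r then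
          phi P r i.1 (Sum.inl ⟨r, u', j⟩) + om P r u'.1 j * us (chn P).rev n (phi P r i.1)
          (r.castSucc, ⟨(P.S r).cls j.1, P.cls_lt r _⟩, u') else 0) =
          (if u'.1 / P.D r =
          (⟨col (P.D r) u0.1 c, col_lt (P.hA r) u0.2 hc⟩ : Fin (2 ^ P.B)).1 / P.D r then
          phi P r i.1 (Sum.inl ⟨r, u', j⟩) else 0) + (if u'.1 / P.D r =
          (⟨col (P.D r) u0.1 c, col_lt (P.hA r) u0.2 hc⟩ : Fin (2 ^ P.B)).1 / P.D r then
            om P r u'.1 j * us (chn P).rev n (phi P r i.1)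
          (r.castSucc, ⟨(P.S r).cls j.1, P.cls_lt r _⟩, u') else 0) := by
        intro u'
        split_ifs
        · rfl
        · exact (add_zero 0).symm
      rw [Finset.sum_congr rfl fun u' _ => h1 u', Finset.sum_add_distrib, add_div]
      refine add_le_add (sum_phi P r _ j i) (le_of_eq ?_)
      exact sum_om P r u0 _ (col_div hc) j n i.1
    · rw [if_neg hj, if_neg fun h => hj ⟨h.1, h.2.trans (col_mod hc)⟩]
  · have h1 : hl P n r i.1 u0 t c = 0 := dif_neg fun h => ht h.1
    rw [h1]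
    refine Finset.sum_nonneg fun j _ => ?_
    split_ifs
    · exact div_nonneg (add_nonneg zero_le_one (hs_nonneg P n r i.1 u0 _ _)) (by positivity)
    · exact div_nonneg (add_nonneg le_rfl (hs_nonneg P n r i.1 u0 _ _)) (by positivity)
    · exact le_rfl

/-- time reversed -/
noncomputable def hw (n : ℕ) (r : Fin R) (i : ℕ) (u0 : Fin (2 ^ P.B)) (t c : ℕ) : ℝ :=
  if t ≤ (P.S r).tp then hs P n r i u0 ((P.S r).tp - t) c else 0

theorem hw_nonneg (n : ℕ) (r : Fin R) (i : ℕ) (u0 : Fin (2 ^ P.B)) (t c : ℕ) :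
    0 ≤ hw P n r i u0 t c := by
  unfold hw
  split_ifs
  · exact hs_nonneg P n r i u0 _ _
  · exact le_rfl

theorem hw_step (n : ℕ) (r : Fin R) (i : Fin (P.S r).F) (u0 : Fin (2 ^ P.B)) (t c : ℕ) :
    hw P n r i.1 u0 t c ≤ ∑ j : Fin (P.S r).F,
      if (P.S r).tp - (P.S r).cls ((P.S r).π j.1) = t then
        theta (P.A r) ((P.S r).off ((P.S r).π j.1) / P.K r) c / P.K r *
          rv (fun j : Fin (P.S r).F => (P.S r).tp - (P.S r).cls j.1)
            (fun j => (P.S r).off j.1 / P.K r) i (hw P n r i.1 u0) j else 0 := by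
  by_cases ht : t ≤ (P.S r).tp
  · have h0 : hw P n r i.1 u0 t c = hs P n r i.1 u0 ((P.S r).tp - t) c := if_pos ht
    rw [h0]
    unfold hs
    calc _ ≤ ∑ c' ∈ range (P.D r), theta (P.A r) c' c * ∑ j : Fin (P.S r).F,
          (if (P.S r).cls ((P.S r).π j.1) = (P.S r).tp - t ∧
            (P.S r).off ((P.S r).π j.1) / P.K r = c' then
          ((if j = i then 1 else 0) +
            hs P n r i.1 u0 ((P.S r).cls j.1) ((P.S r).off j.1 / P.K r)) / P.K r else 0) := by
          refine Finset.sum_le_sum fun c' hc' => ?_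
          exact mul_le_mul_of_nonneg_left (hl_step P n r i u0 _ _ (mem_range.1 hc'))
            (theta_nonneg _ _ _)
      _ = ∑ j : Fin (P.S r).F, ∑ c' ∈ range (P.D r), theta (P.A r) c' c *
          (if (P.S r).cls ((P.S r).π j.1) = (P.S r).tp - t ∧
            (P.S r).off ((P.S r).π j.1) / P.K r = c' then
          ((if j = i then 1 else 0) +
            hs P n r i.1 u0 ((P.S r).cls j.1) ((P.S r).off j.1 / P.K r)) / P.K r else 0) := by
          simp_rw [Finset.mul_sum]
          exact Finset.sum_comm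
      _ ≤ _ := by
          refine Finset.sum_le_sum fun j _ => le_of_eq ?_
          have h3 := (P.S r).cls_le ((P.S r).π j.1)
          have h4 := (P.S r).cls_le j.1
          by_cases hj : (P.S r).tp - (P.S r).cls ((P.S r).π j.1) = t
          · have hj' : (P.S r).cls ((P.S r).π j.1) = (P.S r).tp - t := by omega
            rw [if_pos hj, Finset.sum_eq_single ((P.S r).off ((P.S r).π j.1) / P.K r)]
            · rw [if_pos ⟨hj', rfl⟩]
              unfold rv hw
              rw [if_pos (by omega : (P.S r).tp - (P.S r).cls j.1 ≤ (P.S r).tp)]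
              have h5 : (P.S r).tp - ((P.S r).tp - (P.S r).cls j.1) = (P.S r).cls j.1 := by
                omega
              rw [h5]
              ring
            · intro c' _ hc'
              rw [if_neg fun h => hc' h.2.symm, mul_zero]
            · intro h
              exact absurd (mem_range.2 (P.cell_lt' r j)) h
          · rw [if_neg hj]
            refine Finset.sum_eq_zero fun c' _ => ?_
            rw [if_neg fun h => hj (by omega), mul_zero]
  · have h0 : hw P n r i.1 u0 t c = 0 := if_neg ht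
    rw [h0]
    refine Finset.sum_nonneg fun j _ => ?_
    split_ifs
    · exact mul_nonneg (div_nonneg (theta_nonneg _ _ _) (by positivity))
        (rv_nonneg _ _ _ _ (hw_nonneg P n r i.1 u0) j)
    · exact le_rfl

theorem hs_zero (n : ℕ) (r : Fin R) (i : ℕ) (u0 : Fin (2 ^ P.B)) (t c : ℕ)
    (ht : t < (P.S r).cls ((P.S r).π i)) : hs P n r i u0 t c = 0 := by
  unfold hs
  refine Finset.sum_eq_zero fun c' _ => ?_
  have h1 : hl P n r i u0 t c' = 0 := by
    unfold hl
    split_ifs with h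
    · exact us_bef P n r i _ (Or.inr ⟨rfl, ht⟩)
    · rfl
  rw [h1, mul_zero]

theorem hs_green (n : ℕ) (r : Fin R) (i : Fin (P.S r).F) (u0 : Fin (2 ^ P.B)) (t c : ℕ)
    (ht : (P.S r).cls ((P.S r).π i.1) ≤ t) (htT : t ≤ (P.S r).tp) (hc : c < P.D r) :
    hs P n r i.1 u0 t c ≤
      40 / (P.K r * (((t - (P.S r).cls ((P.S r).π i.1) : ℕ) : ℝ) + 1)) := by
  have h1 := green (P.D r) (P.K r) (P.A r)
    (fun j : Fin (P.S r).F => (P.S r).tp - (P.S r).cls ((P.S r).π j.1))
    (fun j : Fin (P.S r).F => (P.S r).tp - (P.S r).cls j.1)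
    (fun j => (P.S r).off ((P.S r).π j.1) / P.K r)
    (fun j => (P.S r).off j.1 / P.K r)
    (fun c c' => theta (P.A r) c' c) i (hw P n r i.1 u0)
    (P.hK r) ?_ (P.cell_lt' r) (P.cell_lt0 r) ?_ ?_ ?_ ?_ ?_ ?_ ?_ ?_
    (t - (P.S r).cls ((P.S r).π i.1)) ((P.S r).tp - t) c
    (by
      show (P.S r).tp - t + (t - (P.S r).cls ((P.S r).π i.1)) =
        (P.S r).tp - (P.S r).cls ((P.S r).π i.1)
      omega) hc
  · have h2 : hw P n r i.1 u0 ((P.S r).tp - t) c = hs P n r i.1 u0 t c := by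
      unfold hw
      rw [if_pos (by omega)]
      congr 1
      omega
    rw [h2] at h1
    exact h1
  · intro j
    have h1 := (P.S r).cls_pi_lo j.2
    have h2 := (P.S r).cls_pi_hi j.2
    have h3 := (P.S r).cls_le ((P.S r).π j.1)
    show (P.S r).tp - (P.S r).cls ((P.S r).π j.1) < (P.S r).tp - (P.S r).cls j.1 ∧
      (P.S r).tp - (P.S r).cls j.1 ≤ (P.S r).tp - (P.S r).cls ((P.S r).π j.1) + 5
    omega
  · intro t c
    refine le_trans (card_le_card ?_) ((P.S r).card_land (P.K r) (P.hK r)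
      ((P.S r).tp - t) c)
    intro j hj
    rw [Finset.mem_filter] at hj ⊢
    have h3 := (P.S r).cls_le ((P.S r).π j.1)
    refine ⟨hj.1, ?_, hj.2.2⟩
    have := hj.2.1
    omega
  · intro t c
    refine le_trans (card_le_card ?_) ((P.S r).card_start (P.K r) (P.hK r)
      ((P.S r).tp - t) c)
    intro j hj
    rw [Finset.mem_filter] at hj ⊢
    have h3 := (P.S r).cls_le j.1
    refine ⟨hj.1, ?_, hj.2.2⟩
    have := hj.2.1
    omega
  · intro c'
    exact sum_theta_le_all _ _ _
  · intro b hb c _ f m hf hm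
    exact theta_mix' (P.A r) (P.D r) b hb c f m hf hm
  · exact hw_nonneg P n r i.1 u0
  · intro t c ht
    unfold hw
    split_ifs with h
    · refine hs_zero P n r i.1 u0 _ _ ?_
      have h3 := (P.S r).cls_le ((P.S r).π i.1)
      omega
    · rfl
  · intro t c _
    exact hw_step P n r i u0 t c
  · have h1 := (P.S r).cls_pi_lo i.2
    have h2 := P.hT r
    have h3 := (P.S r).cls_le ((P.S r).π i.1)
    show (P.S r).tp - (P.S r).cls ((P.S r).π i.1) < 2 ^ P.A r
    omega

theorem hl_green (n : ℕ) (r : Fin R) (i : Fin (P.S r).F) (u0 : Fin (2 ^ P.B)) (t c : ℕ)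
    (ht : (P.S r).cls ((P.S r).π i.1) ≤ t) (hc : c < P.D r) :
    hl P n r i.1 u0 t c ≤
      241 / (P.K r * (((t - (P.S r).cls ((P.S r).π i.1) : ℕ) : ℝ) + 1)) := by
  have hK : (0 : ℝ) < P.K r := by exact_mod_cast P.hK r
  obtain ⟨d, hd⟩ : ∃ d, d = t - (P.S r).cls ((P.S r).π i.1) := ⟨_, rfl⟩
  have hd0 : (0 : ℝ) ≤ d := Nat.cast_nonneg d
  rw [← hd]
  have hb : ∀ j : Fin (P.S r).F, (P.S r).cls ((P.S r).π j.1) = t →
      ((if j = i then 1 else 0) +
          hs P n r i.1 u0 ((P.S r).cls j.1) ((P.S r).off j.1 / P.K r)) / P.K r ≤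
        (if j = i then 1 else 0) / P.K r + 240 / (P.K r * ((d : ℝ) + 1)) / P.K r := by
    intro j hj
    rw [add_div]
    refine add_le_add le_rfl ?_
    refine div_le_div_of_nonneg_right ?_ hK.le
    by_cases h1 : (P.S r).cls j.1 < (P.S r).cls ((P.S r).π i.1)
    · rw [hs_zero P n r i.1 u0 _ _ h1]
      positivity
    · refine (hs_green P n r i u0 _ _ (by omega) ((P.S r).cls_le _) (P.cell_lt0 r j)).trans ?_
      have h2 := (P.S r).cls_pi_hi j.2
      obtain ⟨d', hd'⟩ : ∃ d', d' = (P.S r).cls j.1 - (P.S r).cls ((P.S r).π i.1) := ⟨_, rfl⟩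
      rw [← hd']
      have h3 : d ≤ d' + 5 := by omega
      have h4 : (d : ℝ) ≤ d' + 5 := by exact_mod_cast h3
      have h5 : (0 : ℝ) ≤ d' := Nat.cast_nonneg d'
      rw [div_le_div_iff₀ (by positivity) (by positivity)]
      have h6 : 40 * ((d : ℝ) + 1) ≤ 240 * ((d' : ℝ) + 1) := by nlinarith
      calc 40 * (P.K r * ((d : ℝ) + 1)) = P.K r * (40 * ((d : ℝ) + 1)) := by ring
        _ ≤ P.K r * (240 * ((d' : ℝ) + 1)) := mul_le_mul_of_nonneg_left h6 hK.le
        _ = 240 * (P.K r * ((d' : ℝ) + 1)) := by ring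
  calc hl P n r i.1 u0 t c ≤ ∑ j : Fin (P.S r).F,
      (if (P.S r).cls ((P.S r).π j.1) = t ∧ (P.S r).off ((P.S r).π j.1) / P.K r = c then
        ((if j = i then 1 else 0) +
          hs P n r i.1 u0 ((P.S r).cls j.1) ((P.S r).off j.1 / P.K r)) / P.K r else 0) :=
        hl_step P n r i u0 t c hc
    _ ≤ ∑ j : Fin (P.S r).F,
      ((if j = i then (if d = 0 then 1 / (P.K r : ℝ) else 0) else 0) +
      (if (P.S r).cls ((P.S r).π j.1) = t ∧ (P.S r).off ((P.S r).π j.1) / P.K r = c then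
        240 / (P.K r * ((d : ℝ) + 1)) / P.K r else 0)) := by
        refine Finset.sum_le_sum fun j _ => ?_
        by_cases hj : (P.S r).cls ((P.S r).π j.1) = t ∧
            (P.S r).off ((P.S r).π j.1) / P.K r = c
        · rw [if_pos hj, if_pos hj]
          refine (hb j hj.1).trans ?_
          refine add_le_add ?_ le_rfl
          by_cases hji : j = i
          · rw [if_pos hji, if_pos hji, if_pos]
            rw [hd, ← hj.1, hji, Nat.sub_self]
          · rw [if_neg hji, if_neg hji, zero_div]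
        · rw [if_neg hj, if_neg hj, add_zero]
          split_ifs
          · positivity
          · exact le_rfl
          · exact le_rfl
    _ = (if d = 0 then 1 / (P.K r : ℝ) else 0) +
      ((univ.filter fun j : Fin (P.S r).F => (P.S r).cls ((P.S r).π j.1) = t ∧
        (P.S r).off ((P.S r).π j.1) / P.K r = c).card : ℝ) *
        (240 / (P.K r * ((d : ℝ) + 1)) / P.K r) := by
        rw [Finset.sum_add_distrib, Finset.sum_ite_eq' univ i, if_pos (Finset.mem_univ i),
          ← Finset.sum_filter, Finset.sum_const, nsmul_eq_mul]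
    _ ≤ 1 / (P.K r * ((d : ℝ) + 1)) + P.K r * (240 / (P.K r * ((d : ℝ) + 1)) / P.K r) := by
        refine add_le_add ?_ (mul_le_mul_of_nonneg_right ?_ (by positivity))
        · split_ifs with h
          · rw [h, Nat.cast_zero, zero_add, mul_one]
          · positivity
        · exact_mod_cast (P.S r).card_land (P.K r) (P.hK r) t c
    _ = 241 / (P.K r * ((d : ℝ) + 1)) := by
        field_simp
        norm_num

end chain

end Pool.Agent.H66.SLC
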