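import Pool.Agent.H66.SLP.Targets

/-!
# Classes of ranks
-/

set_option autoImplicit false

open Finset

namespace Pool.Agent.H66.SLP

variable {Y : Type} (S : RSys Y)

/-- the class of a rank: the integral part of its time -/
noncomputable def RSys.cls (q : ℕ) : ℕ := ⌊S.τ q⌋₊

/-- the last class -/
noncomputable def RSys.tp : ℕ := ⌊S.W⌋₊

/-- the first rank of the class `t` -/
noncomputable def RSys.fst (t : ℕ) : ℕ := ((range S.F).filter fun q => S.cls q < t).card

/-- the offset of a rank in its class -/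
noncomputable def RSys.off (q : ℕ) : ℕ := q - S.fst (S.cls q)

theorem RSys.tau_nonneg (q : ℕ) : 0 ≤ S.τ q := by
  have h1 := S.zero 0 (by have := S.Q_pos; omega)
  rw [← h1]
  exact S.mono (Nat.zero_le q)

theorem RSys.tau_le (q : ℕ) : S.τ q ≤ S.W := by
  rw [← S.top (max q S.F) (le_max_right _ _)]
  exact S.mono (le_max_left _ _)

theorem RSys.cls_mono : Monotone S.cls := fun _ _ h => Nat.floor_le_floor (S.mono h)

theorem RSys.cls_top {q : ℕ} (h : S.F ≤ q) : S.cls q = S.tp := by
  unfold RSys.cls RSys.tp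
  rw [S.top q h]

theorem RSys.cls_le (q : ℕ) : S.cls q ≤ S.tp := Nat.floor_le_floor (S.tau_le q)

theorem RSys.cls_pi_lo {i : ℕ} (hi : i < S.F) : S.cls i + 1 ≤ S.cls (S.π i) := by
  unfold RSys.cls
  rw [← Nat.floor_add_one (S.tau_nonneg i)]
  apply Nat.floor_le_floor
  linarith [S.len_lo i hi]

theorem RSys.cls_pi_hi {i : ℕ} (hi : i < S.F) : S.cls (S.π i) ≤ S.cls i + 5 := by
  unfold RSys.cls
  have h := Nat.floor_add_natCast (S.tau_nonneg i) 5
  rw [← h]
  apply Nat.floor_le_floor
  push_cast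
  linarith [S.len_hi i hi]

theorem RSys.cls_lt {q : ℕ} (h : q < S.F) : S.cls q < S.tp := by
  have h1 := S.cls_pi_lo h
  have h2 := S.cls_le (S.π q)
  omega

theorem RSys.cls_zero {q : ℕ} (h : q < S.Q) : S.cls q = 0 := by
  unfold RSys.cls
  rw [S.zero q h]
  simp

theorem RSys.Q_le (hW : 0 < S.W) : S.Q ≤ S.F := by
  by_contra h
  have h1 := S.zero S.F (by omega)
  rw [S.top S.F le_rfl] at h1
  linarith

theorem RSys.surj {q : ℕ} (h1 : S.Q ≤ q) (h2 : q < S.F + S.Q) : ∃ i < S.F, S.π i = q := by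
  have h3 : (range S.F).image S.π = Ico S.Q (S.F + S.Q) := by
    apply Finset.eq_of_subset_of_card_le
    · intro x hx
      rw [mem_image] at hx
      obtain ⟨i, hi, rfl⟩ := hx
      rw [mem_range] at hi
      exact mem_Ico.2 ⟨S.lo i hi, S.hi i hi⟩
    · rw [card_image_of_injOn, card_range, Nat.card_Ico]
      · omega
      · intro i hi j hj hij
        exact S.inj i (mem_range.1 hi) j (mem_range.1 hj) hij
  have h4 : q ∈ (range S.F).image S.π := by
    rw [h3]
    exact mem_Ico.2 ⟨h1, h2⟩
  rw [mem_image] at h4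
  obtain ⟨i, hi, hq⟩ := h4
  exact ⟨i, mem_range.1 hi, hq⟩

theorem RSys.cls_pos (hW : 0 < S.W) {q : ℕ} (h1 : S.Q ≤ q) : 1 ≤ S.cls q := by
  obtain ⟨i, hi, h2⟩ := S.surj le_rfl (show S.Q < S.F + S.Q by
    have := S.Q_le hW
    have := S.Q_pos
    omega)
  have h3 := S.cls_pi_lo hi
  rw [h2] at h3
  have := S.cls_mono h1
  omega

theorem RSys.tp_pos (hW : 0 < S.W) : 1 ≤ S.tp := by
  have h1 := S.Q_le hW
  have h2 := S.Q_pos
  have := S.cls_lt (show 0 < S.F by omega)
  omega

theorem RSys.lt_fst {q t : ℕ} : q < S.fst t ↔ q < S.F ∧ S.cls q < t := by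
  have h1 : (range S.F).filter (fun q => S.cls q < t) = range (S.fst t) := by
    have h2 : ∀ (A : Finset ℕ), (∀ x ∈ A, ∀ y < x, y ∈ A) → A = range A.card := by
      intro A hA
      symm
      apply Finset.eq_of_subset_of_card_le
      · intro x hx
        rw [mem_range] at hx
        by_contra hxA
        have h3 : A ⊆ range x := by
          intro y hy
          rw [mem_range]
          by_contra hyx
          rcases (not_lt.1 hyx).eq_or_lt with h | h
          · exact hxA (h ▸ hy)
          · exact hxA (hA y hy x h)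
        have := card_le_card h3
        rw [card_range] at this
        omega
      · rw [card_range]
    exact h2 _ fun x hx y hy => by
      rw [Finset.mem_filter, mem_range] at hx ⊢
      exact ⟨by omega, lt_of_le_of_lt (S.cls_mono hy.le) hx.2⟩
  rw [← mem_range, ← h1, Finset.mem_filter, mem_range]

theorem RSys.fst_mono : Monotone S.fst := fun t t' h => by
  by_contra h1
  have h2 := (S.lt_fst (q := S.fst t') (t := t)).1 (by omega)
  have h3 := (S.lt_fst (q := S.fst t') (t := t')).2 ⟨h2.1, by omega⟩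
  omega

theorem RSys.fst_le (t : ℕ) : S.fst t ≤ S.F := by
  by_contra h
  have := (S.lt_fst (q := S.F) (t := t)).1 (by omega)
  omega

theorem RSys.fst_zero : S.fst 0 = 0 := by
  by_contra h
  have := (S.lt_fst (q := 0) (t := 0)).1 (by omega)
  omega

theorem RSys.fst_one (hW : 0 < S.W) : S.fst 1 = S.Q := by
  have h1 : S.fst 1 ≤ S.Q := by
    by_contra h
    have h2 := (S.lt_fst (q := S.Q) (t := 1)).1 (by omega)
    have := S.cls_pos hW (le_refl S.Q)
    omega
  have h2 : S.Q ≤ S.fst 1 := by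
    by_contra h
    have h3 := S.Q_le hW
    have h4 := (S.lt_fst (q := S.fst 1) (t := 1)).2 ⟨by omega, by
      rw [S.cls_zero (by omega)]
      omega⟩
    omega
  omega

theorem RSys.fst_top : S.fst S.tp = S.F := by
  have h1 := S.fst_le S.tp
  by_contra h
  have h2 := (S.lt_fst (q := S.fst S.tp) (t := S.tp)).2 ⟨by omega, S.cls_lt (by omega)⟩
  omega

theorem RSys.fst_cls_le {q : ℕ} : S.fst (S.cls q) ≤ q := by
  by_contra h
  have := (S.lt_fst (q := q) (t := S.cls q)).1 (by omega)
  omega

theorem RSys.rank_eq (q : ℕ) : q = S.fst (S.cls q) + S.off q := by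
  unfold RSys.off
  have := S.fst_cls_le (q := q)
  omega

theorem RSys.fst_succ (t : ℕ) : S.fst (t + 1) ≤ S.fst t + S.Q := by
  by_contra h
  -- the ranks `Q, …, fst (t + 1) - 1` are reached from ranks `< fst t`
  have h1 : Ico S.Q (S.fst (t + 1)) ⊆ (range (S.fst t)).image S.π := by
    intro q hq
    rw [mem_Ico] at hq
    have hq2 := (S.lt_fst (q := q) (t := t + 1)).1 hq.2
    obtain ⟨i, hi, rfl⟩ := S.surj hq.1 (by omega)
    rw [mem_image]
    refine ⟨i, mem_range.2 (S.lt_fst.2 ⟨hi, ?_⟩), rfl⟩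
    have := S.cls_pi_lo hi
    omega
  have h2 := (card_le_card h1).trans card_image_le
  rw [Nat.card_Ico, card_range] at h2
  omega

theorem RSys.off_lt (hW : 0 < S.W) {q : ℕ} (h : q < S.F + S.Q) : S.off q < S.Q := by
  by_cases hq : q < S.F
  · have h1 := (S.lt_fst (q := q) (t := S.cls q + 1)).2 ⟨hq, by omega⟩
    have h2 := S.fst_succ (S.cls q)
    have h3 := S.rank_eq q
    omega
  · have h1 := S.rank_eq q
    rw [S.cls_top (by omega), S.fst_top] at h1
    omega

theorem RSys.cls_of {j q t : ℕ} (hj : S.fst t ≤ j) (hjF : j < S.F) (hjq : j ≤ q)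
    (hq : S.cls q = t) : S.cls j = t := by
  have h1 := S.cls_mono hjq
  have h2 : ¬(j < S.fst t) := by omega
  rw [S.lt_fst] at h2
  omega

theorem RSys.cls_add {t o : ℕ} (h : S.fst t + o < S.fst (t + 1)) :
    S.cls (S.fst t + o) = t ∧ S.off (S.fst t + o) = o := by
  have h1 := (S.lt_fst (q := S.fst t + o) (t := t + 1)).1 h
  have h2 : ¬(S.fst t + o < S.fst t) := by omega
  rw [S.lt_fst] at h2
  have h3 : S.cls (S.fst t + o) = t := by omega
  refine ⟨h3, ?_⟩
  have := S.rank_eq (S.fst t + o)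
  rw [h3] at this
  omega

/-- at most `K` starts in one cell -/
theorem RSys.card_start (K : ℕ) (hK : 0 < K) (t c : ℕ) :
    ((univ : Finset (Fin S.F)).filter fun j => S.cls j.1 = t ∧ S.off j.1 / K = c).card ≤ K := by
  have h1 : (((univ : Finset (Fin S.F)).filter fun j => S.cls j.1 = t ∧
      S.off j.1 / K = c).image fun j => S.off j.1) ⊆ Ico (c * K) (c * K + K) := by
    intro o ho
    rw [mem_image] at ho
    obtain ⟨j, hj, rfl⟩ := ho
    rw [Finset.mem_filter] at hj
    have h2 := Nat.div_mul_le_self (S.off j.1) K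
    have h3 := Nat.lt_div_mul_add hK (a := S.off j.1)
    rw [hj.2.2] at h2 h3
    exact mem_Ico.2 ⟨h2, h3⟩
  have h2 := card_le_card h1
  rw [Nat.card_Ico, card_image_of_injOn] at h2
  · omega
  · intro j hj j' hj' hjj
    simp only [coe_filter, mem_univ, true_and, Set.mem_setOf_eq] at hj hj'
    have h3 := S.rank_eq j.1
    have h4 := S.rank_eq j'.1
    rw [hj.1] at h3
    rw [hj'.1] at h4
    apply Fin.ext
    have : S.off j.1 = S.off j'.1 := hjj
    omega

/-- at most `K` landings in one cell -/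
theorem RSys.card_land (K : ℕ) (hK : 0 < K) (t c : ℕ) :
    ((univ : Finset (Fin S.F)).filter fun j => S.cls (S.π j.1) = t ∧
      S.off (S.π j.1) / K = c).card ≤ K := by
  have h1 : (((univ : Finset (Fin S.F)).filter fun j => S.cls (S.π j.1) = t ∧
      S.off (S.π j.1) / K = c).image fun j => S.off (S.π j.1)) ⊆ Ico (c * K) (c * K + K) := by
    intro o ho
    rw [mem_image] at ho
    obtain ⟨j, hj, rfl⟩ := ho
    rw [Finset.mem_filter] at hj
    have h2 := Nat.div_mul_le_self (S.off (S.π j.1)) K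
    have h3 := Nat.lt_div_mul_add hK (a := S.off (S.π j.1))
    rw [hj.2.2] at h2 h3
    exact mem_Ico.2 ⟨h2, h3⟩
  have h2 := card_le_card h1
  rw [Nat.card_Ico, card_image_of_injOn] at h2
  · omega
  · intro j hj j' hj' hjj
    simp only [coe_filter, mem_univ, true_and, Set.mem_setOf_eq] at hj hj'
    have h3 := S.rank_eq (S.π j.1)
    have h4 := S.rank_eq (S.π j'.1)
    rw [hj.1] at h3
    rw [hj'.1] at h4
    apply Fin.ext
    have h5 : S.off (S.π j.1) = S.off (S.π j'.1) := hjj
    exact S.inj j.1 j.2 j'.1 j'.2 (by omega)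

/-- the cells below the cell of a rank are full -/
theorem RSys.card_full (K : ℕ) (hK : 0 < K) {q c : ℕ} (hq : S.cls q < S.tp)
    (hc : c < S.off q / K) :
    ((univ : Finset (Fin S.F)).filter fun j => S.cls j.1 = S.cls q ∧
      S.off j.1 / K = c).card = K := by
  apply le_antisymm (S.card_start K hK _ _)
  have hqF : q < S.F := by
    by_contra h
    rw [S.cls_top (by omega)] at hq
    omega
  have h0 : (c + 1) * K ≤ S.off q := by
    have h1 := Nat.div_mul_le_self (S.off q) K
    have h2 : (c + 1) * K ≤ S.off q / K * K := Nat.mul_le_mul_right K hc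
    omega
  rw [Nat.succ_mul] at h0
  have hr := S.rank_eq q
  have hj : ∀ o, c * K ≤ o → o < c * K + K → S.fst (S.cls q) + o < S.F := by
    intro o _ ho
    omega
  have h3 : (Ico (c * K) (c * K + K)).card ≤
      ((univ : Finset (Fin S.F)).filter fun j => S.cls j.1 = S.cls q ∧
        S.off j.1 / K = c).card := by
    refine Finset.card_le_card_of_injOn (fun o => if h : S.fst (S.cls q) + o < S.F then
      (⟨S.fst (S.cls q) + o, h⟩ : Fin S.F) else ⟨q, hqF⟩) ?_ ?_
    · intro o ho
      simp only [coe_Ico, Set.mem_Ico] at ho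
      have h4 := hj o ho.1 ho.2
      simp only [dif_pos h4, coe_filter, mem_univ, true_and, Set.mem_setOf_eq]
      have h5 : S.fst (S.cls q) + o < S.fst (S.cls q + 1) := by
        have h6 := (S.lt_fst (q := q) (t := S.cls q + 1)).2 ⟨hqF, by omega⟩
        omega
      obtain ⟨h7, h8⟩ := S.cls_add h5
      refine ⟨h7, ?_⟩
      rw [h8]
      apply Nat.div_eq_of_lt_le ho.1
      rw [Nat.succ_mul]
      exact ho.2
    · intro o ho o' ho' hoo
      simp only [coe_Ico, Set.mem_Ico] at ho ho'
      have h4 := hj o ho.1 ho.2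
      have h5 := hj o' ho'.1 ho'.2
      simp only [dif_pos h4, dif_pos h5, Fin.mk.injEq] at hoo
      omega
  rw [Nat.card_Ico] at h3
  omega

/-- rides with the same letter start, and land, in different classes -/
theorem RSys.cls_ne {i j : ℕ} (hi : i < S.F) (hj : j < S.F) (hij : i ≠ j)
    (hl : S.ℓ i = S.ℓ j) : S.cls i ≠ S.cls j ∧ S.cls (S.π i) ≠ S.cls (S.π j) := by
  have key : ∀ {i j : ℕ}, i < S.F → j < S.F → S.τ (S.π i) ≤ S.τ j →
      S.cls i < S.cls j ∧ S.cls (S.π i) < S.cls (S.π j) := by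
    intro i j hi hj h
    have h1 : S.cls (S.π i) ≤ S.cls j := Nat.floor_le_floor h
    have h2 := S.cls_pi_lo hi
    have h3 := S.cls_pi_lo hj
    omega
  rcases S.sep i hi j hj hij hl with h | h
  · have := key hi hj h
    omega
  · have := key hj hi h
    omega

end Pool.Agent.H66.SLP
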