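import Pool.Agent.H66.SLC.Theta
import Pool.Agent.H66.SLC.Cls
import Pool.Agent.H90.SPW.Defs

/-!
# The chain of a list of rank systems
-/

set_option autoImplicit false

open Finset

namespace Pool.Agent.H66.SLC

open Pool.Agent.H66.SLP Pool.Agent.H90.SPW

/-- rank systems with the parameters of their chains: `2 ^ A` cells of `K` ranks, `2 ^ B` columns,
classes up to `N` -/
structure Par (R : ℕ) (Y : Type) where
  S : Fin R → RSys Y
  A : Fin R → ℕ
  K : Fin R → ℕ
  B : ℕ
  N : ℕ
  hW : ∀ r, 0 < (S r).W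
  hK : ∀ r, 0 < K r
  hQ : ∀ r, (S r).Q = K r * 2 ^ A r
  hA : ∀ r, A r ≤ B
  hN : ∀ r, (S r).tp ≤ N
  hT : ∀ r, (S r).tp ≤ 2 ^ A r

/-- the column with the same label as `u` and the cell `c` -/
def col (D u c : ℕ) : ℕ := u / D * D + c

theorem col_div {D u c : ℕ} (hc : c < D) : col D u c / D = u / D := by
  unfold col
  apply Nat.div_eq_of_lt_le
  · omega
  · rw [Nat.succ_mul]
    omega

theorem col_mod {D u c : ℕ} (hc : c < D) : col D u c % D = c := by
  unfold col
  rw [Nat.add_comm, Nat.add_mul_mod_self_right]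
  exact Nat.mod_eq_of_lt hc

theorem col_self (D u : ℕ) : col D u (u % D) = u := by
  unfold col
  exact Nat.div_add_mod' u D

theorem col_eq_iff {D u c v : ℕ} (hc : c < D) : col D u c = v ↔ u / D = v / D ∧ c = v % D := by
  constructor
  · rintro rfl
    exact ⟨(col_div hc).symm, (col_mod hc).symm⟩
  · rintro ⟨h1, h2⟩
    unfold col
    rw [h1, h2]
    exact Nat.div_add_mod' v D

theorem div_room {A B u : ℕ} (hA : A ≤ B) (hu : u < 2 ^ B) :
    u / 2 ^ A * 2 ^ A + 2 ^ A ≤ 2 ^ B := by
  have h1 : u / 2 ^ A < 2 ^ (B - A) := by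
    rw [Nat.div_lt_iff_lt_mul (by positivity), ← pow_add, Nat.sub_add_cancel hA]
    exact hu
  calc u / 2 ^ A * 2 ^ A + 2 ^ A = (u / 2 ^ A + 1) * 2 ^ A := by ring
    _ ≤ 2 ^ (B - A) * 2 ^ A := Nat.mul_le_mul_right _ h1
    _ = 2 ^ B := by rw [← pow_add, Nat.sub_add_cancel hA]

theorem col_lt {A B u c : ℕ} (hA : A ≤ B) (hu : u < 2 ^ B) (hc : c < 2 ^ A) :
    col (2 ^ A) u c < 2 ^ B := by
  unfold col
  have := div_room hA hu
  omega

/-- sums over the columns with a given label -/
theorem sum_label {D v M : ℕ} (hD : 0 < D) (hM : v * D + D ≤ M) (g : ℕ → ℝ) :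
    ∑ u ∈ range M, (if u / D = v then g (u % D) else 0) = ∑ c ∈ range D, g c := by
  rw [← Finset.sum_filter]
  have h : ((range M).filter fun u => u / D = v) = Ico (v * D) (v * D + D) := by
    ext c
    rw [Finset.mem_filter, mem_Ico, mem_range]
    constructor
    · rintro ⟨_, h⟩
      have h1 := Nat.div_mul_le_self c D
      have h2 := Nat.lt_div_mul_add hD (a := c)
      rw [h] at h1 h2
      exact ⟨h1, h2⟩
    · rintro ⟨h1, h2⟩
      refine ⟨by omega, ?_⟩
      apply Nat.div_eq_of_lt_le h1
      rw [Nat.succ_mul]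
      exact h2
  rw [h, Finset.sum_Ico_eq_sum_range, Nat.add_sub_cancel_left]
  refine Finset.sum_congr rfl fun c hc => ?_
  rw [mem_range] at hc
  congr 1
  rw [Nat.add_comm, Nat.add_mul_mod_self_right]
  exact Nat.mod_eq_of_lt hc

section chain

variable {R : ℕ} {Y : Type} (P : Par R Y)

/-- states: segment (the last one is idle), class, column -/
abbrev St : Type := Fin (R + 1) × Fin (P.N + 1) × Fin (2 ^ P.B)

/-- edges: rides, junctions, idle steps -/
abbrev Ed : Type := (Σ r : Fin R, Fin (2 ^ P.B) × Fin (P.S r).F) ⊕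
  ((Fin R × Fin (2 ^ P.B)) ⊕ (Fin P.N × Fin (2 ^ P.B)))

/-- number of cells -/
def Par.D (r : Fin R) : ℕ := 2 ^ P.A r

theorem Par.D_pos (r : Fin R) : 0 < P.D r := by
  unfold Par.D
  positivity

theorem Par.cell_lt (r : Fin R) {q : ℕ} (hq : q < (P.S r).F + (P.S r).Q) :
    (P.S r).off q / P.K r < P.D r := by
  rw [Nat.div_lt_iff_lt_mul (P.hK r), Nat.mul_comm]
  have := (P.S r).off_lt (P.hW r) hq
  rw [P.hQ r] at this
  exact this

theorem Par.cell_lt' (r : Fin R) (j : Fin (P.S r).F) :
    (P.S r).off ((P.S r).π j.1) / P.K r < P.D r := by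
  have := (P.S r).hi j.1 j.2
  exact P.cell_lt r this

theorem Par.cell_lt0 (r : Fin R) (j : Fin (P.S r).F) :
    (P.S r).off j.1 / P.K r < P.D r := P.cell_lt r (by have := j.2; omega)

theorem Par.cls_lt (r : Fin R) (q : ℕ) : (P.S r).cls q < P.N + 1 := by
  have h1 := (P.S r).cls_le q
  have h2 := P.hN r
  omega

/-- sources -/
noncomputable def srcC : Ed P → St P
  | Sum.inl ⟨r, u, j⟩ => (r.castSucc, ⟨(P.S r).cls j.1, P.cls_lt r j.1⟩, u)
  | Sum.inr (Sum.inl (r, u)) => (r.castSucc, ⟨(P.S r).tp, by have := P.hN r; omega⟩, u)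
  | Sum.inr (Sum.inr (t, u)) => (Fin.last R, t.castSucc, u)

/-- targets -/
noncomputable def tgtC : Ed P → St P
  | Sum.inl ⟨r, u, j⟩ => (r.castSucc, ⟨(P.S r).cls ((P.S r).π j.1), P.cls_lt r _⟩,
      ⟨col (P.D r) u.1 ((P.S r).off ((P.S r).π j.1) / P.K r),
        col_lt (P.hA r) u.2 (P.cell_lt' r j)⟩)
  | Sum.inr (Sum.inl (r, u)) => (r.succ, 0, u)
  | Sum.inr (Sum.inr (t, u)) => (Fin.last R, t.succ, u)

/-- the weight of the ride `j` from the column `u` -/
noncomputable def om (r : Fin R) (u : ℕ) (j : Fin (P.S r).F) : ℝ :=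
  theta (P.A r) (u % P.D r) ((P.S r).off j.1 / P.K r) / P.K r

/-- weights -/
noncomputable def wtC : Ed P → ℝ
  | Sum.inl ⟨r, u, j⟩ => om P r u.1 j
  | Sum.inr _ => 1

/-- letters -/
def ltC : Ed P → Option Y
  | Sum.inl ⟨r, _, j⟩ => some ((P.S r).ℓ j.1)
  | Sum.inr _ => none

theorem om_nonneg (r : Fin R) (u : ℕ) (j : Fin (P.S r).F) : 0 ≤ om P r u j := by
  unfold om
  exact div_nonneg (theta_nonneg _ _ _) (by positivity)

theorem wtC_nonneg (e : Ed P) : 0 ≤ wtC P e := by
  rcases e with ⟨r, u, j⟩ | e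
  · exact om_nonneg P r u.1 j
  · exact zero_le_one

open scoped Classical in
/-- sums over the edges -/
theorem sum_edges (G : Ed P → ℝ) : ∑ e, G e =
    (∑ r, ∑ u, ∑ j, G (Sum.inl ⟨r, u, j⟩)) + ((∑ r, ∑ u, G (Sum.inr (Sum.inl (r, u)))) +
      ∑ t, ∑ u, G (Sum.inr (Sum.inr (t, u)))) := by
  rw [Fintype.sum_sum_type, Fintype.sum_sum_type, Fintype.sum_sigma, Fintype.sum_prod_type,
    Fintype.sum_prod_type]
  congr 1
  refine Finset.sum_congr rfl fun r _ => ?_
  rw [Fintype.sum_prod_type]

open scoped Classical in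
/-- edges out of a state of a segment -/
theorem out_seg (r : Fin R) (t : Fin (P.N + 1)) (u : Fin (2 ^ P.B)) (G : Ed P → ℝ) :
    ∑ e, (if srcC P e = (r.castSucc, t, u) then G e else 0) =
      (∑ j, if (P.S r).cls j.1 = t.1 then G (Sum.inl ⟨r, u, j⟩) else 0) +
        if t.1 = (P.S r).tp then G (Sum.inr (Sum.inl (r, u))) else 0 := by
  rw [sum_edges]
  have h1 : ∑ r', ∑ u', ∑ j, (if srcC P (Sum.inl ⟨r', u', j⟩) = (r.castSucc, t, u) then
      G (Sum.inl ⟨r', u', j⟩) else 0) =
      ∑ j, if (P.S r).cls j.1 = t.1 then G (Sum.inl ⟨r, u, j⟩) else 0 := by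
    rw [Finset.sum_eq_single r, Finset.sum_eq_single u]
    · refine Finset.sum_congr rfl fun j _ => ?_
      simp only [srcC, Prod.mk.injEq, true_and, and_true, Fin.ext_iff]
    · intro u' _ hu'
      refine Finset.sum_eq_zero fun j _ => if_neg ?_
      simp only [srcC, Prod.mk.injEq, not_and]
      intro _ _ h
      exact hu' h
    · intro h
      exact absurd (Finset.mem_univ _) h
    · intro r' _ hr'
      refine Finset.sum_eq_zero fun u' _ => Finset.sum_eq_zero fun j _ => if_neg ?_
      simp only [srcC, Prod.mk.injEq, not_and]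
      intro h
      exact absurd (Fin.castSucc_injective R h) hr'
    · intro h
      exact absurd (Finset.mem_univ _) h
  have h2 : ∑ r', ∑ u', (if srcC P (Sum.inr (Sum.inl (r', u'))) = (r.castSucc, t, u) then
      G (Sum.inr (Sum.inl (r', u'))) else 0) =
      if t.1 = (P.S r).tp then G (Sum.inr (Sum.inl (r, u))) else 0 := by
    rw [Finset.sum_eq_single r, Finset.sum_eq_single u]
    · simp only [srcC, Prod.mk.injEq, true_and, and_true, Fin.ext_iff]
      by_cases h : t.1 = (P.S r).tp
      · rw [if_pos h.symm, if_pos h]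
      · rw [if_neg fun h' => h h'.symm, if_neg h]
    · intro u' _ hu'
      refine if_neg ?_
      simp only [srcC, Prod.mk.injEq, not_and]
      intro _ _ h
      exact hu' h
    · intro h
      exact absurd (Finset.mem_univ _) h
    · intro r' _ hr'
      refine Finset.sum_eq_zero fun u' _ => if_neg ?_
      simp only [srcC, Prod.mk.injEq, not_and]
      intro h
      exact absurd (Fin.castSucc_injective R h) hr'
    · intro h
      exact absurd (Finset.mem_univ _) h
  have h3 : ∑ t', ∑ u', (if srcC P (Sum.inr (Sum.inr (t', u'))) = (r.castSucc, t, u) then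
      G (Sum.inr (Sum.inr (t', u'))) else 0) = 0 := by
    refine Finset.sum_eq_zero fun t' _ => Finset.sum_eq_zero fun u' _ => if_neg ?_
    simp only [srcC, Prod.mk.injEq, not_and]
    intro h
    exact absurd h.symm (Fin.castSucc_lt_last r).ne
  rw [h1, h2, h3, add_zero]

open scoped Classical in
/-- edges out of an idle state -/
theorem out_idle (t : Fin (P.N + 1)) (u : Fin (2 ^ P.B)) (G : Ed P → ℝ) :
    ∑ e, (if srcC P e = (Fin.last R, t, u) then G e else 0) =
      ∑ t' : Fin P.N, if t'.castSucc = t then G (Sum.inr (Sum.inr (t', u))) else 0 := by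
  rw [sum_edges]
  have h1 : ∑ r', ∑ u', ∑ j, (if srcC P (Sum.inl ⟨r', u', j⟩) = (Fin.last R, t, u) then
      G (Sum.inl ⟨r', u', j⟩) else 0) = 0 := by
    refine Finset.sum_eq_zero fun r' _ => Finset.sum_eq_zero fun u' _ =>
      Finset.sum_eq_zero fun j _ => if_neg ?_
    simp only [srcC, Prod.mk.injEq, not_and]
    intro h
    exact absurd h (Fin.castSucc_lt_last r').ne
  have h2 : ∑ r', ∑ u', (if srcC P (Sum.inr (Sum.inl (r', u'))) = (Fin.last R, t, u) then
      G (Sum.inr (Sum.inl (r', u'))) else 0) = 0 := by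
    refine Finset.sum_eq_zero fun r' _ => Finset.sum_eq_zero fun u' _ => if_neg ?_
    simp only [srcC, Prod.mk.injEq, not_and]
    intro h
    exact absurd h (Fin.castSucc_lt_last r').ne
  rw [h1, h2, zero_add, zero_add]
  refine Finset.sum_congr rfl fun t' _ => ?_
  rw [Finset.sum_eq_single u]
  · simp only [srcC, Prod.mk.injEq, true_and, and_true]
  · intro u' _ hu'
    refine if_neg ?_
    simp only [srcC, Prod.mk.injEq, not_and]
    intro _ _ h
    exact hu' h
  · intro h
    exact absurd (Finset.mem_univ _) h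

open scoped Classical in
/-- edges into a state of a segment -/
theorem in_seg (r : Fin R) (t : Fin (P.N + 1)) (u : Fin (2 ^ P.B)) (G : Ed P → ℝ) :
    ∑ e, (if tgtC P e = (r.castSucc, t, u) then G e else 0) =
      (∑ j, if (P.S r).cls ((P.S r).π j.1) = t.1 ∧
          (P.S r).off ((P.S r).π j.1) / P.K r = u.1 % P.D r then
        ∑ u' : Fin (2 ^ P.B), (if u'.1 / P.D r = u.1 / P.D r then
          G (Sum.inl ⟨r, u', j⟩) else 0) else 0) +
        ∑ r' : Fin R, if r'.succ = r.castSucc ∧ t = 0 then
          G (Sum.inr (Sum.inl (r', u))) else 0 := by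
  rw [sum_edges]
  have h1 : ∑ r', ∑ u', ∑ j, (if tgtC P (Sum.inl ⟨r', u', j⟩) = (r.castSucc, t, u) then
      G (Sum.inl ⟨r', u', j⟩) else 0) =
      ∑ j, if (P.S r).cls ((P.S r).π j.1) = t.1 ∧
          (P.S r).off ((P.S r).π j.1) / P.K r = u.1 % P.D r then
        ∑ u' : Fin (2 ^ P.B), (if u'.1 / P.D r = u.1 / P.D r then
          G (Sum.inl ⟨r, u', j⟩) else 0) else 0 := by
    rw [Finset.sum_eq_single r]
    · rw [Finset.sum_comm]
      refine Finset.sum_congr rfl fun j _ => ?_
      by_cases h : (P.S r).cls ((P.S r).π j.1) = t.1 ∧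
          (P.S r).off ((P.S r).π j.1) / P.K r = u.1 % P.D r
      · rw [if_pos h]
        refine Finset.sum_congr rfl fun u' _ => ?_
        simp only [tgtC, Prod.mk.injEq, true_and, Fin.ext_iff]
        have hiff := col_eq_iff (u := u'.1) (v := u.1) (P.cell_lt' r j)
        by_cases h2 : u'.1 / P.D r = u.1 / P.D r
        · rw [if_pos ⟨h.1, hiff.2 ⟨h2, h.2⟩⟩, if_pos h2]
        · rw [if_neg fun h3 => h2 (hiff.1 h3.2).1, if_neg h2]
      · rw [if_neg h]
        refine Finset.sum_eq_zero fun u' _ => if_neg ?_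
        simp only [tgtC, Prod.mk.injEq, true_and, Fin.ext_iff]
        rintro ⟨h2, h3⟩
        exact h ⟨h2, ((col_eq_iff (P.cell_lt' r j)).1 h3).2⟩
    · intro r' _ hr'
      refine Finset.sum_eq_zero fun u' _ => Finset.sum_eq_zero fun j _ => if_neg ?_
      simp only [tgtC, Prod.mk.injEq, not_and]
      intro h
      exact absurd (Fin.castSucc_injective R h) hr'
    · intro h
      exact absurd (Finset.mem_univ _) h
  have h2 : ∑ r', ∑ u', (if tgtC P (Sum.inr (Sum.inl (r', u'))) = (r.castSucc, t, u) then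
      G (Sum.inr (Sum.inl (r', u'))) else 0) =
      ∑ r' : Fin R, if r'.succ = r.castSucc ∧ t = 0 then
          G (Sum.inr (Sum.inl (r', u))) else 0 := by
    refine Finset.sum_congr rfl fun r' _ => ?_
    rw [Finset.sum_eq_single u]
    · simp only [tgtC, Prod.mk.injEq, and_true]
      by_cases h : r'.succ = r.castSucc ∧ t = 0
      · rw [if_pos ⟨h.1, h.2.symm⟩, if_pos h]
      · rw [if_neg fun h' => h ⟨h'.1, h'.2.symm⟩, if_neg h]
    · intro u' _ hu'
      refine if_neg ?_
      simp only [tgtC, Prod.mk.injEq, not_and]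
      intro _ _ h
      exact hu' h
    · intro h
      exact absurd (Finset.mem_univ _) h
  have h3 : ∑ t', ∑ u', (if tgtC P (Sum.inr (Sum.inr (t', u'))) = (r.castSucc, t, u) then
      G (Sum.inr (Sum.inr (t', u'))) else 0) = 0 := by
    refine Finset.sum_eq_zero fun t' _ => Finset.sum_eq_zero fun u' _ => if_neg ?_
    simp only [tgtC, Prod.mk.injEq, not_and]
    intro h
    exact absurd h.symm (Fin.castSucc_lt_last r).ne
  rw [h1, h2, h3, add_zero]

open scoped Classical in
/-- edges into an idle state -/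
theorem in_idle (t : Fin (P.N + 1)) (u : Fin (2 ^ P.B)) (G : Ed P → ℝ) :
    ∑ e, (if tgtC P e = (Fin.last R, t, u) then G e else 0) =
      (∑ r' : Fin R, if r'.succ = Fin.last R ∧ t = 0 then
          G (Sum.inr (Sum.inl (r', u))) else 0) +
      ∑ t' : Fin P.N, if t'.succ = t then G (Sum.inr (Sum.inr (t', u))) else 0 := by
  rw [sum_edges]
  have h1 : ∑ r', ∑ u', ∑ j, (if tgtC P (Sum.inl ⟨r', u', j⟩) = (Fin.last R, t, u) then
      G (Sum.inl ⟨r', u', j⟩) else 0) = 0 := by
    refine Finset.sum_eq_zero fun r' _ => Finset.sum_eq_zero fun u' _ =>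
      Finset.sum_eq_zero fun j _ => if_neg ?_
    simp only [tgtC, Prod.mk.injEq, not_and]
    intro h
    exact absurd h (Fin.castSucc_lt_last r').ne
  have h2 : ∑ r', ∑ u', (if tgtC P (Sum.inr (Sum.inl (r', u'))) = (Fin.last R, t, u) then
      G (Sum.inr (Sum.inl (r', u'))) else 0) =
      ∑ r' : Fin R, if r'.succ = Fin.last R ∧ t = 0 then
          G (Sum.inr (Sum.inl (r', u))) else 0 := by
    refine Finset.sum_congr rfl fun r' _ => ?_
    rw [Finset.sum_eq_single u]
    · simp only [tgtC, Prod.mk.injEq, and_true]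
      by_cases h : r'.succ = Fin.last R ∧ t = 0
      · rw [if_pos ⟨h.1, h.2.symm⟩, if_pos h]
      · rw [if_neg fun h' => h ⟨h'.1, h'.2.symm⟩, if_neg h]
    · intro u' _ hu'
      refine if_neg ?_
      simp only [tgtC, Prod.mk.injEq, not_and]
      intro _ _ h
      exact hu' h
    · intro h
      exact absurd (Finset.mem_univ _) h
  have h3 : ∑ t', ∑ u', (if tgtC P (Sum.inr (Sum.inr (t', u'))) = (Fin.last R, t, u) then
      G (Sum.inr (Sum.inr (t', u'))) else 0) =
      ∑ t' : Fin P.N, if t'.succ = t then G (Sum.inr (Sum.inr (t', u))) else 0 := by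
    refine Finset.sum_congr rfl fun t' _ => ?_
    rw [Finset.sum_eq_single u]
    · simp only [tgtC, Prod.mk.injEq, true_and, and_true]
    · intro u' _ hu'
      refine if_neg ?_
      simp only [tgtC, Prod.mk.injEq, not_and]
      intro _ _ h
      exact hu' h
    · intro h
      exact absurd (Finset.mem_univ _) h
  rw [h1, h2, h3, zero_add]

/-- sums over the starts of a class, by cells -/
theorem sum_starts (r : Fin R) (t : ℕ) (G : ℕ → ℝ) (c0 : ℕ) :
    ∑ j : Fin (P.S r).F, (if (P.S r).cls j.1 = t then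
      theta (P.A r) c0 ((P.S r).off j.1 / P.K r) / P.K r * G ((P.S r).off j.1 / P.K r) else 0) =
    ∑ c ∈ range (P.D r), theta (P.A r) c0 c * G c *
      ((((univ : Finset (Fin (P.S r).F)).filter fun j => (P.S r).cls j.1 = t ∧
        (P.S r).off j.1 / P.K r = c).card : ℝ) / P.K r) := by
  have hK : (P.K r : ℝ) ≠ 0 := by exact_mod_cast (P.hK r).ne'
  have h1 : ∀ c ∈ range (P.D r), theta (P.A r) c0 c * G c *
      ((((univ : Finset (Fin (P.S r).F)).filter fun j => (P.S r).cls j.1 = t ∧
        (P.S r).off j.1 / P.K r = c).card : ℝ) / P.K r) =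
      ∑ j : Fin (P.S r).F, if (P.S r).cls j.1 = t ∧ (P.S r).off j.1 / P.K r = c then
        theta (P.A r) c0 c * G c / P.K r else 0 := by
    intro c _
    rw [← Finset.sum_filter, Finset.sum_const, nsmul_eq_mul]
    ring
  rw [Finset.sum_congr rfl h1, Finset.sum_comm]
  refine Finset.sum_congr rfl fun j _ => ?_
  by_cases hj : (P.S r).cls j.1 = t
  · rw [if_pos hj, Finset.sum_eq_single ((P.S r).off j.1 / P.K r)]
    · rw [if_pos ⟨hj, rfl⟩]
      ring
    · intro c _ hc
      rw [if_neg fun h => hc h.2.symm]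
    · intro h
      exact absurd (mem_range.2 (P.cell_lt0 r j)) h
  · rw [if_neg hj]
    symm
    refine Finset.sum_eq_zero fun c _ => if_neg fun h => hj h.1

theorem out_om (r : Fin R) (t u : ℕ) : ∑ j : Fin (P.S r).F,
    (if (P.S r).cls j.1 = t then om P r u j else 0) ≤ 1 := by
  have h1 := sum_starts P r t (fun _ => 1) (u % P.D r)
  simp only [mul_one] at h1
  unfold om
  rw [h1]
  have hK : (0 : ℝ) < P.K r := by exact_mod_cast P.hK r
  calc _ ≤ ∑ c ∈ range (P.D r), theta (P.A r) (u % P.D r) c := by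
        refine Finset.sum_le_sum fun c _ => ?_
        refine mul_le_of_le_one_right (theta_nonneg _ _ _) ?_
        rw [div_le_one hK]
        exact_mod_cast (P.S r).card_start (P.K r) (P.hK r) t c
    _ ≤ 1 := sum_theta_le _ _ _ (Nat.mod_lt _ (P.D_pos r))

theorem in_om (r : Fin R) (u : Fin (2 ^ P.B)) (j : Fin (P.S r).F) :
    ∑ u' : Fin (2 ^ P.B), (if u'.1 / P.D r = u.1 / P.D r then om P r u'.1 j else 0) ≤
      1 / P.K r := by
  have hK : (0 : ℝ) < P.K r := by exact_mod_cast P.hK r
  have h1 : ∑ u' : Fin (2 ^ P.B), (if u'.1 / P.D r = u.1 / P.D r then om P r u'.1 j else 0) =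
      ∑ c ∈ range (P.D r), theta (P.A r) c ((P.S r).off j.1 / P.K r) / P.K r := by
    rw [Fin.sum_univ_eq_sum_range (fun v => if v / P.D r = u.1 / P.D r then om P r v j else 0)
      (2 ^ P.B)]
    unfold om
    exact sum_label (P.D_pos r) (div_room (P.hA r) u.2)
      (fun c => theta (P.A r) c ((P.S r).off j.1 / P.K r) / P.K r)
  rw [h1, ← Finset.sum_div]
  exact div_le_div_of_nonneg_right (sum_theta_le' _ _ _) hK.le

open scoped Classical in
theorem outC_le (x : St P) : ∑ e, (if srcC P e = x then wtC P e else 0) ≤ 1 := by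
  obtain ⟨r, t, u⟩ := x
  rcases Fin.eq_castSucc_or_eq_last r with ⟨r, rfl⟩ | rfl
  · rw [out_seg]
    by_cases ht : t.1 = (P.S r).tp
    · rw [if_pos ht]
      have h1 : ∑ j, (if (P.S r).cls j.1 = t.1 then wtC P (Sum.inl ⟨r, u, j⟩) else 0) = 0 := by
        refine Finset.sum_eq_zero fun j _ => if_neg ?_
        have := (P.S r).cls_lt j.2
        omega
      rw [h1, zero_add]
      exact le_rfl
    · rw [if_neg ht, add_zero]
      exact out_om P r t.1 u.1
  · rw [out_idle]
    by_cases ht : t.1 < P.N
    · rw [Finset.sum_eq_single (⟨t.1, ht⟩ : Fin P.N)]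
      · split_ifs
        · exact le_rfl
        · exact zero_le_one
      · intro t' _ ht'
        refine if_neg fun h => ht' ?_
        apply Fin.ext
        have := congrArg Fin.val h
        simpa using this
      · intro h
        exact absurd (Finset.mem_univ _) h
    · rw [Finset.sum_eq_zero fun t' _ => if_neg ?_]
      · exact zero_le_one
      · intro h
        have := congrArg Fin.val h
        simp only [Fin.val_castSucc] at this
        have := t'.2
        omega

open scoped Classical in
theorem inC_le (x : St P) : ∑ e, (if tgtC P e = x then wtC P e else 0) ≤ 1 := by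
  obtain ⟨r, t, u⟩ := x
  rcases Fin.eq_castSucc_or_eq_last r with ⟨r, rfl⟩ | rfl
  · rw [in_seg]
    by_cases ht : t = 0
    · have h1 : (∑ j, if (P.S r).cls ((P.S r).π j.1) = t.1 ∧
          (P.S r).off ((P.S r).π j.1) / P.K r = u.1 % P.D r then
        ∑ u' : Fin (2 ^ P.B), (if u'.1 / P.D r = u.1 / P.D r then
          wtC P (Sum.inl ⟨r, u', j⟩) else 0) else 0) = 0 := by
        refine Finset.sum_eq_zero fun j _ => if_neg ?_
        rintro ⟨h, _⟩
        have := (P.S r).cls_pi_lo j.2
        rw [ht] at h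
        simp only [Fin.val_zero] at h
        omega
      rw [h1, zero_add]
      calc ∑ r' : Fin R, (if r'.succ = r.castSucc ∧ t = 0 then
            wtC P (Sum.inr (Sum.inl (r', u))) else 0)
          ≤ ∑ r' : Fin R, (if r'.succ = r.castSucc then (1 : ℝ) else 0) := by
            refine Finset.sum_le_sum fun r' _ => ?_
            by_cases h : r'.succ = r.castSucc
            · rw [if_pos ⟨h, ht⟩, if_pos h]
              exact le_rfl
            · rw [if_neg fun h' => h h'.1, if_neg h]
        _ ≤ 1 := by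
            rw [← Finset.sum_filter, Finset.sum_const, nsmul_eq_mul, mul_one]
            have : (univ.filter fun r' : Fin R => r'.succ = r.castSucc).card ≤ 1 := by
              rw [Finset.card_le_one]
              intro a ha b hb
              rw [Finset.mem_filter] at ha hb
              exact Fin.succ_injective R (ha.2.trans hb.2.symm)
            exact_mod_cast this
    · have h1 : (∑ r' : Fin R, if r'.succ = r.castSucc ∧ t = 0 then
          wtC P (Sum.inr (Sum.inl (r', u))) else 0) = 0 :=
        Finset.sum_eq_zero fun r' _ => if_neg fun h => ht h.2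
      rw [h1, add_zero]
      have hK : (0 : ℝ) < P.K r := by exact_mod_cast P.hK r
      calc _ ≤ ∑ j : Fin (P.S r).F, (if (P.S r).cls ((P.S r).π j.1) = t.1 ∧
            (P.S r).off ((P.S r).π j.1) / P.K r = u.1 % P.D r then (1 : ℝ) / P.K r
              else 0) := by
            refine Finset.sum_le_sum fun j _ => ?_
            split_ifs
            · exact in_om P r u j
            · exact le_rfl
        _ ≤ 1 := by
            rw [← Finset.sum_filter, Finset.sum_const, nsmul_eq_mul, mul_one_div,
              div_le_one hK]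
            exact_mod_cast (P.S r).card_land (P.K r) (P.hK r) t.1 (u.1 % P.D r)
  · rw [in_idle]
    by_cases ht : t = 0
    · have h1 : (∑ t' : Fin P.N, if t'.succ = t then wtC P (Sum.inr (Sum.inr (t', u)))
          else 0) = 0 := by
        refine Finset.sum_eq_zero fun t' _ => if_neg ?_
        rw [ht]
        exact Fin.succ_ne_zero t'
      rw [h1, add_zero]
      calc ∑ r' : Fin R, (if r'.succ = Fin.last R ∧ t = 0 then
            wtC P (Sum.inr (Sum.inl (r', u))) else 0)
          ≤ ∑ r' : Fin R, (if r'.succ = Fin.last R then (1 : ℝ) else 0) := by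
            refine Finset.sum_le_sum fun r' _ => ?_
            by_cases h : r'.succ = Fin.last R
            · rw [if_pos ⟨h, ht⟩, if_pos h]
              exact le_rfl
            · rw [if_neg fun h' => h h'.1, if_neg h]
        _ ≤ 1 := by
            rw [← Finset.sum_filter, Finset.sum_const, nsmul_eq_mul, mul_one]
            have : (univ.filter fun r' : Fin R => r'.succ = Fin.last R).card ≤ 1 := by
              rw [Finset.card_le_one]
              intro a ha b hb
              rw [Finset.mem_filter] at ha hb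
              exact Fin.succ_injective R (ha.2.trans hb.2.symm)
            exact_mod_cast this
    · have h1 : (∑ r' : Fin R, if r'.succ = Fin.last R ∧ t = 0 then
          wtC P (Sum.inr (Sum.inl (r', u))) else 0) = 0 :=
        Finset.sum_eq_zero fun r' _ => if_neg fun h => ht h.2
      rw [h1, zero_add]
      calc ∑ t' : Fin P.N, (if t'.succ = t then wtC P (Sum.inr (Sum.inr (t', u))) else 0)
          ≤ ∑ t' : Fin P.N, (if t'.succ = t then (1 : ℝ) else 0) := by
            refine Finset.sum_le_sum fun t' _ => ?_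
            split_ifs
            · exact le_rfl
            · exact le_rfl
        _ ≤ 1 := by
            rw [← Finset.sum_filter, Finset.sum_const, nsmul_eq_mul, mul_one]
            have : (univ.filter fun t' : Fin P.N => t'.succ = t).card ≤ 1 := by
              rw [Finset.card_le_one]
              intro a ha b hb
              rw [Finset.mem_filter] at ha hb
              exact Fin.succ_injective P.N (ha.2.trans hb.2.symm)
            exact_mod_cast this

/-- the chain -/
noncomputable def chn : Ch (St P) (Ed P) Y where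
  src := srcC P
  tgt := tgtC P
  wt := wtC P
  lt := ltC P
  wt_nonneg := wtC_nonneg P
  out_le x := by
    classical
    refine le_trans (le_of_eq ?_) (outC_le P x)
    refine Finset.sum_congr rfl fun e _ => ?_
    by_cases h : srcC P e = x
    · rw [if_pos h]
      exact (if_pos h).symm
    · rw [if_neg h]
      exact (if_neg h).symm
  in_le x := by
    classical
    refine le_trans (le_of_eq ?_) (inC_le P x)
    refine Finset.sum_congr rfl fun e _ => ?_
    by_cases h : tgtC P e = x
    · rw [if_pos h]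
      exact (if_pos h).symm
    · rw [if_neg h]
      exact (if_neg h).symm

/-- change of the decision procedure -/
theorem ite_inst {p : Prop} (i₁ i₂ : Decidable p) (a b : ℝ) :
    @ite ℝ p i₁ a b = @ite ℝ p i₂ a b := by
  by_cases h : p
  · rw [if_pos h, if_pos h]
  · rw [if_neg h, if_neg h]

end chain

end Pool.Agent.H66.SLC
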