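import Pool.Agent.H66.SLC.Exf

/-!
# Walks of the chain give paths of the rank systems
-/

set_option autoImplicit false

open Finset

namespace Pool.Agent.H66.SLC

open Pool.Agent.H66.SLP Pool.Agent.H90.SPW

section chain

variable {R : ℕ} {Y : Type} (P : Par R Y)

/-- the ride of the segment `r` given by an edge -/
def rd (r : Fin R) : Ed P → Option ℕ
  | Sum.inl ⟨r', _, j⟩ => if r' = r then some j.1 else none
  | Sum.inr _ => none

/-- the rides of the segment `r` in a walk -/
def lr (r : Fin R) (l : List (Ed P)) : List ℕ := l.filterMap (rd P r)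

/-- the cost in the segment `r` -/
noncomputable def fr (r : Fin R) : Ed P → ℝ
  | Sum.inl ⟨r', u, j⟩ => if r' = r then ff P (Sum.inl ⟨r', u, j⟩) else 0
  | Sum.inr _ => 0

/-- the cost of a walk in the segment `r` -/
noncomputable def fs (r : Fin R) (l : List (Ed P)) : ℝ := (l.map (fr P r)).sum

theorem fr_nonneg (r : Fin R) (e : Ed P) : 0 ≤ fr P r e := by
  rcases e with ⟨r', u, j⟩ | e
  · simp only [fr]
    split_ifs
    · exact ff_nonneg P _
    · exact le_rfl
  · exact le_rfl

theorem fr_le (r : Fin R) (e : Ed P) : fr P r e ≤ ff P e := by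
  rcases e with ⟨r', u, j⟩ | e
  · simp only [fr]
    split_ifs
    · exact le_rfl
    · exact ff_nonneg P _
  · exact le_rfl

theorem fs_nonneg (r : Fin R) (l : List (Ed P)) : 0 ≤ fs P r l := by
  induction l with
  | nil => exact le_rfl
  | cons e l ih =>
    unfold fs at ih ⊢
    rw [List.map_cons, List.sum_cons]
    have := fr_nonneg P r e
    linarith

theorem fs_le (r : Fin R) (l : List (Ed P)) : fs P r l ≤ (l.map (ff P)).sum := by
  induction l with
  | nil => exact le_rfl
  | cons e l ih =>
    unfold fs at ih ⊢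
    rw [List.map_cons, List.sum_cons, List.map_cons, List.sum_cons]
    have := fr_le P r e
    linarith

theorem lr_ride (r : Fin R) (u : Fin (2 ^ P.B)) (j : Fin (P.S r).F) (l : List (Ed P)) :
    lr P r (Sum.inl ⟨r, u, j⟩ :: l) = j.1 :: lr P r l := by
  unfold lr
  exact List.filterMap_cons_some (by simp only [rd, if_true])

theorem lr_ride_ne (r r' : Fin R) (h : r' ≠ r) (u : Fin (2 ^ P.B)) (j : Fin (P.S r').F)
    (l : List (Ed P)) : lr P r (Sum.inl ⟨r', u, j⟩ :: l) = lr P r l := by
  unfold lr
  exact List.filterMap_cons_none (by simp only [rd, if_neg h])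

theorem lr_inr (r : Fin R) (e : (Fin R × Fin (2 ^ P.B)) ⊕ (Fin P.N × Fin (2 ^ P.B)))
    (l : List (Ed P)) : lr P r (Sum.inr e :: l) = lr P r l := by
  unfold lr
  exact List.filterMap_cons_none rfl

theorem fs_ride (r : Fin R) (u : Fin (2 ^ P.B)) (j : Fin (P.S r).F) (l : List (Ed P)) :
    fs P r (Sum.inl ⟨r, u, j⟩ :: l) = ff P (Sum.inl ⟨r, u, j⟩) + fs P r l := by
  unfold fs
  rw [List.map_cons, List.sum_cons]
  simp only [fr, if_true]

theorem fs_ride_ne (r r' : Fin R) (h : r' ≠ r) (u : Fin (2 ^ P.B)) (j : Fin (P.S r').F)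
    (l : List (Ed P)) : fs P r (Sum.inl ⟨r', u, j⟩ :: l) = fs P r l := by
  unfold fs
  rw [List.map_cons, List.sum_cons]
  simp only [fr, if_neg h, zero_add]

theorem fs_inr (r : Fin R) (e : (Fin R × Fin (2 ^ P.B)) ⊕ (Fin P.N × Fin (2 ^ P.B)))
    (l : List (Ed P)) : fs P r (Sum.inr e :: l) = fs P r l := by
  unfold fs
  rw [List.map_cons, List.sum_cons]
  simp only [fr, zero_add]

/-- level of the start of a segment -/
noncomputable def base (r : Fin (R + 1)) : ℕ :=
  ∑ r' : Fin R, if r'.castSucc < r then (P.S r').tp + 1 else 0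

/-- levels -/
noncomputable def lev (x : St P) : ℕ := base P x.1 + x.2.1.1

/-- the number of steps to the idle states -/
noncomputable def tot : ℕ := ∑ r : Fin R, ((P.S r).tp + 1)

theorem base_succ (r : Fin R) : base P r.succ = base P r.castSucc + ((P.S r).tp + 1) := by
  unfold base
  have h2 : ∀ r' : Fin R, (if r'.castSucc < r.succ then (P.S r').tp + 1 else 0) =
      (if r'.castSucc < r.castSucc then (P.S r').tp + 1 else 0) +
        if r' = r then (P.S r').tp + 1 else 0 := by
    intro r'
    by_cases h : r' = r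
    · subst h
      rw [if_pos Fin.castSucc_lt_succ, if_neg (lt_irrefl _), if_pos rfl, zero_add]
    · rw [if_neg h, add_zero]
      have h3 : r'.castSucc < r.succ ↔ r'.castSucc < r.castSucc := by
        rw [Fin.lt_def, Fin.lt_def, Fin.val_castSucc, Fin.val_succ, Fin.val_castSucc]
        have h4 : r'.1 ≠ r.1 := fun h' => h (Fin.ext h')
        omega
      by_cases h5 : r'.castSucc < r.castSucc
      · rw [if_pos h5, if_pos (h3.2 h5)]
      · rw [if_neg h5, if_neg fun h6 => h5 (h3.1 h6)]
  rw [Finset.sum_congr rfl fun r' _ => h2 r', Finset.sum_add_distrib,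
    Finset.sum_ite_eq' univ r, if_pos (Finset.mem_univ r)]

theorem lev_step (e : Ed P) : lev P (srcC P e) + 1 ≤ lev P (tgtC P e) := by
  rcases e with ⟨r, u, j⟩ | ⟨r, u⟩ | ⟨t, u⟩
  · show base P r.castSucc + (P.S r).cls j.1 + 1 ≤
      base P r.castSucc + (P.S r).cls ((P.S r).π j.1)
    have := (P.S r).cls_pi_lo j.2
    omega
  · show base P r.castSucc + (P.S r).tp + 1 ≤ base P r.succ + 0
    rw [base_succ]
    omega
  · show base P (Fin.last R) + t.1 + 1 ≤ base P (Fin.last R) + (t.1 + 1)
    omega

/-- the class is not beyond the top class -/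
def Ok (x : St P) : Prop := ∀ r : Fin R, x.1 = r.castSucc → x.2.1.1 ≤ (P.S r).tp

theorem ok_tgt (e : Ed P) : Ok P (tgtC P e) := by
  rcases e with ⟨r, u, j⟩ | ⟨r, u⟩ | ⟨t, u⟩
  · intro r' hr'
    have hr : r = r' := Fin.castSucc_injective R hr'
    subst hr
    exact (P.S r).cls_le _
  · intro r' _
    exact Nat.zero_le _
  · intro r' hr'
    exact absurd hr'.symm (Fin.castSucc_lt_last r').ne

theorem lev_last (x : St P) (hx : Ok P x) (h : tot P ≤ lev P x) : x.1 = Fin.last R := by
  obtain ⟨r, t, u⟩ := x
  rcases Fin.eq_castSucc_or_eq_last r with ⟨r, rfl⟩ | rfl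
  · exfalso
    have h1 : t.1 ≤ (P.S r).tp := hx r rfl
    have h : tot P ≤ base P r.castSucc + t.1 := h
    unfold tot base at h
    have h2 : (∑ r' : Fin R, if r'.castSucc < r.castSucc then (P.S r').tp + 1 else 0) +
        ((P.S r).tp + 1) ≤ ∑ r' : Fin R, ((P.S r').tp + 1) := by
      have h3 : (P.S r).tp + 1 = ∑ r' : Fin R, if r' = r then (P.S r').tp + 1 else 0 := by
        rw [Finset.sum_ite_eq' univ r, if_pos (Finset.mem_univ r)]
      rw [h3, ← Finset.sum_add_distrib]
      refine Finset.sum_le_sum fun r' _ => ?_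
      by_cases h4 : r' = r
      · subst h4
        rw [if_neg (lt_irrefl _), if_pos rfl, zero_add]
      · rw [if_neg h4, add_zero]
        split_ifs
        · exact le_rfl
        · exact Nat.zero_le _
    omega
  · rfl

/-- walks from a state -/
def Fr (x : St P) : List (Ed P) → Prop
  | [] => True
  | e :: l => srcC P e = x ∧ 0 < wtC P e ∧ Fr (tgtC P e) l

theorem fr_of_chain : ∀ (l : List (Ed P)) (e : Ed P), (∀ e' ∈ e :: l, 0 < wtC P e') →
    (e :: l).IsChain (fun a b => tgtC P a = srcC P b) → Fr P (srcC P e) (e :: l) := by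
  intro l
  induction l with
  | nil =>
    intro e h _
    exact ⟨rfl, h e (List.mem_singleton.2 rfl), trivial⟩
  | cons e' l ih =>
    intro e h hc
    rw [List.isChain_cons_cons] at hc
    refine ⟨rfl, h e List.mem_cons_self, ?_⟩
    rw [hc.1]
    exact ih e' (fun a ha => h a (List.mem_cons_of_mem _ ha)) hc.2

/-- the rest of a path of the segment `r`, from the cell `c` of the class `t` -/
def TailP (r : Fin R) (t c : ℕ) (l : List ℕ) (f : ℝ) : Prop :=
  ∃ j l', l = j :: l' ∧ (P.S r).cls j = t ∧ (P.S r).off j / P.K r < c ∧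
    (∀ i ∈ l, i < (P.S r).F) ∧ l.IsChain (fun i j => j ≤ (P.S r).π i) ∧
    (∃ i ∈ l.getLast?, (P.S r).F ≤ (P.S r).π i) ∧ (P.S r).ovl l + gap P r c j ≤ f

theorem gap_key (r : Fin R) {q j : ℕ} (hq : (P.S r).cls q < (P.S r).tp)
    (h1 : (P.S r).cls j = (P.S r).cls q) (h2 : (P.S r).off j / P.K r < (P.S r).off q / P.K r) :
    j ≤ q ∧ (P.S r).τ q - (P.S r).τ j ≤ gap P r ((P.S r).off q / P.K r) j := by
  have hK := P.hK r
  have hqF : q < (P.S r).F := by
    by_contra h
    rw [(P.S r).cls_top (not_lt.1 h)] at hq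
    exact lt_irrefl _ hq
  have e1 := (P.S r).rank_eq q
  have e2 := (P.S r).rank_eq j
  rw [h1] at e2
  have h3 : (P.S r).off j < (P.S r).off q := by
    by_contra h
    have := Nat.div_le_div_right (c := P.K r) (not_lt.1 h)
    omega
  refine ⟨by omega, ?_⟩
  unfold gap gg
  rw [h1]
  have h4 : (P.S r).τ q ≤ (P.S r).τ (min ((P.S r).fst ((P.S r).cls q) +
      ((P.S r).off q / P.K r + 1) * P.K r) ((P.S r).fst ((P.S r).cls q + 1))) := by
    refine (P.S r).mono (le_min ?_ ?_)
    · have h5 := Nat.lt_div_mul_add hK (a := (P.S r).off q)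
      rw [Nat.succ_mul]
      omega
    · exact ((P.S r).lt_fst.2 ⟨hqF, Nat.lt_succ_self _⟩).le
  have h5 : (P.S r).τ (min ((P.S r).fst ((P.S r).cls q) +
      (P.S r).off j / P.K r * P.K r) ((P.S r).fst ((P.S r).cls q + 1))) ≤ (P.S r).τ j := by
    refine (P.S r).mono ((min_le_left _ _).trans ?_)
    have h6 := Nat.div_mul_le_self ((P.S r).off j) (P.K r)
    omega
  linarith

/-- what a walk from `x` gives for the segment `r` -/
structure DecP (r : Fin R) (x : St P) (l : List (Ed P)) : Prop where
  past : r.castSucc < x.1 → lr P r l = []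
  top : x.1 = r.castSucc → x.2.1.1 = (P.S r).tp → lr P r l = []
  mid : x.1 = r.castSucc → x.2.1.1 < (P.S r).tp →
    TailP P r x.2.1.1 (x.2.2.1 % P.D r) (lr P r l) (fs P r l)
  fut : x.1 < r.castSucc → ∃ c, TailP P r 0 c (lr P r l) (fs P r l)

theorem dec_step (r : Fin R) (e : Ed P) (l : List (Ed P)) (hw : 0 < wtC P e)
    (ih : DecP P r (tgtC P e) l) : DecP P r (srcC P e) (e :: l) := by
  rcases e with ⟨r', u, j⟩ | ⟨r', u⟩ | ⟨t', u⟩
  · by_cases hr : r' = r
    · subst hr
      have hth : theta (P.A r') (u.1 % P.D r') ((P.S r').off j.1 / P.K r') ≠ 0 := by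
        intro h
        have hw' : 0 < om P r' u.1 j := hw
        unfold om at hw'
        rw [h, zero_div] at hw'
        exact lt_irrefl _ hw'
      have hlt := theta_lt hth
      have hff : gap P r' ((srcC P (Sum.inl ⟨r', u, j⟩)).2.2.1 % P.D r') j.1 ≤
        ff P (Sum.inl ⟨r', u, j⟩) := le_max_left _ _
      refine ⟨fun h => absurd h (lt_irrefl _), fun _ h => ?_, fun _ _ => ?_,
        fun h => absurd h (lt_irrefl _)⟩
      · have h1 : (P.S r').cls j.1 = (P.S r').tp := h
        have := (P.S r').cls_lt j.2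
        omega
      · rw [lr_ride, fs_ride]
        rcases Nat.lt_or_ge ((P.S r').cls ((P.S r').π j.1)) (P.S r').tp with h1 | h1
        · obtain ⟨j2, l2, h2, h3, h4, h5, h6, h7, h8⟩ := ih.mid rfl h1
          have h3' : (P.S r').cls j2 = (P.S r').cls ((P.S r').π j.1) := h3
          have h4' : (P.S r').off j2 / P.K r' < (P.S r').off ((P.S r').π j.1) / P.K r' := by
            have h9 : (P.S r').off j2 / P.K r' <
              col (P.D r') u.1 ((P.S r').off ((P.S r').π j.1) / P.K r') % P.D r' := h4
            rw [col_mod (P.cell_lt' r' j)] at h9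
            exact h9
          obtain ⟨h10, h11⟩ := gap_key P r' h1 h3' h4'
          have h8' : (P.S r').ovl (lr P r' l) + gap P r' ((P.S r').off ((P.S r').π j.1) /
              P.K r') j2 ≤ fs P r' l := by
            have h9 : (P.S r').ovl (lr P r' l) + gap P r'
              (col (P.D r') u.1 ((P.S r').off ((P.S r').π j.1) / P.K r') % P.D r') j2 ≤
                fs P r' l := h8
            rw [col_mod (P.cell_lt' r' j)] at h9
            exact h9
          rw [h2] at h5 h6 h7 h8'
          refine ⟨j.1, lr P r' l, rfl, rfl, hlt, ?_, ?_, ?_, ?_⟩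
          · rw [h2]
            intro i hi
            rcases List.mem_cons.1 hi with rfl | hi
            · exact j.2
            · exact h5 i hi
          · rw [h2, List.isChain_cons_cons]
            exact ⟨h10, h6⟩
          · rw [h2, List.getLast?_cons_cons]
            exact h7
          · rw [h2]
            unfold RSys.ovl
            linarith
        · have h1' : (P.S r').cls ((P.S r').π j.1) = (P.S r').tp :=
            le_antisymm ((P.S r').cls_le _) h1
          rw [ih.top rfl h1']
          refine ⟨j.1, [], rfl, rfl, hlt, ?_, List.isChain_singleton _, ?_, ?_⟩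
          · intro i hi
            rw [List.mem_singleton] at hi
            rw [hi]
            exact j.2
          · refine ⟨j.1, by simp, ?_⟩
            by_contra h2
            have := (P.S r').cls_lt (not_le.1 h2)
            omega
          · have h2 := fs_nonneg P r' l
            have h3 : (P.S r').ovl [j.1] = 0 := rfl
            rw [h3]
            linarith
    · have e1 := lr_ride_ne P r r' hr u j l
      have e2 := fs_ride_ne P r r' hr u j l
      refine ⟨fun h => ?_, fun h => ?_, fun h => ?_, fun h => ?_⟩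
      · rw [e1]
        exact ih.past h
      · exact absurd (Fin.castSucc_injective R h) hr
      · exact absurd (Fin.castSucc_injective R h) hr
      · rw [e1, e2]
        exact ih.fut h
  · have e1 := lr_inr P r (Sum.inl (r', u)) l
    have e2 := fs_inr P r (Sum.inl (r', u)) l
    have hlt : r'.castSucc < r'.succ := Fin.castSucc_lt_succ
    refine ⟨fun h => ?_, fun h _ => ?_, fun h h' => ?_, fun h => ?_⟩
    · rw [e1]
      have h' : r.castSucc < r'.castSucc := h
      exact ih.past (h'.trans hlt)
    · rw [e1]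
      have h' : r'.castSucc = r.castSucc := h
      refine ih.past ?_
      rw [← h']
      exact hlt
    · exfalso
      have h1 : r' = r := Fin.castSucc_injective R h
      subst h1
      exact lt_irrefl _ h'
    · rw [e1, e2]
      have h' : r'.castSucc < r.castSucc := h
      rw [Fin.lt_def, Fin.val_castSucc, Fin.val_castSucc] at h'
      by_cases h1 : r'.succ = r.castSucc
      · exact ⟨_, ih.mid h1 ((P.S r).tp_pos (P.hW r))⟩
      · refine ih.fut ?_
        show r'.succ < r.castSucc
        rw [Fin.lt_def, Fin.val_succ, Fin.val_castSucc]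
        have h2 : r'.1 + 1 ≠ r.1 := fun h3 => h1 (Fin.ext h3)
        omega
  · have e1 := lr_inr P r (Sum.inr (t', u)) l
    have e2 := fs_inr P r (Sum.inr (t', u)) l
    refine ⟨fun h => ?_, fun h _ => ?_, fun h _ => ?_, fun h => ?_⟩
    · rw [e1]
      exact ih.past h
    · exact absurd h.symm (Fin.castSucc_lt_last r).ne
    · exact absurd h.symm (Fin.castSucc_lt_last r).ne
    · exact absurd h (not_lt.2 (Fin.le_last _))

end chain

end Pool.Agent.H66.SLC
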