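import Pool.Agent.H66.SLC.Dec

/-!
# Walks of the chain give paths of the rank systems, with distinct letters
-/

set_option autoImplicit false

open Finset

namespace Pool.Agent.H66.SLC

open Pool.Agent.H66.SLP Pool.Agent.H90.SPW

section chain

variable {R : ℕ} {Y : Type} (P : Par R Y)

theorem dec : ∀ (l : List (Ed P)) (x : St P), Ok P x → Fr P x l →
    tot P ≤ lev P x + l.length → ∀ r : Fin R, DecP P r x l := by
  intro l
  induction l with
  | nil =>
    intro x hx _ hn r
    have h1 : x.1 = Fin.last R := lev_last P x hx (by simpa using hn)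
    have h2 : x.1 ≠ r.castSucc := by
      rw [h1]
      exact (Fin.castSucc_lt_last r).ne'
    refine ⟨fun _ => rfl, fun h => absurd h h2, fun h => absurd h h2, fun h => ?_⟩
    rw [h1] at h
    exact absurd h (not_lt.2 (Fin.le_last _))
  | cons e l ih =>
    intro x hx hF hn r
    obtain ⟨h1, h2, h3⟩ := hF
    subst h1
    refine dec_step P r e l h2 (ih (tgtC P e) (ok_tgt P e) h3 ?_ r)
    have := lev_step P e
    rw [List.length_cons] at hn
    omega

theorem ovl_le_of_tail (r : Fin R) (c : ℕ) (l : List ℕ) (f : ℝ) (h : TailP P r 0 c l f) :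
    (P.S r).Path l ∧ (P.S r).ovl l ≤ f := by
  obtain ⟨j, l', hl, h1, h2, h3, h4, h5, h6⟩ := h
  refine ⟨⟨h3, ?_, h4, h5⟩, ?_⟩
  · refine ⟨j, by rw [hl]; rfl, ?_⟩
    by_contra h7
    have := (P.S r).cls_pos (P.hW r) (not_lt.1 h7)
    omega
  · have := gap_nonneg P r c j h2.le
    linarith

/-- a walk from a start state, of sufficient length, gives a path of every rank system -/
theorem decode (l : List (Ed P)) (hW : Walk (chn P) l) (hn : tot P ≤ l.length)
    (hs : ∀ e ∈ l.head?, 0 < sC P (srcC P e)) (r : Fin R) :
    (P.S r).Path (lr P r l) ∧ (P.S r).ovl (lr P r l) ≤ (l.map (ff P)).sum := by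
  have hfs := fs_le P r l
  rcases l with _ | ⟨e, l⟩
  · exfalso
    have h1 : (P.S r).tp + 1 ≤ tot P :=
      Finset.single_le_sum (f := fun r => (P.S r).tp + 1) (fun _ _ => Nat.zero_le _)
        (Finset.mem_univ r)
    simp only [List.length_nil] at hn
    omega
  · have h0 : 0 < sC P (srcC P e) := hs e rfl
    have h1 : (srcC P e).1 = 0 ∧ (srcC P e).2.1 = 0 := by
      by_contra h
      have h2 : sC P (srcC P e) = 0 := if_neg h
      rw [h2] at h0
      exact lt_irrefl _ h0
    have h2 : Ok P (srcC P e) := by
      intro r' _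
      rw [h1.2]
      exact Nat.zero_le _
    have h3 := fr_of_chain P l e hW.1 hW.2
    have h4 := dec P (e :: l) (srcC P e) h2 h3 (by omega) r
    have h5 : ∃ c, TailP P r 0 c (lr P r (e :: l)) (fs P r (e :: l)) := by
      rcases Nat.eq_zero_or_pos r.1 with h6 | h6
      · have h7 : (srcC P e).1 = r.castSucc := by
          rw [h1.1]
          apply Fin.ext
          rw [Fin.val_castSucc, h6]
          rfl
        have h8 := h4.mid h7 (by rw [h1.2]; exact (P.S r).tp_pos (P.hW r))
        have h9 : (srcC P e).2.1.1 = 0 := by rw [h1.2]; rfl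
        rw [h9] at h8
        exact ⟨_, h8⟩
      · refine h4.fut ?_
        rw [h1.1, Fin.lt_def, Fin.val_castSucc]
        exact h6
    obtain ⟨c, h6⟩ := h5
    obtain ⟨h7, h8⟩ := ovl_le_of_tail P r c _ _ h6
    exact ⟨h7, h8.trans hfs⟩

open scoped Classical in
theorem count_lr (y : Y) (l : List (Ed P)) :
    ∑ r : Fin R, ((lr P r l).map (P.S r).ℓ).count y = (l.filterMap (ltC P)).count y := by
  induction l with
  | nil => simp [lr]
  | cons e l ih =>
    rcases e with ⟨r', u, j⟩ | e
    · have h1 : (Sum.inl ⟨r', u, j⟩ :: l).filterMap (ltC P) =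
          (P.S r').ℓ j.1 :: l.filterMap (ltC P) := List.filterMap_cons_some rfl
      have h2 : ∀ r : Fin R, ((lr P r (Sum.inl ⟨r', u, j⟩ :: l)).map (P.S r).ℓ).count y =
          ((lr P r l).map (P.S r).ℓ).count y +
            if r' = r then (if (P.S r').ℓ j.1 = y then 1 else 0) else 0 := by
        intro r
        by_cases hr : r' = r
        · subst hr
          rw [lr_ride, List.map_cons, List.count_cons, if_pos rfl]
          congr 1
          by_cases h : (P.S r').ℓ j.1 = y
          · rw [if_pos (by simpa using h), if_pos h]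
          · rw [if_neg (by simpa using h), if_neg h]
        · rw [lr_ride_ne P r r' hr, if_neg hr, add_zero]
      rw [Finset.sum_congr rfl fun r _ => h2 r, Finset.sum_add_distrib, ih,
        Finset.sum_ite_eq univ r', if_pos (Finset.mem_univ r'), h1, List.count_cons]
      congr 1
      by_cases h : (P.S r').ℓ j.1 = y
      · rw [if_pos h, if_pos (by simpa using h)]
      · rw [if_neg h, if_neg (by simpa using h)]
    · have h1 : (Sum.inr e :: l).filterMap (ltC P) = l.filterMap (ltC P) :=
        List.filterMap_cons_none rfl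
      rw [h1, ← ih]
      exact Finset.sum_congr rfl fun r _ => by rw [lr_inr]

theorem nodup_lr (l : List (Ed P)) (h : (l.filterMap (ltC P)).Nodup) :
    (List.ofFn fun r => (lr P r l).map (P.S r).ℓ).flatten.Nodup := by
  classical
  rw [List.nodup_iff_count_le_one] at h ⊢
  intro y
  have h1 : (List.ofFn fun r => (lr P r l).map (P.S r).ℓ).flatten.count y =
      ∑ r : Fin R, ((lr P r l).map (P.S r).ℓ).count y := by
    rw [List.count_flatten, List.map_ofFn, List.sum_ofFn]
    rfl
  rw [h1]
  have h2 := count_lr P y l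
  have h3 := h y
  have h4 : (List.count y (l.filterMap (ltC P))) ≤ 1 := h3
  have h5 : ∀ (i₁ i₂ : BEq Y) [@LawfulBEq Y i₁] [@LawfulBEq Y i₂] (l : List Y),
      @List.count Y i₁ y l = @List.count Y i₂ y l := by
    intro i₁ i₂ _ _ l
    induction l with
    | nil => rfl
    | cons a l ih =>
      rw [@List.count_cons Y i₁, @List.count_cons Y i₂, ih]
      congr 1
      by_cases h : a = y
      · subst h
        simp
      · rw [if_neg (by simpa using h), if_neg (by simpa using h)]
  calc _ = ∑ r : Fin R, List.count y ((lr P r l).map (P.S r).ℓ) := by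
        exact Finset.sum_congr rfl fun r _ => h5 _ _ _
    _ = List.count y (l.filterMap (ltC P)) := by
        refine Eq.trans ?_ (h2.trans ?_)
        · exact Finset.sum_congr rfl fun r _ => h5 _ _ _
        · exact h5 _ _ _
    _ ≤ 1 := h4

end chain

end Pool.Agent.H66.SLC
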