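import Pool.Agent.H66.SLC.Mass
import Pool.Agent.H66.SLP.Net

/-!
# Expected overlap
-/

set_option autoImplicit false

open Finset

namespace Pool.Agent.H66.SLC

open Pool.Agent.H66.SLP Pool.Agent.H90.SPW

theorem telescope (D c' c : ℕ) (h1 : c' ≤ c) (h2 : c < D) (G : ℕ → ℝ) :
    G (c + 1) - G c' = ∑ b ∈ range D, if c' ≤ b ∧ b ≤ c then G (b + 1) - G b else 0 := by
  rw [← Finset.sum_filter]
  have h3 : ((range D).filter fun b => c' ≤ b ∧ b ≤ c) = Ico c' (c + 1) := by
    ext b
    rw [Finset.mem_filter, mem_Ico, mem_range]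
    omega
  rw [h3, Finset.sum_Ico_eq_sub _ (by omega : c' ≤ c + 1), Finset.sum_range_sub,
    Finset.sum_range_sub]
  ring

theorem cross_scale (a D b : ℕ) : ∑ c ∈ range D, ∑ c' ∈ range D,
    (if c / 2 ^ a = c' / 2 ^ a + 1 ∧ c' ≤ b ∧ b ≤ c then (1 : ℝ) else 0) ≤ 2 * 4 ^ a := by
  have key : ∀ β β' : ℕ, ∑ c ∈ range D, ∑ c' ∈ range D,
      ((if c / 2 ^ a = β then (1 : ℝ) else 0) * if c' / 2 ^ a = β' then (1 : ℝ) else 0) ≤
        4 ^ a := by
    intro β β'
    have h1 : ∀ c ∈ range D, ∑ c' ∈ range D,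
      ((if c / 2 ^ a = β then (1 : ℝ) else 0) * if c' / 2 ^ a = β' then (1 : ℝ) else 0) =
      (if c / 2 ^ a = β then (1 : ℝ) else 0) *
        ∑ c' ∈ range D, if c' / 2 ^ a = β' then (1 : ℝ) else 0 := fun c _ => by
      rw [Finset.mul_sum]
    rw [Finset.sum_congr rfl h1, ← Finset.sum_mul, ← Finset.sum_filter, ← Finset.sum_filter,
      Finset.sum_const, Finset.sum_const, nsmul_eq_mul, nsmul_eq_mul, mul_one, mul_one]
    have h2 := card_block (2 ^ a) β D (by positivity)
    have h3 := card_block (2 ^ a) β' D (by positivity)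
    have h4 : ((range D).filter fun c => c / 2 ^ a = β).card *
        ((range D).filter fun c => c / 2 ^ a = β').card ≤ 4 ^ a := by
      calc _ ≤ 2 ^ a * 2 ^ a := Nat.mul_le_mul h2 h3
        _ = 4 ^ a := by
          rw [← mul_pow]
          norm_num
    exact_mod_cast h4
  calc _ ≤ ∑ c ∈ range D, ∑ c' ∈ range D,
      (((if c / 2 ^ a = b / 2 ^ a then (1 : ℝ) else 0) *
        if c' / 2 ^ a = b / 2 ^ a - 1 then (1 : ℝ) else 0) +
      ((if c / 2 ^ a = b / 2 ^ a + 1 then (1 : ℝ) else 0) *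
        if c' / 2 ^ a = b / 2 ^ a then (1 : ℝ) else 0)) := by
        refine Finset.sum_le_sum fun c _ => Finset.sum_le_sum fun c' _ => ?_
        by_cases h : c / 2 ^ a = c' / 2 ^ a + 1 ∧ c' ≤ b ∧ b ≤ c
        · rw [if_pos h]
          obtain ⟨h1, h2, h3⟩ := h
          have h4 := Nat.div_le_div_right (c := 2 ^ a) h2
          have h5 := Nat.div_le_div_right (c := 2 ^ a) h3
          have h6 : (c / 2 ^ a = b / 2 ^ a ∧ c' / 2 ^ a = b / 2 ^ a - 1) ∨
              (c / 2 ^ a = b / 2 ^ a + 1 ∧ c' / 2 ^ a = b / 2 ^ a) := by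
            clear h2 h3 key
            generalize c / 2 ^ a = x at h1 h4 h5 ⊢
            generalize c' / 2 ^ a = y at h1 h4 h5 ⊢
            generalize b / 2 ^ a = z at h1 h4 h5 ⊢
            omega
          have hn : ∀ p q : Prop, ∀ [Decidable p] [Decidable q],
              (0 : ℝ) ≤ (if p then (1 : ℝ) else 0) * if q then (1 : ℝ) else 0 := by
            intro p q _ _
            positivity
          rcases h6 with ⟨h6, h7⟩ | ⟨h6, h7⟩
          · rw [if_pos h6, if_pos h7, one_mul]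
            exact le_add_of_nonneg_right (hn _ _)
          · refine le_trans ?_ (le_add_of_nonneg_left (hn _ _))
            rw [if_pos h6, if_pos h7, one_mul]
        · rw [if_neg h]
          positivity
    _ = (∑ c ∈ range D, ∑ c' ∈ range D,
      ((if c / 2 ^ a = b / 2 ^ a then (1 : ℝ) else 0) *
        if c' / 2 ^ a = b / 2 ^ a - 1 then (1 : ℝ) else 0)) +
      ∑ c ∈ range D, ∑ c' ∈ range D,
      ((if c / 2 ^ a = b / 2 ^ a + 1 then (1 : ℝ) else 0) *
        if c' / 2 ^ a = b / 2 ^ a then (1 : ℝ) else 0) := by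
        rw [← Finset.sum_add_distrib]
        refine Finset.sum_congr rfl fun c _ => ?_
        rw [← Finset.sum_add_distrib]
    _ ≤ 4 ^ a + 4 ^ a := add_le_add (key _ _) (key _ _)
    _ = 2 * 4 ^ a := by ring

/-- the weight of the pairs of cells on both sides of a cell -/
theorem cross_theta (A D b : ℕ) : ∑ c ∈ range D, ∑ c' ∈ range D,
    (if c' ≤ b ∧ b ≤ c then theta A c c' else 0) ≤ (A : ℝ) + 1 := by
  have h1 : ∀ c ∈ range D, ∑ c' ∈ range D, (if c' ≤ b ∧ b ≤ c then theta A c c' else 0) =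
      ∑ a ∈ range (A + 1), ∑ c' ∈ range D,
        ((1 / 2 : ℝ) ^ (a + 1) * (1 / 2) ^ a) *
        (if c / 2 ^ a = c' / 2 ^ a + 1 ∧ c' ≤ b ∧ b ≤ c then (1 : ℝ) else 0) := by
    intro c _
    rw [Finset.sum_comm]
    refine Finset.sum_congr rfl fun c' _ => ?_
    unfold theta
    by_cases h : c' ≤ b ∧ b ≤ c
    · rw [if_pos h]
      refine Finset.sum_congr rfl fun a _ => ?_
      by_cases h2 : c / 2 ^ a = c' / 2 ^ a + 1
      · rw [if_pos h2, if_pos ⟨h2, h⟩, mul_one]
      · rw [if_neg h2, if_neg fun h3 => h2 h3.1, mul_zero]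
    · rw [if_neg h]
      symm
      refine Finset.sum_eq_zero fun a _ => ?_
      rw [if_neg fun h3 => h h3.2, mul_zero]
  rw [Finset.sum_congr rfl h1, Finset.sum_comm]
  calc _ = ∑ a ∈ range (A + 1), ((1 / 2 : ℝ) ^ (a + 1) * (1 / 2) ^ a) *
        ∑ c ∈ range D, ∑ c' ∈ range D,
          (if c / 2 ^ a = c' / 2 ^ a + 1 ∧ c' ≤ b ∧ b ≤ c then (1 : ℝ) else 0) := by
        refine Finset.sum_congr rfl fun a _ => ?_
        rw [Finset.mul_sum]
        exact Finset.sum_congr rfl fun c _ => (Finset.mul_sum _ _ _).symm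
    _ ≤ ∑ a ∈ range (A + 1), (1 : ℝ) := by
        refine Finset.sum_le_sum fun a _ => ?_
        calc _ ≤ ((1 / 2 : ℝ) ^ (a + 1) * (1 / 2) ^ a) * (2 * 4 ^ a) :=
              mul_le_mul_of_nonneg_left (cross_scale a D b) (by positivity)
          _ = 1 := by
              rw [pow_succ]
              have : ((1 / 2 : ℝ) ^ a * (1 / 2) * (1 / 2) ^ a) * (2 * 4 ^ a) =
                  (1 / 2) ^ a * (1 / 2) ^ a * 4 ^ a := by ring
              rw [this, ← mul_pow, ← mul_pow]
              norm_num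
    _ = (A : ℝ) + 1 := by
        rw [Finset.sum_const, card_range, nsmul_eq_mul, mul_one]
        push_cast
        ring

/-- the kernel moves a monotone function by little -/
theorem theta_var (A D : ℕ) (G : ℕ → ℝ) (hG : Monotone G) :
    ∑ c ∈ range D, ∑ c' ∈ range D, theta A c c' * (G (c + 1) - G c') ≤
      ((A : ℝ) + 1) * (G D - G 0) := by
  have h1 : ∀ c ∈ range D, ∀ c' ∈ range D, theta A c c' * (G (c + 1) - G c') =
      ∑ b ∈ range D, (G (b + 1) - G b) * (if c' ≤ b ∧ b ≤ c then theta A c c' else 0) := by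
    intro c hc c' _
    by_cases h : theta A c c' = 0
    · rw [h, zero_mul]
      symm
      refine Finset.sum_eq_zero fun b _ => ?_
      rw [ite_self, mul_zero]
    · rw [telescope D c' c (theta_lt h).le (mem_range.1 hc), Finset.mul_sum]
      refine Finset.sum_congr rfl fun b _ => ?_
      split_ifs
      · ring
      · rw [mul_zero, mul_zero]
  have h2 : ∑ c ∈ range D, ∑ c' ∈ range D, theta A c c' * (G (c + 1) - G c') =
      ∑ b ∈ range D, (G (b + 1) - G b) * ∑ c ∈ range D, ∑ c' ∈ range D,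
        (if c' ≤ b ∧ b ≤ c then theta A c c' else 0) := by
    have h3 : ∀ c ∈ range D, ∑ c' ∈ range D, theta A c c' * (G (c + 1) - G c') =
        ∑ b ∈ range D, ∑ c' ∈ range D, (G (b + 1) - G b) *
          (if c' ≤ b ∧ b ≤ c then theta A c c' else 0) := by
      intro c hc
      rw [Finset.sum_comm]
      exact Finset.sum_congr rfl fun c' hc' => h1 c hc c' hc'
    rw [Finset.sum_congr rfl h3, Finset.sum_comm]
    refine Finset.sum_congr rfl fun b _ => ?_
    rw [Finset.mul_sum]
    exact Finset.sum_congr rfl fun c _ => (Finset.mul_sum _ _ _).symm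
  rw [h2]
  calc _ ≤ ∑ b ∈ range D, (G (b + 1) - G b) * ((A : ℝ) + 1) := by
        refine Finset.sum_le_sum fun b _ => ?_
        refine mul_le_mul_of_nonneg_left (cross_theta A D b) ?_
        exact sub_nonneg.2 (hG (Nat.le_succ b))
    _ = ((A : ℝ) + 1) * (G D - G 0) := by
        rw [← Finset.sum_mul, Finset.sum_range_sub, mul_comm]

section chain

open scoped Classical

variable {R : ℕ} {Y : Type} (P : Par R Y)

/-- the coordinate at the offset `x` of the class `t` -/
noncomputable def gg (r : Fin R) (t x : ℕ) : ℝ :=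
  (P.S r).τ (min ((P.S r).fst t + x) ((P.S r).fst (t + 1)))

theorem gg_mono (r : Fin R) (t : ℕ) : Monotone (gg P r t) := by
  intro x y h
  unfold gg
  exact (P.S r).mono (min_le_min (by omega) le_rfl)

/-- upper bound for the overlap before a ride -/
noncomputable def gap (r : Fin R) (c : ℕ) (j : ℕ) : ℝ :=
  gg P r ((P.S r).cls j) ((c + 1) * P.K r) -
    gg P r ((P.S r).cls j) ((P.S r).off j / P.K r * P.K r)

/-- the cost of an edge -/
noncomputable def ff : Ed P → ℝ
  | Sum.inl ⟨r, u, j⟩ => max (gap P r (u.1 % P.D r) j.1) 0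
  | Sum.inr _ => 0

theorem ff_nonneg (e : Ed P) : 0 ≤ ff P e := by
  rcases e with ⟨r, u, j⟩ | e
  · exact le_max_right _ _
  · exact le_rfl

theorem gap_nonneg (r : Fin R) (c : ℕ) (j : ℕ) (h : (P.S r).off j / P.K r ≤ c) :
    0 ≤ gap P r c j := by
  unfold gap
  refine sub_nonneg.2 (gg_mono P r _ ?_)
  exact Nat.mul_le_mul_right _ (by omega)

theorem om_ff (r : Fin R) (u : Fin (2 ^ P.B)) (j : Fin (P.S r).F) :
    om P r u.1 j * ff P (Sum.inl ⟨r, u, j⟩) =
      theta (P.A r) (u.1 % P.D r) ((P.S r).off j.1 / P.K r) / P.K r *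
        gap P r (u.1 % P.D r) j.1 := by
  unfold om
  by_cases h : theta (P.A r) (u.1 % P.D r) ((P.S r).off j.1 / P.K r) = 0
  · rw [h, zero_div, zero_mul, zero_mul]
  · have h1 := gap_nonneg P r (u.1 % P.D r) j.1 (theta_lt h).le
    show _ * max (gap P r (u.1 % P.D r) j.1) 0 = _
    rw [max_eq_left h1]

theorem gap_class (r : Fin R) (t : ℕ) :
    ∑ c ∈ range (P.D r), ∑ j : Fin (P.S r).F, (if (P.S r).cls j.1 = t then
      theta (P.A r) c ((P.S r).off j.1 / P.K r) / P.K r * gap P r c j.1 else 0) ≤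
    ((P.A r : ℝ) + 1) * ((P.S r).τ ((P.S r).fst (t + 1)) - (P.S r).τ ((P.S r).fst t)) := by
  have hK : (0 : ℝ) < P.K r := by exact_mod_cast P.hK r
  have h1 : ∀ c ∈ range (P.D r), ∑ j : Fin (P.S r).F, (if (P.S r).cls j.1 = t then
      theta (P.A r) c ((P.S r).off j.1 / P.K r) / P.K r * gap P r c j.1 else 0) ≤
      ∑ c' ∈ range (P.D r), theta (P.A r) c c' *
        (gg P r t ((c + 1) * P.K r) - gg P r t (c' * P.K r)) := by
    intro c _
    have h2 := sum_starts P r t (fun c' => gg P r t ((c + 1) * P.K r) -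
      gg P r t (c' * P.K r)) c
    have h3 : ∑ j : Fin (P.S r).F, (if (P.S r).cls j.1 = t then
        theta (P.A r) c ((P.S r).off j.1 / P.K r) / P.K r * gap P r c j.1 else 0) =
        ∑ j : Fin (P.S r).F, (if (P.S r).cls j.1 = t then
        theta (P.A r) c ((P.S r).off j.1 / P.K r) / P.K r *
          (gg P r t ((c + 1) * P.K r) - gg P r t ((P.S r).off j.1 / P.K r * P.K r))
            else 0) := by
      refine Finset.sum_congr rfl fun j _ => ?_
      by_cases hj : (P.S r).cls j.1 = t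
      · rw [if_pos hj, if_pos hj]
        unfold gap
        rw [hj]
      · rw [if_neg hj, if_neg hj]
    rw [h3, h2]
    refine Finset.sum_le_sum fun c' _ => ?_
    by_cases h4 : theta (P.A r) c c' = 0
    · rw [h4, zero_mul, zero_mul]
    · refine mul_le_of_le_one_right (mul_nonneg (theta_nonneg _ _ _) ?_) ?_
      · refine sub_nonneg.2 (gg_mono P r _ ?_)
        have := theta_lt h4
        exact Nat.mul_le_mul_right _ (by omega)
      · rw [div_le_one hK]
        exact_mod_cast (P.S r).card_start (P.K r) (P.hK r) t c'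
  refine (Finset.sum_le_sum h1).trans ?_
  have hG : Monotone fun x => gg P r t (x * P.K r) := fun x y h =>
    gg_mono P r t (Nat.mul_le_mul_right _ h)
  refine (theta_var (P.A r) (P.D r) (fun x => gg P r t (x * P.K r)) hG).trans ?_
  refine mul_le_mul_of_nonneg_left ?_ (by positivity)
  have h5 : gg P r t (P.D r * P.K r) ≤ (P.S r).τ ((P.S r).fst (t + 1)) := by
    unfold gg
    exact (P.S r).mono (min_le_right _ _)
  have h6 : gg P r t (0 * P.K r) = (P.S r).τ ((P.S r).fst t) := by
    unfold gg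
    rw [zero_mul, add_zero, min_eq_left ((P.S r).fst_mono (Nat.le_succ t))]
  show gg P r t (P.D r * P.K r) - gg P r t (0 * P.K r) ≤ _
  rw [h6]
  linarith

theorem gap_seg (r : Fin R) :
    ∑ c ∈ range (P.D r), ∑ j : Fin (P.S r).F,
      theta (P.A r) c ((P.S r).off j.1 / P.K r) / P.K r * gap P r c j.1 ≤
    ((P.A r : ℝ) + 1) * (P.S r).W := by
  have h1 : ∀ c ∈ range (P.D r), ∑ j : Fin (P.S r).F,
      theta (P.A r) c ((P.S r).off j.1 / P.K r) / P.K r * gap P r c j.1 =
      ∑ t ∈ range (P.S r).tp, ∑ j : Fin (P.S r).F, (if (P.S r).cls j.1 = t then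
        theta (P.A r) c ((P.S r).off j.1 / P.K r) / P.K r * gap P r c j.1 else 0) := by
    intro c _
    rw [Finset.sum_comm]
    refine Finset.sum_congr rfl fun j _ => ?_
    rw [Finset.sum_ite_eq (range (P.S r).tp) ((P.S r).cls j.1),
      if_pos (mem_range.2 ((P.S r).cls_lt j.2))]
  rw [Finset.sum_congr rfl h1, Finset.sum_comm]
  refine (Finset.sum_le_sum fun t _ => gap_class P r t).trans ?_
  rw [← Finset.mul_sum, Finset.sum_range_sub fun t => (P.S r).τ ((P.S r).fst t)]
  refine mul_le_mul_of_nonneg_left ?_ (by positivity)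
  rw [(P.S r).fst_top, (P.S r).top _ le_rfl, (P.S r).fst_zero,
    (P.S r).zero 0 (P.S r).Q_pos, sub_zero]

/-- the expected overlap -/
theorem exf_le (n : ℕ) : exf (chn P) (sC P) n (ff P) ≤
    ∑ r, ((P.A r : ℝ) + 1) * (P.S r).W / 2 ^ P.A r := by
  have h0 : exf (chn P) (sC P) n (ff P) =
      ∑ e, vis (chn P) (sC P) n (srcC P e) * wtC P e * ff P e :=
    exf_vis (chn P) (sC P) n (ff P)
  rw [h0]
  calc _ ≤ ∑ e, 1 / 2 ^ P.B * (wtC P e * ff P e) := by
        refine Finset.sum_le_sum fun e _ => ?_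
        rw [mul_assoc]
        exact mul_le_mul_of_nonneg_right (vis_chn_le P n _)
          (mul_nonneg (wtC_nonneg P e) (ff_nonneg P e))
    _ = ∑ r, ∑ u, ∑ j, 1 / 2 ^ P.B * (om P r u.1 j * ff P (Sum.inl ⟨r, u, j⟩)) := by
        rw [sum_edges]
        have h1 : ∑ r, ∑ u, 1 / 2 ^ P.B * (wtC P (Sum.inr (Sum.inl (r, u))) *
            ff P (Sum.inr (Sum.inl (r, u)))) = 0 := by
          refine Finset.sum_eq_zero fun r _ => Finset.sum_eq_zero fun u _ => ?_
          simp only [ff, mul_zero]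
        have h2 : ∑ t, ∑ u, 1 / 2 ^ P.B * (wtC P (Sum.inr (Sum.inr (t, u))) *
            ff P (Sum.inr (Sum.inr (t, u)))) = 0 := by
          refine Finset.sum_eq_zero fun r _ => Finset.sum_eq_zero fun u _ => ?_
          simp only [ff, mul_zero]
        rw [h1, h2, add_zero, add_zero]
        rfl
    _ ≤ _ := by
        refine Finset.sum_le_sum fun r _ => ?_
        have h3 : ∑ u : Fin (2 ^ P.B), ∑ j, 1 / 2 ^ P.B *
            (om P r u.1 j * ff P (Sum.inl ⟨r, u, j⟩)) =
            1 / 2 ^ P.B * ∑ u : Fin (2 ^ P.B), ∑ j : Fin (P.S r).F,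
              theta (P.A r) (u.1 % 2 ^ P.A r) ((P.S r).off j.1 / P.K r) / P.K r *
                gap P r (u.1 % 2 ^ P.A r) j.1 := by
          rw [Finset.mul_sum]
          refine Finset.sum_congr rfl fun u _ => ?_
          rw [Finset.mul_sum]
          refine Finset.sum_congr rfl fun j _ => ?_
          rw [om_ff]
          rfl
        rw [h3, sum_cols (P.hA r) (fun v => ∑ j : Fin (P.S r).F,
              theta (P.A r) v ((P.S r).off j.1 / P.K r) / P.K r * gap P r v j.1)]
        have h4 := gap_seg P r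
        calc _ ≤ 1 / 2 ^ P.A r * (((P.A r : ℝ) + 1) * (P.S r).W) :=
              mul_le_mul_of_nonneg_left h4 (by positivity)
          _ = _ := by ring

end chain

end Pool.Agent.H66.SLC
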