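import Mathlib

/-!
# The Green function of a layered doubly stochastic chain with mixing
-/

set_option autoImplicit false

open Finset

namespace Pool.Agent.H66.SLC

section green

variable {J : Type} [Fintype J] [DecidableEq J] (D K A : ℕ) (p q cp cq : J → ℕ)
  (Θ : ℕ → ℕ → ℝ) (i : J) (h : ℕ → ℕ → ℝ)

/-- the value after the ride `j` -/
def rv (j : J) : ℝ := (if j = i then 1 else 0) + h (q j) (cq j)

/-- the mean value over the rides from one cell -/
noncomputable def fc (t c' : ℕ) : ℝ :=
  (1 / (K : ℝ)) * ∑ j, if p j = t ∧ cp j = c' then rv q cq i h j else 0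

/-- the rides over a cut -/
def sg (t : ℕ) : ℝ := ∑ j, if p j ≤ t ∧ t < q j then rv q cq i h j else 0

variable (hK : 1 ≤ K) (hpq : ∀ j, p j < q j ∧ q j ≤ p j + 5) (hcp : ∀ j, cp j < D)
  (hcq : ∀ j, cq j < D) (hKp : ∀ t c, (univ.filter fun j => p j = t ∧ cp j = c).card ≤ K)
  (hKq : ∀ t c, (univ.filter fun j => q j = t ∧ cq j = c).card ≤ K)
  (hΘ : ∀ c c', 0 ≤ Θ c c') (hcol : ∀ c', ∑ c ∈ range D, Θ c c' ≤ 1)
  (hmix : ∀ b ≤ A, ∀ c < D, ∀ (f : ℕ → ℝ) (m : ℝ), (∀ c' < D, 0 ≤ f c' ∧ f c' ≤ m) → 0 ≤ m →
    ∑ c' ∈ range D, Θ c c' * f c' ≤ (1 - (1 / 2) ^ b) * m + (1 / 4) ^ b * ∑ c' ∈ range D, f c')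
  (h0 : ∀ t c, 0 ≤ h t c) (hz : ∀ t c, p i < t → h t c = 0)
  (hs : ∀ t c, c < D → h t c ≤ ∑ j, if p j = t then Θ c (cp j) / K * rv q cq i h j else 0)

include h0 in
theorem rv_nonneg (j : J) : 0 ≤ rv q cq i h j := by
  unfold rv
  have := h0 (q j) (cq j)
  split_ifs <;> linarith

include hcp hs in
theorem green1 (t c : ℕ) (hc : c < D) :
    h t c ≤ ∑ c' ∈ range D, Θ c c' * fc K p q cp cq i h t c' := by
  refine (hs t c hc).trans (le_of_eq ?_)
  unfold fc
  simp_rw [Finset.mul_sum]
  rw [Finset.sum_comm]
  refine Finset.sum_congr rfl fun j _ => ?_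
  by_cases hj : p j = t
  · rw [if_pos hj, Finset.sum_eq_single (cp j)]
    · rw [if_pos ⟨hj, rfl⟩]
      ring
    · intro c' _ hc'
      rw [if_neg fun h => hc' h.2.symm]
      ring
    · intro h
      exact absurd (mem_range.2 (hcp j)) h
  · rw [if_neg hj]
    symm
    refine Finset.sum_eq_zero fun c' _ => ?_
    rw [if_neg fun h => hj h.1]
    ring

include hK hpq hcq hKq hcol h0 hz hs in
theorem green2 : ∀ d t : ℕ, t + d = p i → sg p q cq i h t ≤ 1 := by
  intro d
  induction d with
  | zero =>
    intro t ht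
    have ht : t = p i := by omega
    subst ht
    unfold sg
    calc _ ≤ ∑ j, (if j = i then (1 : ℝ) else 0) := by
          refine Finset.sum_le_sum fun j _ => ?_
          by_cases hj : p j ≤ p i ∧ p i < q j
          · rw [if_pos hj]
            unfold rv
            rw [hz _ _ hj.2, add_zero]
          · rw [if_neg hj]
            split_ifs <;> norm_num
      _ = 1 := by simp
  | succ d ih =>
    intro t ht
    have h1 := ih (t + 1) (by omega)
    refine le_trans ?_ h1
    have h2 : sg p q cq i h t = (∑ j, if p j ≤ t ∧ t + 1 < q j then rv q cq i h j else 0) +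
        ∑ j, if q j = t + 1 then rv q cq i h j else 0 := by
      unfold sg
      rw [← Finset.sum_add_distrib]
      refine Finset.sum_congr rfl fun j _ => ?_
      have := hpq j
      by_cases a1 : p j ≤ t ∧ t < q j
      · by_cases a2 : q j = t + 1
        · rw [if_pos a1, if_neg (by omega), if_pos a2, zero_add]
        · rw [if_pos a1, if_pos (by omega), if_neg a2, add_zero]
      · rw [if_neg a1, if_neg (by omega), if_neg (by omega), add_zero]
    have h3 : sg p q cq i h (t + 1) = (∑ j, if p j ≤ t ∧ t + 1 < q j then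
        rv q cq i h j else 0) + ∑ j, if p j = t + 1 then rv q cq i h j else 0 := by
      unfold sg
      rw [← Finset.sum_add_distrib]
      refine Finset.sum_congr rfl fun j _ => ?_
      have := hpq j
      by_cases a1 : p j ≤ t + 1 ∧ t + 1 < q j
      · by_cases a2 : p j = t + 1
        · rw [if_pos a1, if_neg (by omega), if_pos a2, zero_add]
        · rw [if_pos a1, if_pos (by omega), if_neg a2, add_zero]
      · rw [if_neg a1, if_neg (by omega), if_neg (by omega), add_zero]
    rw [h2, h3]
    refine add_le_add le_rfl ?_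
    have hKR : (0 : ℝ) < K := by exact_mod_cast hK
    calc ∑ j, (if q j = t + 1 then rv q cq i h j else 0)
        = ∑ j, (if q j = t + 1 then h (t + 1) (cq j) else 0) := by
          refine Finset.sum_congr rfl fun j _ => ?_
          by_cases hj : q j = t + 1
          · rw [if_pos hj, if_pos hj]
            unfold rv
            have hji : j ≠ i := by
              rintro rfl
              have := (hpq j).1
              omega
            rw [if_neg hji, zero_add, hj]
          · rw [if_neg hj, if_neg hj]
      _ = ∑ c ∈ range D, ∑ j, (if q j = t + 1 ∧ cq j = c then h (t + 1) c else 0) := by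
          rw [Finset.sum_comm]
          refine Finset.sum_congr rfl fun j _ => ?_
          by_cases hj : q j = t + 1
          · rw [if_pos hj, Finset.sum_eq_single (cq j)]
            · rw [if_pos ⟨hj, rfl⟩]
            · intro c _ hc
              rw [if_neg fun h => hc h.2.symm]
            · intro h
              exact absurd (mem_range.2 (hcq j)) h
          · rw [if_neg hj]
            symm
            refine Finset.sum_eq_zero fun c _ => ?_
            rw [if_neg fun h => hj h.1]
      _ ≤ ∑ c ∈ range D, (K : ℝ) * h (t + 1) c := by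
          refine Finset.sum_le_sum fun c _ => ?_
          rw [← Finset.sum_filter, Finset.sum_const, nsmul_eq_mul]
          refine mul_le_mul_of_nonneg_right ?_ (h0 _ _)
          exact_mod_cast hKq (t + 1) c
      _ ≤ ∑ c ∈ range D, (K : ℝ) * ∑ j, (if p j = t + 1 then
            Θ c (cp j) / K * rv q cq i h j else 0) := by
          refine Finset.sum_le_sum fun c hc => ?_
          exact mul_le_mul_of_nonneg_left (hs _ _ (mem_range.1 hc)) hKR.le
      _ = ∑ j, (if p j = t + 1 then (∑ c ∈ range D, Θ c (cp j)) * rv q cq i h j else 0) := by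
          simp_rw [Finset.mul_sum]
          rw [Finset.sum_comm]
          refine Finset.sum_congr rfl fun j _ => ?_
          by_cases hj : p j = t + 1
          · simp only [if_pos hj]
            rw [Finset.sum_mul]
            refine Finset.sum_congr rfl fun c _ => ?_
            field_simp
          · simp only [if_neg hj, mul_zero, Finset.sum_const_zero]
      _ ≤ ∑ j, (if p j = t + 1 then rv q cq i h j else 0) := by
          refine Finset.sum_le_sum fun j _ => ?_
          by_cases hj : p j = t + 1
          · rw [if_pos hj, if_pos hj]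
            exact mul_le_of_le_one_left (rv_nonneg q cq i h h0 j) (hcol _)
          · rw [if_neg hj, if_neg hj]

include hK hpq hcp hcq hKq hcol h0 hz hs in
theorem green3 (t : ℕ) (ht : t ≤ p i) :
    ∑ c' ∈ range D, fc K p q cp cq i h t c' ≤ 1 / K := by
  have hKR : (0 : ℝ) < K := by exact_mod_cast hK
  have h1 : ∑ c' ∈ range D, fc K p q cp cq i h t c' =
      1 / K * ∑ j, if p j = t then rv q cq i h j else 0 := by
    unfold fc
    rw [← Finset.mul_sum, Finset.sum_comm]
    congr 1
    refine Finset.sum_congr rfl fun j _ => ?_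
    by_cases hj : p j = t
    · rw [if_pos hj, Finset.sum_eq_single (cp j)]
      · rw [if_pos ⟨hj, rfl⟩]
      · intro c' _ hc'
        rw [if_neg fun h => hc' h.2.symm]
      · intro h
        exact absurd (mem_range.2 (hcp j)) h
    · rw [if_neg hj]
      refine Finset.sum_eq_zero fun c' _ => ?_
      rw [if_neg fun h => hj h.1]
  have h2 := green2 D K p q cp cq Θ i h hK hpq hcq hKq hcol h0 hz hs (p i - t) t (by omega)
  have h3 : ∑ j, (if p j = t then rv q cq i h j else 0) ≤ sg p q cq i h t := by
    unfold sg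
    refine Finset.sum_le_sum fun j _ => ?_
    have := (hpq j).1
    have h4 := rv_nonneg q cq i h h0 j
    by_cases hj : p j = t
    · rw [if_pos hj, if_pos ⟨hj.le, by omega⟩]
    · rw [if_neg hj]
      split_ifs
      · exact h4
      · exact le_rfl
  rw [h1]
  calc 1 / (K : ℝ) * ∑ j, (if p j = t then rv q cq i h j else 0) ≤ 1 / K * 1 :=
        mul_le_mul_of_nonneg_left (h3.trans h2) (by positivity)
    _ = 1 / K := mul_one _

include h0 in
theorem fc_nonneg (t c' : ℕ) : 0 ≤ fc K p q cp cq i h t c' := by
  unfold fc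
  refine mul_nonneg (by positivity) (Finset.sum_nonneg fun j _ => ?_)
  split_ifs
  · exact rv_nonneg q cq i h h0 j
  · exact le_rfl

include hK hKp in
theorem fc_le (t c' : ℕ) (m : ℝ) (hm : 0 ≤ m) (hj : ∀ j, p j = t → rv q cq i h j ≤ m) :
    fc K p q cp cq i h t c' ≤ m := by
  have hKR : (0 : ℝ) < K := by exact_mod_cast hK
  unfold fc
  rw [← Finset.sum_filter]
  calc 1 / (K : ℝ) * ∑ j ∈ univ.filter (fun j => p j = t ∧ cp j = c'), rv q cq i h j
      ≤ 1 / K * ∑ j ∈ univ.filter (fun j => p j = t ∧ cp j = c'), m := by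
        refine mul_le_mul_of_nonneg_left (Finset.sum_le_sum fun j hjm => ?_) (by positivity)
        exact hj j (Finset.mem_filter.1 hjm).2.1
    _ ≤ 1 / K * (K * m) := by
        refine mul_le_mul_of_nonneg_left ?_ (by positivity)
        rw [Finset.sum_const, nsmul_eq_mul]
        refine mul_le_mul_of_nonneg_right ?_ hm
        exact_mod_cast hKp t c'
    _ = m := by field_simp

include hK hpq hcp hcq hKq hcol hmix h0 hz hs in
theorem green4 (t c : ℕ) (ht : t ≤ p i) (hc : c < D) : h t c ≤ 1 / K := by
  have h1 := green1 D K p q cp cq Θ i h hcp hs t c hc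
  have h3 := green3 D K p q cp cq Θ i h hK hpq hcp hcq hKq hcol h0 hz hs t ht
  have hn := fc_nonneg K p q cp cq i h h0 t
  have h4 := hmix 0 (Nat.zero_le A) c hc (fc K p q cp cq i h t)
    (∑ c' ∈ range D, fc K p q cp cq i h t c') (fun c' hc' => ⟨hn c',
      Finset.single_le_sum (fun c'' _ => hn c'') (mem_range.2 hc')⟩)
    (Finset.sum_nonneg fun c' _ => hn c')
  rw [pow_zero, pow_zero, sub_self, zero_mul, zero_add, one_mul] at h4
  linarith

include hK hpq hcp hcq hKp hKq hcol hmix h0 hz hs in
theorem green (hA : p i < 2 ^ A) : ∀ d t c : ℕ, t + d = p i → c < D →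
    h t c ≤ 40 / (K * (d + 1)) := by
  have hKR : (0 : ℝ) < K := by exact_mod_cast hK
  intro d
  induction d using Nat.strong_induction_on with
  | _ d ih =>
    intro t c ht hc
    by_cases hd : d ≤ 39
    · refine (green4 D K A p q cp cq Θ i h hK hpq hcp hcq hKq hcol hmix h0 hz hs t c
        (by omega) hc).trans ?_
      rw [div_le_div_iff₀ hKR (by positivity)]
      have : (d : ℝ) ≤ 39 := by exact_mod_cast hd
      nlinarith
    · have hd4 : (0 : ℝ) < (d : ℝ) - 4 := by
        have : (40 : ℝ) ≤ d := by exact_mod_cast (by omega : 40 ≤ d)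
        linarith
      have hd40 : (40 : ℝ) ≤ d := by exact_mod_cast (by omega : 40 ≤ d)
      have hr : ∀ j, p j = t → rv q cq i h j ≤ 40 / (K * ((d : ℝ) - 4)) := by
        intro j hj
        unfold rv
        have hji : j ≠ i := by
          rintro rfl
          omega
        rw [if_neg hji, zero_add]
        by_cases hq : p i < q j
        · rw [hz _ _ hq]
          positivity
        · have h5 := hpq j
          refine (ih (p i - q j) (by omega) (q j) (cq j) (by omega) (hcq j)).trans ?_
          refine div_le_div_of_nonneg_left (by norm_num) (by positivity) ?_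
          refine mul_le_mul_of_nonneg_left ?_ hKR.le
          have : (d : ℝ) - 4 ≤ ((p i - q j : ℕ) : ℝ) + 1 := by
            have h6 : d ≤ (p i - q j) + 5 := by omega
            have h7 : (d : ℝ) ≤ ((p i - q j : ℕ) : ℝ) + 5 := by exact_mod_cast h6
            linarith
          exact this
      have hm0 : (0 : ℝ) ≤ 40 / (K * ((d : ℝ) - 4)) := by positivity
      have h1 := green1 D K p q cp cq Θ i h hcp hs t c hc
      have h3 := green3 D K p q cp cq Θ i h hK hpq hcp hcq hKq hcol h0 hz hs t (by omega)
      obtain ⟨b, hb⟩ : ∃ b, b = Nat.log 2 ((d + 1) / 10) := ⟨_, rfl⟩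
      have hb1 : 2 ^ b ≤ (d + 1) / 10 := by
        rw [hb]
        exact Nat.pow_log_le_self 2 (by omega)
      have hb2 : (d + 1) / 10 < 2 ^ (b + 1) := by
        rw [hb]
        exact Nat.lt_pow_succ_log_self (by norm_num) _
      have hbA : b ≤ A := by
        by_contra h6
        have : 2 ^ A ≤ 2 ^ b := Nat.pow_le_pow_right (by norm_num) (by omega)
        omega
      have h4 := hmix b hbA c hc (fc K p q cp cq i h t) _ (fun c' _ =>
        ⟨fc_nonneg K p q cp cq i h h0 t c',
          fc_le K p q cp cq i h hK hKp t c' _ hm0 hr⟩) hm0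
      have e1 : (10 * 2 ^ b : ℝ) ≤ (d : ℝ) + 1 := by
        have : 10 * 2 ^ b ≤ d + 1 := by omega
        exact_mod_cast this
      have e2 : (d : ℝ) + 1 ≤ 20 * 2 ^ b := by
        have : d + 1 ≤ 20 * 2 ^ b := by
          rw [pow_succ] at hb2
          omega
        exact_mod_cast this
      have hδ : ((1 : ℝ) / 2) ^ b = 1 / 2 ^ b := by rw [div_pow, one_pow]
      have hδ2 : ((1 : ℝ) / 4) ^ b = (1 / 2 ^ b) * (1 / 2 ^ b) := by
        rw [← hδ, ← mul_pow]
        norm_num
      obtain ⟨x, hx⟩ : ∃ x : ℝ, x = 2 ^ b := ⟨_, rfl⟩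
      have hx0 : 0 < x := by rw [hx]; positivity
      rw [hδ, hδ2, ← hx] at h4
      rw [← hx] at e1 e2
      have h7 : (1 / x) * (1 / x) * ∑ c' ∈ range D, fc K p q cp cq i h t c' ≤
          (1 / x) * (1 / x) * (1 / K) := mul_le_mul_of_nonneg_left h3 (by positivity)
      have h8 : (1 - 1 / x) * (40 / (K * ((d : ℝ) - 4))) + (1 / x) * (1 / x) * (1 / K) ≤
          40 / (K * (d + 1)) := by
        have h9 : 40 / (K * ((d : ℝ) + 1)) - ((1 - 1 / x) * (40 / (K * ((d : ℝ) - 4))) +
            (1 / x) * (1 / x) * (1 / K)) =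
            (40 * x * (d + 1) - 200 * x ^ 2 - ((d : ℝ) - 4) * (d + 1)) /
              (K * ((d : ℝ) - 4) * (d + 1) * x ^ 2) := by
          field_simp
          ring
        have h10 : 0 ≤ 40 * x * (d + 1) - 200 * x ^ 2 - ((d : ℝ) - 4) * (d + 1) := by
          nlinarith
        have h11 : 0 ≤ 40 / (K * ((d : ℝ) + 1)) - ((1 - 1 / x) * (40 / (K * ((d : ℝ) - 4))) +
            (1 / x) * (1 / x) * (1 / K)) := by
          rw [h9]
          exact div_nonneg h10 (by positivity)
        linarith
      linarith

end green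

end Pool.Agent.H66.SLC
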