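import Pool.Agent.H90.SPW.Defs

/-!
# Expected sums over the first edges of a chain
-/

set_option autoImplicit false

open Finset

namespace Pool.Agent.H66.SLC

open Pool.Agent.H90.SPW

section general

open scoped Classical

variable {X E Y : Type} [Fintype X] [Fintype E] (c : Ch X E Y)

/-- expected value of `φ` over the first `n` edges; `φ` contains the weight -/
noncomputable def us (n : ℕ) (φ : E → ℝ) (x : X) : ℝ :=
  ∑ t ∈ range n, ∑ e, c.P t x (c.src e) * φ e

theorem us_succ (n : ℕ) (φ : E → ℝ) (x : X) : us c (n + 1) φ x =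
    ∑ e, if c.src e = x then φ e + c.wt e * us c n φ (c.tgt e) else 0 := by
  unfold us
  rw [Finset.sum_range_succ']
  have h1 : ∑ e, c.P 0 x (c.src e) * φ e = ∑ e, if c.src e = x then φ e else 0 := by
    refine Finset.sum_congr rfl fun e _ => ?_
    rw [c.P_zero]
    by_cases h : c.src e = x
    · rw [if_pos h, if_pos h.symm, one_mul]
    · rw [if_neg h, if_neg fun h' => h h'.symm, zero_mul]
  have h2 : ∑ t ∈ range n, ∑ e, c.P (t + 1) x (c.src e) * φ e =
      ∑ e', if c.src e' = x then c.wt e' * ∑ t ∈ range n, ∑ e,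
        c.P t (c.tgt e') (c.src e) * φ e else 0 := by
    simp_rw [c.P_succ' _ x]
    have h3 : ∀ t ∈ range n, ∑ e, (∑ e', if c.src e' = x then c.wt e' *
        c.P t (c.tgt e') (c.src e) else 0) * φ e =
        ∑ e', if c.src e' = x then c.wt e' * ∑ e, c.P t (c.tgt e') (c.src e) * φ e
          else 0 := by
      intro t _
      simp_rw [Finset.sum_mul]
      rw [Finset.sum_comm]
      refine Finset.sum_congr rfl fun e' _ => ?_
      by_cases h : c.src e' = x
      · simp only [if_pos h, Finset.mul_sum]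
        refine Finset.sum_congr rfl fun e _ => ?_
        ring
      · simp only [if_neg h, zero_mul, Finset.sum_const_zero]
    rw [Finset.sum_congr rfl h3, Finset.sum_comm]
    refine Finset.sum_congr rfl fun e' _ => ?_
    by_cases h : c.src e' = x
    · simp only [if_pos h, Finset.mul_sum]
    · simp only [if_neg h, Finset.sum_const_zero]
  rw [h1, h2, add_comm, ← Finset.sum_add_distrib]
  refine Finset.sum_congr rfl fun e _ => ?_
  split_ifs
  · rfl
  · exact add_zero 0

theorem us_nonneg (n : ℕ) (φ : E → ℝ) (hφ : ∀ e, 0 ≤ φ e) (x : X) : 0 ≤ us c n φ x :=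
  Finset.sum_nonneg fun t _ => Finset.sum_nonneg fun e _ =>
    mul_nonneg (c.P_nonneg t x _) (hφ e)

theorem us_mono (n : ℕ) (φ : E → ℝ) (hφ : ∀ e, 0 ≤ φ e) (x : X) :
    us c n φ x ≤ us c (n + 1) φ x := by
  unfold us
  rw [Finset.sum_range_succ]
  have : 0 ≤ ∑ e, c.P n x (c.src e) * φ e :=
    Finset.sum_nonneg fun e _ => mul_nonneg (c.P_nonneg n x _) (hφ e)
  linarith

theorem us_sub (n : ℕ) (φ : E → ℝ) (hφ : ∀ e, 0 ≤ φ e) (x : X) : us c n φ x ≤
    ∑ e, if c.src e = x then φ e + c.wt e * us c n φ (c.tgt e) else 0 := by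
  rw [← us_succ]
  exact us_mono c n φ hφ x

theorem us_sum {I : Type} (s : Finset I) (n : ℕ) (φ : I → E → ℝ) (x : X) :
    us c n (fun e => ∑ i ∈ s, φ i e) x = ∑ i ∈ s, us c n (φ i) x := by
  unfold us
  simp_rw [Finset.mul_sum]
  have h1 : ∀ t ∈ range n, ∑ e, ∑ i ∈ s, c.P t x (c.src e) * φ i e =
      ∑ i ∈ s, ∑ e, c.P t x (c.src e) * φ i e := fun t _ => Finset.sum_comm
  rw [Finset.sum_congr rfl h1, Finset.sum_comm]

theorem us_zero (φ : E → ℝ) (Z : X → Prop) (h1 : ∀ e, Z (c.src e) → φ e = 0)
    (h2 : ∀ e, Z (c.src e) → Z (c.tgt e)) : ∀ (n : ℕ) (x : X), Z x → us c n φ x = 0 := by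
  intro n
  induction n with
  | zero => intro x _; unfold us; simp
  | succ n ih =>
    intro x hx
    rw [us_succ]
    refine Finset.sum_eq_zero fun e _ => ?_
    by_cases h : c.src e = x
    · rw [if_pos h]
      have h3 : Z (c.src e) := by rw [h]; exact hx
      rw [h1 e h3, ih _ (h2 e h3), mul_zero, add_zero]
    · rw [if_neg h]

theorem us_sup (φ : E → ℝ) (Z : X → Prop) (M : ℝ) (hM : 0 ≤ M)
    (h1 : ∀ e, Z (c.src e) → φ e = 0) (h2 : ∀ n x, ¬Z x → us c n φ x ≤ M) :
    ∀ (n : ℕ) (x : X), us c n φ x ≤ M := by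
  intro n
  induction n with
  | zero => intro x; unfold us; simpa using hM
  | succ n ih =>
    intro x
    by_cases hx : Z x
    · rw [us_succ]
      calc _ ≤ ∑ e, (if c.src e = x then c.wt e * M else 0) := by
            refine Finset.sum_le_sum fun e _ => ?_
            by_cases h : c.src e = x
            · rw [if_pos h, if_pos h, h1 e (by rw [h]; exact hx), zero_add]
              exact mul_le_mul_of_nonneg_left (ih _) (c.wt_nonneg e)
            · rw [if_neg h, if_neg h]
        _ = (∑ e, if c.src e = x then c.wt e else 0) * M := by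
            rw [Finset.sum_mul]
            refine Finset.sum_congr rfl fun e _ => ?_
            split_ifs
            · rfl
            · exact (zero_mul M).symm
        _ ≤ 1 * M := mul_le_mul_of_nonneg_right (c.out_le x) hM
        _ = M := one_mul M
    · exact h2 (n + 1) x hx

end general

/-- the harmonic sum -/
noncomputable def har (n : ℕ) : ℝ := ∑ d ∈ range n, 1 / ((d : ℝ) + 1)

theorem har_nonneg (n : ℕ) : 0 ≤ har n := Finset.sum_nonneg fun _ _ => by positivity

/-- sums over a set with distinct distances -/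
theorem sum_dist {I : Type} (s : Finset I) (d : I → ℕ) (n : ℕ) (hd : ∀ i ∈ s, d i < n)
    (hinj : Set.InjOn d s) : ∑ i ∈ s, 1 / ((d i : ℝ) + 1) ≤ har n := by
  classical
  unfold har
  rw [← Finset.sum_image (f := fun d : ℕ => 1 / ((d : ℝ) + 1)) hinj]
  refine Finset.sum_le_sum_of_subset_of_nonneg ?_ fun _ _ _ => by positivity
  intro x hx
  rw [mem_image] at hx
  obtain ⟨i, hi, rfl⟩ := hx
  exact mem_range.2 (hd i hi)

end Pool.Agent.H66.SLC
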