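import Pool.Agent.H66.SLC.Cmp
import Pool.Agent.H66.SLC.Green
import Pool.Agent.H66.SLC.UsG

/-!
# Expected number of uses of a ride
-/

set_option autoImplicit false

open Finset

namespace Pool.Agent.H66.SLC

open Pool.Agent.H66.SLP Pool.Agent.H90.SPW

section chain

open scoped Classical

variable {R : ℕ} {Y : Type} (P : Par R Y)

/-- the weight of the rides number `i` of the segment `r` -/
noncomputable def phi (r : Fin R) (i : ℕ) : Ed P → ℝ
  | Sum.inl ⟨r', u, j⟩ => if r' = r ∧ j.1 = i then om P r' u.1 j else 0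
  | Sum.inr _ => 0

theorem phi_nonneg (r : Fin R) (i : ℕ) (e : Ed P) : 0 ≤ phi P r i e := by
  rcases e with ⟨r', u, j⟩ | e
  · simp only [phi]
    split_ifs
    · exact om_nonneg P r' u.1 j
    · exact le_rfl
  · exact le_rfl

/-- states after the start of the ride `i` of the segment `r` -/
def aft (r : Fin R) (t : ℕ) (x : St P) : Prop :=
  r.castSucc < x.1 ∨ (x.1 = r.castSucc ∧ t < x.2.1.1)

theorem aft_tgt (r : Fin R) (t : ℕ) (e : Ed P) (h : aft P r t (srcC P e)) :
    aft P r t (tgtC P e) := by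
  rcases e with ⟨r', u, j⟩ | ⟨r', u⟩ | ⟨t', u⟩
  · simp only [aft, srcC, tgtC] at h ⊢
    rcases h with h | ⟨h1, h2⟩
    · exact Or.inl h
    · refine Or.inr ⟨h1, ?_⟩
      have := (P.S r').cls_pi_lo j.2
      omega
  · simp only [aft, srcC, tgtC] at h ⊢
    left
    have h3 : r'.castSucc < r'.succ := Fin.castSucc_lt_succ
    rcases h with h | ⟨h1, _⟩
    · exact h.trans h3
    · rw [← h1]
      exact h3
  · simp only [aft, srcC, tgtC] at h ⊢
    rcases h with h | ⟨h1, _⟩
    · exact Or.inl h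
    · exact absurd h1.symm (Fin.castSucc_lt_last r).ne

theorem us_aft (n : ℕ) (r : Fin R) (i : ℕ) (x : St P)
    (h : aft P r ((P.S r).cls i) x) : us (chn P) n (phi P r i) x = 0 := by
  refine us_zero (chn P) (phi P r i) (aft P r ((P.S r).cls i)) ?_ ?_ n x h
  · intro e he
    rcases e with ⟨r', u, j⟩ | e
    · simp only [phi]
      refine if_neg ?_
      rintro ⟨rfl, rfl⟩
      have he : aft P r' ((P.S r').cls j.1) (srcC P (Sum.inl ⟨r', u, j⟩)) := he
      simp only [aft, srcC] at he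
      rcases he with he | ⟨_, he⟩
      · exact absurd he (lt_irrefl _)
      · omega
    · rfl
  · intro e he
    exact aft_tgt P r _ e he

/-- the value function of a ride, on the cells with one label -/
noncomputable def hh (n : ℕ) (r : Fin R) (i : ℕ) (u0 : Fin (2 ^ P.B)) (t c : ℕ) : ℝ :=
  if h : t < P.N + 1 ∧ c < P.D r then
    us (chn P) n (phi P r i) (r.castSucc, ⟨t, h.1⟩, ⟨col (P.D r) u0.1 c,
      col_lt (P.hA r) u0.2 h.2⟩) else 0

theorem hh_nonneg (n : ℕ) (r : Fin R) (i : ℕ) (u0 : Fin (2 ^ P.B)) (t c : ℕ) :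
    0 ≤ hh P n r i u0 t c := by
  unfold hh
  split_ifs
  · exact us_nonneg (chn P) n _ (phi_nonneg P r i) _
  · exact le_rfl

/-- the column after the ride `j` -/
noncomputable def nxt (r : Fin R) (u : Fin (2 ^ P.B)) (j : Fin (P.S r).F) : Fin (2 ^ P.B) :=
  ⟨col (P.D r) u.1 ((P.S r).off ((P.S r).π j.1) / P.K r),
    col_lt (P.hA r) u.2 (P.cell_lt' r j)⟩

theorem hh_eq (n : ℕ) (r : Fin R) (i : ℕ) (u0 : Fin (2 ^ P.B)) (t c : ℕ) (ht : t < P.N + 1)
    (hc : c < P.D r) (v : Fin (2 ^ P.B)) (hv : v.1 = col (P.D r) u0.1 c) :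
    hh P n r i u0 t c = us (chn P) n (phi P r i) (r.castSucc, ⟨t, ht⟩, v) := by
  have h1 : v = ⟨col (P.D r) u0.1 c, col_lt (P.hA r) u0.2 hc⟩ := Fin.ext hv
  rw [h1]
  exact dif_pos ⟨ht, hc⟩

theorem out_us (n : ℕ) (r : Fin R) (i : ℕ) (t : Fin (P.N + 1)) (v : Fin (2 ^ P.B)) :
    us (chn P) n (phi P r i) (r.castSucc, t, v) ≤
      (∑ j : Fin (P.S r).F, if (P.S r).cls j.1 = t.1 then
        phi P r i (Sum.inl ⟨r, v, j⟩) + om P r v.1 j * us (chn P) n (phi P r i)
          (r.castSucc, ⟨(P.S r).cls ((P.S r).π j.1), P.cls_lt r _⟩, nxt P r v j) else 0) +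
        if t.1 = (P.S r).tp then us (chn P) n (phi P r i) (r.succ, 0, v) else 0 := by
  refine (us_sub (chn P) n _ (phi_nonneg P r i) _).trans (le_of_eq ?_)
  refine (Finset.sum_congr rfl fun e _ => ite_inst _ _ _ _).trans
    ((out_seg P r t v (fun e => phi P r i e + wtC P e * us (chn P) n (phi P r i)
      (tgtC P e))).trans ?_)
  refine congrArg₂ (· + ·) rfl ?_
  by_cases h : t.1 = (P.S r).tp
  · rw [if_pos h, if_pos h]
    exact (zero_add _).trans (one_mul _)
  · rw [if_neg h, if_neg h]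

theorem hh_step (n : ℕ) (r : Fin R) (i : Fin (P.S r).F) (u0 : Fin (2 ^ P.B)) (t c : ℕ)
    (hc : c < P.D r) : hh P n r i.1 u0 t c ≤ ∑ j : Fin (P.S r).F,
      if (P.S r).cls j.1 = t then
        theta (P.A r) c ((P.S r).off j.1 / P.K r) / P.K r *
          rv (fun j : Fin (P.S r).F => (P.S r).cls ((P.S r).π j.1))
            (fun j => (P.S r).off ((P.S r).π j.1) / P.K r) i (hh P n r i.1 u0) j else 0 := by
  by_cases ht : t < P.N + 1
  · rw [hh_eq P n r i.1 u0 t c ht hc ⟨col (P.D r) u0.1 c, col_lt (P.hA r) u0.2 hc⟩ rfl]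
    refine (out_us P n r i.1 ⟨t, ht⟩ _).trans ?_
    have h5 : us (chn P) n (phi P r i.1) (r.succ, 0,
        ⟨col (P.D r) u0.1 c, col_lt (P.hA r) u0.2 hc⟩) = 0 :=
      us_aft P n r i.1 _ (Or.inl Fin.castSucc_lt_succ)
    rw [h5, ite_self, add_zero]
    refine Finset.sum_le_sum fun j _ => le_of_eq ?_
    by_cases hj : (P.S r).cls j.1 = t
    · rw [if_pos hj, if_pos hj]
      unfold rv
      have h6 : phi P r i.1 (Sum.inl ⟨r, ⟨col (P.D r) u0.1 c,
          col_lt (P.hA r) u0.2 hc⟩, j⟩) =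
          theta (P.A r) c ((P.S r).off j.1 / P.K r) / P.K r * if j = i then 1 else 0 := by
        simp only [phi, true_and, om, col_mod hc]
        by_cases hji : j = i
        · rw [if_pos hji, if_pos (by rw [hji]), mul_one]
        · rw [if_neg hji, if_neg fun h => hji (Fin.ext h), mul_zero]
      have h7 : om P r (col (P.D r) u0.1 c) j =
          theta (P.A r) c ((P.S r).off j.1 / P.K r) / P.K r := by
        unfold om
        rw [col_mod hc]
      have h8 := hh_eq P n r i.1 u0 ((P.S r).cls ((P.S r).π j.1))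
            ((P.S r).off ((P.S r).π j.1) / P.K r) (P.cls_lt r _) (P.cell_lt' r j)
            (nxt P r ⟨col (P.D r) u0.1 c, col_lt (P.hA r) u0.2 hc⟩ j)
            (by
              unfold nxt
              have := col_div (D := P.D r) (u := u0.1) hc
              simp only [col] at this ⊢
              rw [this])
      rw [h6, h7, h8]
      ring
    · rw [if_neg hj, if_neg hj]
  · have h1 : hh P n r i.1 u0 t c = 0 := dif_neg fun h => ht h.1
    rw [h1]
    refine Finset.sum_nonneg fun j _ => ?_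
    split_ifs
    · exact mul_nonneg (div_nonneg (theta_nonneg _ _ _) (by positivity))
        (rv_nonneg _ _ _ _ (hh_nonneg P n r i.1 u0) j)
    · exact le_rfl

theorem hh_green (n : ℕ) (r : Fin R) (i : Fin (P.S r).F) (u0 : Fin (2 ^ P.B)) (t c : ℕ)
    (ht : t ≤ (P.S r).cls i.1) (hc : c < P.D r) : hh P n r i.1 u0 t c ≤
      40 / (P.K r * ((((P.S r).cls i.1 - t : ℕ) : ℝ) + 1)) := by
  refine green (P.D r) (P.K r) (P.A r) (fun j : Fin (P.S r).F => (P.S r).cls j.1)
    (fun j => (P.S r).cls ((P.S r).π j.1)) (fun j => (P.S r).off j.1 / P.K r)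
    (fun j => (P.S r).off ((P.S r).π j.1) / P.K r) (theta (P.A r)) i (hh P n r i.1 u0)
    (P.hK r) ?_ (P.cell_lt0 r) (P.cell_lt' r) ?_ ?_ ?_ ?_ ?_ ?_ ?_ ?_ _ t c
    (by omega) hc
  · intro j
    have h1 := (P.S r).cls_pi_lo j.2
    have h2 := (P.S r).cls_pi_hi j.2
    exact ⟨by omega, h2⟩
  · intro t c
    exact (P.S r).card_start (P.K r) (P.hK r) t c
  · intro t c
    exact (P.S r).card_land (P.K r) (P.hK r) t c
  · intro c'
    exact sum_theta_le' _ _ _
  · intro b hb c _ f m hf hm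
    exact theta_mix (P.A r) (P.D r) b hb c f m hf hm
  · exact hh_nonneg P n r i.1 u0
  · intro t c ht
    unfold hh
    split_ifs with h
    · exact us_aft P n r i.1 _ (Or.inr ⟨rfl, ht⟩)
    · rfl
  · intro t c hc
    exact hh_step P n r i u0 t c hc
  · have h1 := (P.S r).cls_lt i.2
    have h2 := P.hT r
    show (P.S r).cls i.1 < 2 ^ P.A r
    omega

end chain

end Pool.Agent.H66.SLC
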