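import Pool.Agent.H66.SLC.Num2

/-!
# From the abstract theorem to rank systems
-/

set_option autoImplicit false

open Finset

namespace Pool.Agent.H66.SLC

open Pool.Agent.H66.SLP Pool.Agent.H90.SPW

/-- the condition on the uses -/
theorem use_num (c₀ n ε C C₂ G : ℝ) (M : ℕ) (hn : 1 ≤ n) (hc : c₀ = ε / 100) (hε : 0 < ε)
    (hM0 : 1 ≤ M) (hC₂ : 1 ≤ C₂) (hM : (M : ℝ) ≤ C₂ * n ^ 13) (hC : 0 < C)
    (hCG : G * C₂ ^ c₀ ≤ C) (hG : 0 ≤ G) : G / C * n ^ (-(ε / 4)) ≤ (M : ℝ) ^ (-c₀) := by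
  have hn0 : 0 < n := by linarith
  have hc0 : 0 < c₀ := by rw [hc]; positivity
  have hM1 : (0 : ℝ) < M := by exact_mod_cast hM0
  have h1 : (C₂ * n ^ 13) ^ (-c₀) ≤ (M : ℝ) ^ (-c₀) :=
    Real.rpow_le_rpow_of_nonpos hM1 hM (by linarith)
  refine le_trans ?_ h1
  rw [Real.mul_rpow (by linarith) (by positivity)]
  have h2 : (n ^ 13) ^ (-c₀) = n ^ (-(13 * c₀)) := by
    rw [← Real.rpow_natCast, ← Real.rpow_mul hn0.le]
    congr 1
    push_cast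
    ring
  rw [h2]
  have h3 : n ^ (-(ε / 4)) ≤ n ^ (-(13 * c₀)) := by
    apply Real.rpow_le_rpow_of_exponent_le hn
    rw [hc]
    linarith
  have h4 : G / C ≤ C₂ ^ (-c₀) := by
    have h5 : 0 < C₂ ^ c₀ := Real.rpow_pos_of_pos (by linarith) _
    rw [Real.rpow_neg (by linarith), div_le_iff₀ hC, inv_mul_eq_div, le_div_iff₀ h5]
    exact hCG
  exact mul_le_mul h4 h3 (Real.rpow_nonneg hn0.le _) (Real.rpow_nonneg (by linarith) _)

theorem main (hAT : T_AT) : T_MAIN := by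
  intro ε R hε
  rcases Nat.eq_zero_or_pos R with hR | hR
  · subst hR
    refine ⟨0, fun n _ Y _ S _ _ _ _ _ => ⟨fun r => r.elim0, fun r => r.elim0, ?_,
      fun r => r.elim0⟩⟩
    simp
  obtain ⟨e, he⟩ : ∃ e, e = min ε 1 := ⟨_, rfl⟩
  have he0 : 0 < e := by rw [he]; exact lt_min hε one_pos
  have he1 : e ≤ 1 := by rw [he]; exact min_le_right _ _
  have hee : e ≤ ε := by rw [he]; exact min_le_left _ _
  obtain ⟨CA, N₀, hCA, hG⟩ := main_of_good hAT (e / 100) (by positivity)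
  obtain ⟨c, hc1, hc⟩ := exists_c e he0 R
  obtain ⟨C₁, hC₁⟩ : ∃ C₁ : ℝ, C₁ = 24 * R ^ 2 * c := ⟨_, rfl⟩
  have hR1 : (1 : ℝ) ≤ R := by exact_mod_cast hR
  have hC₁0 : 0 < C₁ := by rw [hC₁]; positivity
  obtain ⟨C₂, hC₂⟩ : ∃ C₂ : ℝ, C₂ = N₀ + C₁ + 1 := ⟨_, rfl⟩
  have hC₂1 : 1 ≤ C₂ := by
    rw [hC₂]
    have : (0 : ℝ) ≤ N₀ := Nat.cast_nonneg _
    linarith
  obtain ⟨G, hGG⟩ : ∃ G : ℝ, G = 482 * R * c * ((1 + 4 / e) * (3 * R) ^ (e / 4)) := ⟨_, rfl⟩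
  have hG0 : 0 ≤ G := by rw [hGG]; positivity
  obtain ⟨C, hC⟩ : ∃ C : ℝ, C = max (2 * c) (max CA (G * C₂ ^ (e / 100))) := ⟨_, rfl⟩
  have hCa : 2 * c ≤ C := by rw [hC]; exact le_max_left _ _
  have hCb : CA ≤ C := by rw [hC]; exact (le_max_left _ _).trans (le_max_right _ _)
  have hCc : G * C₂ ^ (e / 100) ≤ C := by
    rw [hC]
    exact (le_max_right _ _).trans (le_max_right _ _)
  have hC0 : 0 < C := by linarith
  refine ⟨C, fun n hn Y _ S hW hWn hq hQn hCQ => ?_⟩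
  have hn0 : 0 < n := by linarith
  choose q hq using hq
  have hz : ∀ r, 1 ≤ c * ((S r).W + 1) * n ^ (e / 2) := by
    intro r
    have h1 : (1 : ℝ) ≤ n ^ (e / 2) := Real.one_le_rpow hn (by linarith)
    have h2 := hW r
    have h3 : 1 ≤ c * ((S r).W + 1) := by nlinarith
    nlinarith
  choose A hA1 hA2 using fun r => exists_pow _ (hz r)
  have hCQ' : ∀ r, C * ((S r).W + 1) * n ^ e ≤ (S r).Q := by
    intro r
    refine le_trans ?_ (hCQ r)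
    refine mul_le_mul_of_nonneg_left (Real.rpow_le_rpow_of_exponent_le hn hee) ?_
    have := hW r
    positivity
  let d : Dat R Y := {
    S := S
    q := q
    A := A
    n := n
    ε := e
    c := c
    C := C
    hR := hR
    hn := hn
    hε := he0
    hε1 := he1
    hc := hc1
    hlog := fun a ha => hc n hn a ha
    hC := hCa
    hW := hW
    hWn := hWn
    hQ := hq
    hQn := hQn
    hCQ := hCQ'
    hA1 := hA1
    hA2 := hA2 }
  obtain ⟨M, hM⟩ : ∃ M : ℕ, M = max N₀ ⌈C₁ * n ^ 13⌉₊ := ⟨_, rfl⟩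
  have hMN : N₀ ≤ M := by rw [hM]; exact le_max_left _ _
  have hMc : ⌈C₁ * n ^ 13⌉₊ ≤ M := by rw [hM]; exact le_max_right _ _
  have hn13 : (1 : ℝ) ≤ n ^ 13 := one_le_pow₀ hn
  have hM1 : 1 ≤ M := by
    have : 0 < ⌈C₁ * n ^ 13⌉₊ := Nat.ceil_pos.2 (by positivity)
    omega
  have hM2 : (M : ℝ) ≤ C₂ * n ^ 13 := by
    have hN0 : (0 : ℝ) ≤ N₀ := Nat.cast_nonneg _
    have h1 : (N₀ : ℝ) ≤ C₂ * n ^ 13 := by
      rw [hC₂]
      nlinarith
    have h2 : (⌈C₁ * n ^ 13⌉₊ : ℝ) ≤ C₂ * n ^ 13 := by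
      have h3 := (Nat.ceil_lt_add_one (by positivity : 0 ≤ C₁ * n ^ 13)).le
      refine h3.trans ?_
      rw [hC₂]
      nlinarith
    rw [hM]
    push_cast
    exact max_le h1 h2
  have hcard : ∀ k : ℕ, (k : ℝ) ≤ C₁ * n ^ 13 → k ≤ M := by
    intro k hk
    refine le_trans ?_ hMc
    exact_mod_cast hk.trans (Nat.le_ceil _)
  have hgood : Good d.par (e / 100) M := by
    refine ⟨hcard _ ?_, hcard _ ?_, hcard _ ?_, le_rfl, ?_, d.loss, d.ovl⟩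
    · rw [hC₁]
      exact d.cX
    · rw [hC₁]
      exact d.cE
    · rw [hC₁]
      exact d.cN
    · refine d.use.trans ?_
      have h1 := use_num (e / 100) n e C C₂ G M hn rfl he0 hM1 hC₂1 hM2 hC0 hCc hG0
      rw [hGG] at h1
      exact h1
  obtain ⟨l, h1, h2, h3⟩ := hG M hMN R Y d.par hR hgood
  exact ⟨l, h1, h2, fun r => (h3 r).trans hCb⟩

end Pool.Agent.H66.SLC
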