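import Pool.Agent.H66.SLC.Fwd

/-!
# Expected number of uses of a letter
-/

set_option autoImplicit false

open Finset

namespace Pool.Agent.H66.SLC

open Pool.Agent.H66.SLP Pool.Agent.H90.SPW

section chain

open scoped Classical

variable {R : ℕ} {Y : Type} (P : Par R Y)

/-- the weight of the rides with the letter `y` of the segment `r` -/
noncomputable def phiY (r : Fin R) (y : Y) (e : Ed P) : ℝ :=
  ∑ i ∈ (univ : Finset (Fin (P.S r).F)).filter (fun i => (P.S r).ℓ i.1 = y), phi P r i.1 e

theorem phiY_zero (r : Fin R) (y : Y) (e : Ed P) (h : (srcC P e).1 ≠ r.castSucc) :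
    phiY P r y e = 0 := by
  unfold phiY
  refine Finset.sum_eq_zero fun i _ => ?_
  rcases e with ⟨r', u, j⟩ | e
  · simp only [phi]
    refine if_neg ?_
    rintro ⟨rfl, _⟩
    exact h rfl
  · rfl

theorem use_eq (y : Y) (e : Ed P) : (chn P).use y e = ∑ r, phiY P r y e := by
  unfold Ch.use
  rcases e with ⟨r, u, j⟩ | e
  · rw [Finset.sum_eq_single r]
    · unfold phiY
      simp only [phi, true_and]
      show (if ltC P (Sum.inl ⟨r, u, j⟩) = some y then om P r u.1 j else 0) = _
      simp only [ltC, Option.some.injEq]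
      by_cases h : (P.S r).ℓ j.1 = y
      · rw [if_pos h, Finset.sum_eq_single j]
        · rw [if_pos rfl]
        · intro i _ hi
          exact if_neg fun h' => hi (Fin.ext h'.symm)
        · intro h'
          exact absurd (Finset.mem_filter.2 ⟨Finset.mem_univ j, h⟩) h'
      · rw [if_neg h]
        symm
        refine Finset.sum_eq_zero fun i hi => if_neg fun h' => h ?_
        rw [Finset.mem_filter] at hi
        rw [h']
        exact hi.2
    · intro r' _ hr'
      refine phiY_zero P r' y _ ?_
      simp only [srcC]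
      intro h
      exact hr' (Fin.castSucc_injective R h).symm
    · intro h
      exact absurd (Finset.mem_univ _) h
  · have h1 : ∑ r, phiY P r y (Sum.inr e) = 0 := by
      refine Finset.sum_eq_zero fun r _ => ?_
      unfold phiY
      exact Finset.sum_eq_zero fun i _ => rfl
    rw [h1]
    show (if ltC P (Sum.inr e) = some y then (1 : ℝ) else 0) = 0
    simp [ltC]

theorem us_phiY_seg (n : ℕ) (r : Fin R) (y : Y) (t : Fin (P.N + 1)) (u : Fin (2 ^ P.B)) :
    us (chn P) n (phiY P r y) (r.castSucc, t, u) ≤ 40 / P.K r * har (P.N + 1) := by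
  have hK : (0 : ℝ) < P.K r := by exact_mod_cast P.hK r
  have h1 : us (chn P) n (phiY P r y) (r.castSucc, t, u) =
      ∑ i ∈ (univ : Finset (Fin (P.S r).F)).filter (fun i => (P.S r).ℓ i.1 = y),
        us (chn P) n (phi P r i.1) (r.castSucc, t, u) := us_sum (chn P) _ n _ _
  rw [h1]
  have h2 : ∀ i : Fin (P.S r).F, us (chn P) n (phi P r i.1) (r.castSucc, t, u) ≤
      if t.1 ≤ (P.S r).cls i.1 then 40 / P.K r * (1 / ((((P.S r).cls i.1 - t.1 : ℕ) : ℝ) + 1))
        else 0 := by
    intro i
    by_cases ht : t.1 ≤ (P.S r).cls i.1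
    · rw [if_pos ht]
      have h3 := hh_green P n r i u t.1 (u.1 % P.D r) ht (Nat.mod_lt _ (P.D_pos r))
      have h4 : hh P n r i.1 u t.1 (u.1 % P.D r) =
          us (chn P) n (phi P r i.1) (r.castSucc, t, u) := by
        unfold hh
        rw [dif_pos ⟨t.2, Nat.mod_lt _ (P.D_pos r)⟩]
        congr 3
        apply Fin.ext
        exact col_self _ _
      rw [h4] at h3
      refine h3.trans (le_of_eq ?_)
      field_simp
    · rw [if_neg ht]
      rw [us_aft P n r i.1 _ (Or.inr ⟨rfl, by simp only; omega⟩)]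
  calc _ ≤ ∑ i ∈ (univ : Finset (Fin (P.S r).F)).filter (fun i => (P.S r).ℓ i.1 = y),
        (if t.1 ≤ (P.S r).cls i.1 then
          40 / P.K r * (1 / ((((P.S r).cls i.1 - t.1 : ℕ) : ℝ) + 1)) else 0) :=
        Finset.sum_le_sum fun i _ => h2 i
    _ = 40 / P.K r * ∑ i ∈ ((univ : Finset (Fin (P.S r).F)).filter
          (fun i => (P.S r).ℓ i.1 = y)).filter (fun i => t.1 ≤ (P.S r).cls i.1),
          (1 / ((((P.S r).cls i.1 - t.1 : ℕ) : ℝ) + 1)) := by
        rw [← Finset.sum_filter, Finset.mul_sum]
    _ ≤ 40 / P.K r * har (P.N + 1) := by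
        refine mul_le_mul_of_nonneg_left ?_ (by positivity)
        refine sum_dist _ (fun i : Fin (P.S r).F => (P.S r).cls i.1 - t.1) _ ?_ ?_
        · intro i _
          have := P.cls_lt r i.1
          omega
        · intro i hi j hj hij
          simp only [coe_filter, mem_filter, mem_univ, true_and, Set.mem_ofPred_eq] at hi hj
          by_contra hne
          have h5 := ((P.S r).cls_ne i.2 j.2 (fun h => hne (Fin.ext h))
            (hi.1.trans hj.1.symm)).1
          have hij : (P.S r).cls i.1 - t.1 = (P.S r).cls j.1 - t.1 := hij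
          omega

theorem us_phiY (n : ℕ) (r : Fin R) (y : Y) (x : St P) :
    us (chn P) n (phiY P r y) x ≤ 40 / P.K r * har (P.N + 1) := by
  refine us_sup (chn P) (phiY P r y) (fun x => x.1 ≠ r.castSucc) _
    (mul_nonneg (by positivity) (har_nonneg _)) ?_ ?_ n x
  · intro e he
    exact phiY_zero P r y e he
  · intro n x hx
    obtain ⟨r', t, u⟩ := x
    have hx : r' = r.castSucc := not_not.1 hx
    subst hx
    exact us_phiY_seg P n r y t u

theorem useLe (n : ℕ) : (chn P).UseLe n (∑ r, 40 / P.K r * har (P.N + 1)) := by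
  intro x y
  have h1 : ∑ t ∈ range n, ∑ e, (chn P).P t x ((chn P).src e) * (chn P).use y e =
      us (chn P) n (fun e => ∑ r, phiY P r y e) x := by
    unfold us
    refine Finset.sum_congr rfl fun t _ => Finset.sum_congr rfl fun e _ => ?_
    rw [use_eq]
  rw [h1, us_sum]
  exact Finset.sum_le_sum fun r _ => us_phiY P n r y x

end chain

end Pool.Agent.H66.SLC
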