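import Pool.Agent.H66.SLC.Bwd
import Pool.Agent.H66.SLC.Use

/-!
# Expected number of uses of a letter in the reversed chain
-/

set_option autoImplicit false

open Finset

namespace Pool.Agent.H66.SLC

open Pool.Agent.H66.SLP Pool.Agent.H90.SPW

section chain

open scoped Classical

variable {R : ℕ} {Y : Type} (P : Par R Y)

theorem phiY_zero' (r : Fin R) (y : Y) (e : Ed P) (h : (tgtC P e).1 ≠ r.castSucc) :
    phiY P r y e = 0 := by
  unfold phiY
  refine Finset.sum_eq_zero fun i _ => ?_
  rcases e with ⟨r', u, j⟩ | e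
  · simp only [phi]
    refine if_neg ?_
    rintro ⟨rfl, _⟩
    exact h rfl
  · rfl

theorem usr_phiY_seg (n : ℕ) (r : Fin R) (y : Y) (t : Fin (P.N + 1)) (u : Fin (2 ^ P.B)) :
    us (chn P).rev n (phiY P r y) (r.castSucc, t, u) ≤ 241 / P.K r * har (P.N + 1) := by
  have hK : (0 : ℝ) < P.K r := by exact_mod_cast P.hK r
  have h1 : us (chn P).rev n (phiY P r y) (r.castSucc, t, u) =
      ∑ i ∈ (univ : Finset (Fin (P.S r).F)).filter (fun i => (P.S r).ℓ i.1 = y),
        us (chn P).rev n (phi P r i.1) (r.castSucc, t, u) := us_sum (chn P).rev _ n _ _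
  rw [h1]
  have h2 : ∀ i : Fin (P.S r).F, us (chn P).rev n (phi P r i.1) (r.castSucc, t, u) ≤
      if (P.S r).cls ((P.S r).π i.1) ≤ t.1 then
        241 / P.K r * (1 / (((t.1 - (P.S r).cls ((P.S r).π i.1) : ℕ) : ℝ) + 1)) else 0 := by
    intro i
    by_cases ht : (P.S r).cls ((P.S r).π i.1) ≤ t.1
    · rw [if_pos ht]
      have h3 := hl_green P n r i u t.1 (u.1 % P.D r) ht (Nat.mod_lt _ (P.D_pos r))
      have h4 := hl_eq P n r i.1 u t.1 (u.1 % P.D r) t.2 (Nat.mod_lt _ (P.D_pos r)) u
        (col_self _ _).symm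
      rw [h4] at h3
      refine h3.trans (le_of_eq ?_)
      field_simp
    · rw [if_neg ht]
      rw [us_bef P n r i.1 _ (Or.inr ⟨rfl, not_le.1 ht⟩)]
  calc _ ≤ ∑ i ∈ (univ : Finset (Fin (P.S r).F)).filter (fun i => (P.S r).ℓ i.1 = y),
        (if (P.S r).cls ((P.S r).π i.1) ≤ t.1 then
          241 / P.K r * (1 / (((t.1 - (P.S r).cls ((P.S r).π i.1) : ℕ) : ℝ) + 1)) else 0) :=
        Finset.sum_le_sum fun i _ => h2 i
    _ = 241 / P.K r * ∑ i ∈ ((univ : Finset (Fin (P.S r).F)).filter
          (fun i => (P.S r).ℓ i.1 = y)).filter (fun i => (P.S r).cls ((P.S r).π i.1) ≤ t.1),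
          (1 / (((t.1 - (P.S r).cls ((P.S r).π i.1) : ℕ) : ℝ) + 1)) := by
        rw [← Finset.sum_filter, Finset.mul_sum]
    _ ≤ 241 / P.K r * har (P.N + 1) := by
        refine mul_le_mul_of_nonneg_left ?_ (by positivity)
        refine sum_dist _ (fun i : Fin (P.S r).F => t.1 - (P.S r).cls ((P.S r).π i.1)) _ ?_ ?_
        · intro i _
          have := t.2
          omega
        · intro i hi j hj hij
          simp only [coe_filter, mem_filter, mem_univ, true_and, Set.mem_ofPred_eq] at hi hj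
          by_contra hne
          have h5 := ((P.S r).cls_ne i.2 j.2 (fun h => hne (Fin.ext h))
            (hi.1.trans hj.1.symm)).2
          have hij : t.1 - (P.S r).cls ((P.S r).π i.1) =
            t.1 - (P.S r).cls ((P.S r).π j.1) := hij
          omega

theorem usr_phiY (n : ℕ) (r : Fin R) (y : Y) (x : St P) :
    us (chn P).rev n (phiY P r y) x ≤ 241 / P.K r * har (P.N + 1) := by
  refine us_sup (chn P).rev (phiY P r y) (fun x => x.1 ≠ r.castSucc) _
    (mul_nonneg (by positivity) (har_nonneg _)) ?_ ?_ n x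
  · intro e he
    exact phiY_zero' P r y e he
  · intro n x hx
    obtain ⟨r', t, u⟩ := x
    have hx : r' = r.castSucc := not_not.1 hx
    subst hx
    exact usr_phiY_seg P n r y t u

theorem useLe_rev (n : ℕ) : (chn P).rev.UseLe n (∑ r, 241 / P.K r * har (P.N + 1)) := by
  intro x y
  have h1 : ∑ t ∈ range n, ∑ e, (chn P).rev.P t x ((chn P).rev.src e) *
      (chn P).rev.use y e = us (chn P).rev n (fun e => ∑ r, phiY P r y e) x := by
    unfold us
    refine Finset.sum_congr rfl fun t _ => Finset.sum_congr rfl fun e _ => ?_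
    rw [Ch.rev_use, use_eq]
  rw [h1, us_sum]
  exact Finset.sum_le_sum fun r _ => usr_phiY P n r y x

end chain

end Pool.Agent.H66.SLC
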