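import Pool.Agent.H66.SLC.Dec2
import Pool.Agent.H66.SLC.Use2

/-!
# The abstract theorem applied to the chain of rank systems
-/

set_option autoImplicit false

open Finset

namespace Pool.Agent.H66.SLC

open Pool.Agent.H66.SLP Pool.Agent.H90.SPW

/-- the conditions on the parameters -/
structure Good {R : ℕ} {Y : Type} (P : Par R Y) (c₀ : ℝ) (M : ℕ) : Prop where
  cX : Fintype.card (St P) ≤ M
  cE : Fintype.card (Ed P) ≤ M
  hM : P.N ≤ M
  hN : tot P ≤ P.N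
  use : ∑ r, 241 / (P.K r : ℝ) * har (P.N + 1) ≤ (M : ℝ) ^ (-c₀)
  loss : ∑ r, ((P.S r).tp : ℝ) * (((P.A r : ℝ) + 2) / (2 * 2 ^ P.A r)) ≤ 1 / 2
  ovl : ∑ r, ((P.A r : ℝ) + 1) * (P.S r).W / 2 ^ P.A r ≤ 1

theorem main_of_good (hAT : T_AT) (c₀ : ℝ) (hc : 0 < c₀) : ∃ (C : ℝ) (N₀ : ℕ), 0 ≤ C ∧
    ∀ M ≥ N₀, ∀ (R : ℕ) (Y : Type) [Fintype Y] (P : Par R Y), 0 < R → Good P c₀ M →
      ∃ l : Fin R → List ℕ, (∀ r, (P.S r).Path (l r)) ∧
        (List.ofFn fun r => (l r).map (P.S r).ℓ).flatten.Nodup ∧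
        ∀ r, (P.S r).ovl (l r) ≤ C := by
  obtain ⟨C, N₀, h⟩ := hAT c₀ hc
  refine ⟨max C 0, N₀, le_max_right _ _, ?_⟩
  intro M hM R Y _ P hR hG
  have hn1 : 1 ≤ tot P := by
    have h1 : (P.S ⟨0, hR⟩).tp + 1 ≤ tot P :=
      Finset.single_le_sum (f := fun r => (P.S r).tp + 1) (fun _ _ => Nat.zero_le _)
        (Finset.mem_univ (⟨0, hR⟩ : Fin R))
    omega
  have hu : (chn P).UseLe (tot P) ((M : ℝ) ^ (-c₀)) := by
    intro x y
    refine (useLe P (tot P) x y).trans (le_trans ?_ hG.use)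
    refine Finset.sum_le_sum fun r _ => ?_
    refine mul_le_mul_of_nonneg_right ?_ (har_nonneg _)
    exact div_le_div_of_nonneg_right (by norm_num) (Nat.cast_nonneg _)
  have hv : (chn P).rev.UseLe (tot P) ((M : ℝ) ^ (-c₀)) := by
    intro x y
    exact (useLe_rev P (tot P) x y).trans hG.use
  obtain ⟨l, h1, h2, h3, h4, h5⟩ := h M hM (St P) (Ed P) Y (chn P) (tot P) (sC P) (ff P)
    hG.cX hG.cE hn1 (hG.hN.trans hG.hM) hu hv (sC_nonneg P) (sC_sum P)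
    (survive P (tot P) hG.hN hG.loss) (ff_nonneg P)
  have h6 := decode P l h2 h1.ge h3
  refine ⟨fun r => lr P r l, fun r => (h6 r).1, nodup_lr P l h4, fun r => ?_⟩
  refine (h6 r).2.trans (h5.trans ?_)
  have h7 := (exf_le P (tot P)).trans hG.ovl
  have h8 : 0 ≤ exf (chn P) (sC P) (tot P) (ff P) := by
    unfold exf
    refine Finset.sum_nonneg fun t _ => Finset.sum_nonneg fun x _ =>
      Finset.sum_nonneg fun e _ => ?_
    exact mul_nonneg (mul_nonneg (mul_nonneg (sC_nonneg P x) ((chn P).P_nonneg t x _))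
      ((chn P).wt_nonneg e)) (ff_nonneg P e)
  calc C * exf (chn P) (sC P) (tot P) (ff P) ≤ max C 0 * exf (chn P) (sC P) (tot P) (ff P) :=
        mul_le_mul_of_nonneg_right (le_max_left _ _) h8
    _ ≤ max C 0 * 1 := mul_le_mul_of_nonneg_left h7 (le_max_right _ _)
    _ = max C 0 := mul_one _

end Pool.Agent.H66.SLC
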