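import Pool.Agent.H90.SPW.Defs

/-!
# Mass of a chain: survival and expected sums
-/

set_option autoImplicit false

open Finset

namespace Pool.Agent.H66.SLC

open Pool.Agent.H90.SPW

section general

open scoped Classical

variable {X E Y : Type} [Fintype X] [Fintype E] (c : Ch X E Y) (s : X → ℝ)

/-- mass at time `t` -/
noncomputable def mm (t : ℕ) (z : X) : ℝ := ∑ x, s x * c.P t x z

/-- expected number of visits before the time `n` -/
noncomputable def vis (n : ℕ) (z : X) : ℝ := ∑ t ∈ range n, mm c s t z

/-- the weight out of a state -/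
noncomputable def out (z : X) : ℝ := ∑ e, if c.src e = z then c.wt e else 0

theorem mm_zero (z : X) : mm c s 0 z = s z := by
  unfold mm
  rw [Finset.sum_eq_single z]
  · rw [c.P_zero, if_pos rfl, mul_one]
  · intro x _ hx
    rw [c.P_zero, if_neg hx, mul_zero]
  · intro h
    exact absurd (Finset.mem_univ _) h

theorem mm_succ (t : ℕ) (z : X) : mm c s (t + 1) z =
    ∑ e, if c.tgt e = z then mm c s t (c.src e) * c.wt e else 0 := by
  unfold mm
  simp_rw [c.P_succ t, Finset.mul_sum]
  rw [Finset.sum_comm]
  refine Finset.sum_congr rfl fun e _ => ?_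
  by_cases h : c.tgt e = z
  · simp only [if_pos h, Finset.sum_mul]
    exact Finset.sum_congr rfl fun x _ => by ring
  · simp only [if_neg h, mul_zero, Finset.sum_const_zero]

variable (hs0 : ∀ x, 0 ≤ s x)

include hs0 in
theorem mm_nonneg (t : ℕ) (z : X) : 0 ≤ mm c s t z :=
  Finset.sum_nonneg fun x _ => mul_nonneg (hs0 x) (c.P_nonneg t x z)

include hs0 in
theorem vis_nonneg (n : ℕ) (z : X) : 0 ≤ vis c s n z :=
  Finset.sum_nonneg fun t _ => mm_nonneg c s hs0 t z

theorem vis_succ (n : ℕ) (z : X) : vis c s (n + 1) z =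
    s z + ∑ e, if c.tgt e = z then vis c s n (c.src e) * c.wt e else 0 := by
  unfold vis
  rw [Finset.sum_range_succ', mm_zero, add_comm]
  congr 1
  simp_rw [mm_succ]
  rw [Finset.sum_comm]
  refine Finset.sum_congr rfl fun e _ => ?_
  by_cases h : c.tgt e = z
  · simp only [if_pos h, Finset.sum_mul]
  · simp only [if_neg h, Finset.sum_const_zero]

/-- every state is visited once, if there are no edges into the start states -/
theorem vis_le (M : ℝ) (hM : 0 ≤ M) (h1 : ∀ x, s x ≤ M)
    (h3 : ∀ x, s x ≠ 0 → ∀ e, c.tgt e ≠ x) :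
    ∀ (n : ℕ) (z : X), vis c s n z ≤ M := by
  intro n
  induction n with
  | zero => intro z; unfold vis; simpa using hM
  | succ n ih =>
    intro z
    rw [vis_succ]
    by_cases hz : s z = 0
    · rw [hz, zero_add]
      calc _ ≤ ∑ e, (if c.tgt e = z then c.wt e else 0) * M := by
            refine Finset.sum_le_sum fun e _ => ?_
            by_cases h : c.tgt e = z
            · rw [if_pos h, if_pos h, mul_comm]
              exact mul_le_mul_of_nonneg_left (ih _) (c.wt_nonneg e)
            · rw [if_neg h, if_neg h, zero_mul]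
        _ = (∑ e, (if c.tgt e = z then c.wt e else 0)) * M := by rw [Finset.sum_mul]
        _ ≤ 1 * M := mul_le_mul_of_nonneg_right (c.in_le z) hM
        _ = M := one_mul M
    · rw [Finset.sum_eq_zero fun e _ => if_neg (h3 z hz e), add_zero]
      exact h1 z

theorem mass_succ (t : ℕ) : ∑ z, mm c s (t + 1) z = ∑ z, mm c s t z * out c z := by
  simp_rw [mm_succ]
  rw [Finset.sum_comm]
  have h1 : ∀ e, ∑ z, (if c.tgt e = z then mm c s t (c.src e) * c.wt e else 0) =
      mm c s t (c.src e) * c.wt e := by
    intro e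
    rw [Finset.sum_ite_eq univ (c.tgt e), if_pos (Finset.mem_univ _)]
  rw [Finset.sum_congr rfl fun e _ => h1 e]
  unfold out
  simp_rw [Finset.mul_sum]
  rw [Finset.sum_comm]
  refine Finset.sum_congr rfl fun e _ => ?_
  rw [Finset.sum_eq_single (c.src e)]
  · rw [if_pos rfl]
  · intro z _ hz
    rw [if_neg (Ne.symm hz), mul_zero]
  · intro h
    exact absurd (Finset.mem_univ _) h

/-- the loss of mass -/
theorem mass_loss (n : ℕ) : ∑ z, mm c s n z =
    ∑ z, s z - ∑ z, vis c s n z * (1 - out c z) := by
  induction n with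
  | zero =>
    have : ∀ z, vis c s 0 z = 0 := fun z => by unfold vis; simp
    simp only [mm_zero, this, zero_mul, Finset.sum_const_zero, sub_zero]
  | succ n ih =>
    rw [mass_succ]
    have h1 : ∀ z, vis c s (n + 1) z * (1 - out c z) =
        vis c s n z * (1 - out c z) + mm c s n z * (1 - out c z) := by
      intro z
      unfold vis
      rw [Finset.sum_range_succ]
      ring
    have h2 : ∑ z, mm c s n z * (1 - out c z) = ∑ z, mm c s n z -
        ∑ z, mm c s n z * out c z := by
      rw [← Finset.sum_sub_distrib]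
      exact Finset.sum_congr rfl fun z _ => by ring
    rw [Finset.sum_congr rfl fun z _ => h1 z, Finset.sum_add_distrib, h2]
    linarith

theorem mass_eq (n : ℕ) : ∑ x, ∑ z, s x * c.P n x z = ∑ z, mm c s n z := by
  unfold mm
  exact Finset.sum_comm

/-- states which have no mass -/
theorem mm_zero_of (Z : ℕ → X → Prop) (h0 : ∀ x, s x ≠ 0 → Z 0 x)
    (h1 : ∀ t e, Z t (c.src e) → Z (t + 1) (c.tgt e)) :
    ∀ (t : ℕ) (z : X), ¬Z t z → mm c s t z = 0 := by
  intro t
  induction t with
  | zero =>
    intro z hz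
    rw [mm_zero]
    by_contra h
    exact hz (h0 z h)
  | succ t ih =>
    intro z hz
    rw [mm_succ]
    refine Finset.sum_eq_zero fun e _ => ?_
    by_cases h : c.tgt e = z
    · rw [if_pos h, ih _ (fun h' => hz (by rw [← h]; exact h1 t e h')), zero_mul]
    · rw [if_neg h]

/-- the expectation of a cost -/
theorem exf_vis (n : ℕ) (f : E → ℝ) :
    ∑ t ∈ range n, ∑ x, ∑ e, s x * c.P t x (c.src e) * c.wt e * f e =
      ∑ e, vis c s n (c.src e) * c.wt e * f e := by
  unfold vis mm
  have h1 : ∀ t ∈ range n, ∑ x, ∑ e, s x * c.P t x (c.src e) * c.wt e * f e =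
      ∑ e, ∑ x, s x * c.P t x (c.src e) * c.wt e * f e := fun t _ => Finset.sum_comm
  rw [Finset.sum_congr rfl h1, Finset.sum_comm]
  refine Finset.sum_congr rfl fun e _ => ?_
  simp_rw [Finset.sum_mul]

end general

end Pool.Agent.H66.SLC
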