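import Pool.Agent.H66.SLC.Cmp
import Pool.Agent.H66.SLC.MassG

/-!
# Mass of the chain of rank systems
-/

set_option autoImplicit false

open Finset

namespace Pool.Agent.H66.SLC

open Pool.Agent.H66.SLP Pool.Agent.H90.SPW

theorem sum_mod (D : ℕ) (M : ℕ) (g : ℕ → ℝ) :
    ∑ u ∈ range (M * D), g (u % D) = M * ∑ c ∈ range D, g c := by
  induction M with
  | zero => simp
  | succ M ih =>
    rw [Nat.succ_mul, Finset.sum_range_add, ih]
    have h1 : ∑ x ∈ range D, g ((M * D + x) % D) = ∑ c ∈ range D, g c := by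
      refine Finset.sum_congr rfl fun x hx => ?_
      rw [Nat.add_comm, Nat.add_mul_mod_self_right, Nat.mod_eq_of_lt (mem_range.1 hx)]
    rw [h1]
    push_cast
    ring

theorem sum_cols {A B : ℕ} (hA : A ≤ B) (g : ℕ → ℝ) :
    (1 / 2 ^ B : ℝ) * ∑ u : Fin (2 ^ B), g (u.1 % 2 ^ A) =
      1 / 2 ^ A * ∑ c ∈ range (2 ^ A), g c := by
  rw [Fin.sum_univ_eq_sum_range (fun u => g (u % 2 ^ A)) (2 ^ B)]
  have h1 : 2 ^ B = 2 ^ (B - A) * 2 ^ A := by rw [← pow_add, Nat.sub_add_cancel hA]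
  rw [h1, sum_mod (2 ^ A)]
  have h2 : (2 : ℝ) ^ B = 2 ^ (B - A) * 2 ^ A := by rw [← pow_add, Nat.sub_add_cancel hA]
  rw [h2]
  push_cast
  have h3 : (2 : ℝ) ^ (B - A) ≠ 0 := by positivity
  have h4 : (2 : ℝ) ^ A ≠ 0 := by positivity
  field_simp

section chain

open scoped Classical

variable {R : ℕ} {Y : Type} (P : Par R Y)

/-- the start weights -/
noncomputable def sC (x : St P) : ℝ := if x.1 = 0 ∧ x.2.1 = 0 then 1 / 2 ^ P.B else 0

theorem sC_nonneg (x : St P) : 0 ≤ sC P x := by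
  unfold sC
  split_ifs
  · positivity
  · exact le_rfl

theorem sC_le (x : St P) : sC P x ≤ 1 / 2 ^ P.B := by
  unfold sC
  split_ifs
  · exact le_rfl
  · positivity

theorem sC_sum : ∑ x, sC P x = 1 := by
  rw [Fintype.sum_prod_type, Finset.sum_eq_single 0]
  · rw [Fintype.sum_prod_type, Finset.sum_eq_single 0]
    · unfold sC
      simp only [if_true, Finset.sum_const, Finset.card_univ, Fintype.card_fin,
        nsmul_eq_mul, and_self]
      push_cast
      field_simp
    · intro t _ ht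
      refine Finset.sum_eq_zero fun u _ => ?_
      unfold sC
      exact if_neg fun h => ht h.2
    · intro h
      exact absurd (Finset.mem_univ _) h
  · intro r _ hr
    refine Finset.sum_eq_zero fun u _ => ?_
    unfold sC
    exact if_neg fun h => hr h.1
  · intro h
    exact absurd (Finset.mem_univ _) h

theorem no_in (x : St P) (hx : sC P x ≠ 0) (e : Ed P) : tgtC P e ≠ x := by
  have h1 : x.1 = 0 ∧ x.2.1 = 0 := by
    by_contra h
    exact hx (if_neg h)
  rintro rfl
  rcases e with ⟨r, u, j⟩ | ⟨r, u⟩ | ⟨t, u⟩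
  · have h2 : (P.S r).cls ((P.S r).π j.1) = 0 := congrArg Fin.val h1.2
    have := (P.S r).cls_pi_lo j.2
    omega
  · exact Fin.succ_ne_zero r h1.1
  · exact Fin.succ_ne_zero t h1.2

theorem vis_chn_le (n : ℕ) (x : St P) : vis (chn P) (sC P) n x ≤ 1 / 2 ^ P.B :=
  vis_le (chn P) (sC P) _ (by positivity) (sC_le P) (no_in P) n x

/-- the states which can be reached at the time `t` -/
def Rch (t : ℕ) (x : St P) : Prop :=
  (∀ r : Fin R, x.1 = r.castSucc → ∃ q, (P.S r).cls q = x.2.1.1 ∧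
    (P.S r).off q / P.K r = x.2.2.1 % P.D r) ∧ (x.1 = Fin.last R → x.2.1.1 ≤ t)

theorem exists_rank (r : Fin R) (u : ℕ) : ∃ q, (P.S r).cls q = 0 ∧
    (P.S r).off q / P.K r = u % P.D r := by
  have h1 : u % P.D r < P.D r := Nat.mod_lt _ (P.D_pos r)
  have h2 : u % P.D r * P.K r < (P.S r).Q := by
    rw [P.hQ r, mul_comm]
    exact Nat.mul_lt_mul_of_pos_left h1 (P.hK r)
  have h3 := (P.S r).cls_zero h2
  refine ⟨u % P.D r * P.K r, h3, ?_⟩
  have h4 : (P.S r).off (u % P.D r * P.K r) = u % P.D r * P.K r := by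
    unfold RSys.off
    rw [h3, (P.S r).fst_zero, Nat.sub_zero]
  rw [h4]
  exact Nat.mul_div_cancel _ (P.hK r)

theorem rch_start (x : St P) (hx : sC P x ≠ 0) : Rch P 0 x := by
  have h1 : x.1 = 0 ∧ x.2.1 = 0 := by
    by_contra h
    exact hx (if_neg h)
  refine ⟨fun r _ => ?_, fun _ => ?_⟩
  · rw [h1.2]
    exact exists_rank P r _
  · rw [h1.2]
    exact le_rfl

theorem rch_step (t : ℕ) (e : Ed P) (h : Rch P t (srcC P e)) : Rch P (t + 1) (tgtC P e) := by
  rcases e with ⟨r, u, j⟩ | ⟨r, u⟩ | ⟨t', u⟩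
  · refine ⟨fun r' hr' => ?_, fun h' => ?_⟩
    · have hr : r = r' := Fin.castSucc_injective R hr'
      subst hr
      exact ⟨(P.S r).π j.1, rfl, (col_mod (P.cell_lt' r j)).symm⟩
    · exact absurd h' (Fin.castSucc_lt_last r).ne
  · refine ⟨fun r' _ => exists_rank P r' _, fun _ => ?_⟩
    exact Nat.zero_le _
  · refine ⟨fun r' hr' => ?_, fun _ => ?_⟩
    · exact absurd hr'.symm (Fin.castSucc_lt_last r').ne
    · have h1 : t'.1 ≤ t := h.2 rfl
      show t'.1 + 1 ≤ t + 1
      omega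

theorem vis_zero (n : ℕ) (x : St P) (h : ∀ t < n, ¬Rch P t x) :
    vis (chn P) (sC P) n x = 0 := by
  unfold vis
  refine Finset.sum_eq_zero fun t ht => ?_
  exact mm_zero_of (chn P) (sC P) (Rch P) (rch_start P) (rch_step P) t x
    (h t (mem_range.1 ht))

theorem out_chn (x : St P) : out (chn P) x = ∑ e, if srcC P e = x then wtC P e else 0 := by
  unfold out
  exact Finset.sum_congr rfl fun e _ => ite_inst _ _ _ _

theorem out_top (r : Fin R) (t : Fin (P.N + 1)) (u : Fin (2 ^ P.B)) (ht : t.1 = (P.S r).tp) :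
    out (chn P) (r.castSucc, t, u) = 1 := by
  rw [out_chn, out_seg, if_pos ht]
  have h1 : ∑ j, (if (P.S r).cls j.1 = t.1 then wtC P (Sum.inl ⟨r, u, j⟩) else 0) = 0 := by
    refine Finset.sum_eq_zero fun j _ => if_neg ?_
    have := (P.S r).cls_lt j.2
    omega
  rw [h1, zero_add]
  rfl

theorem out_last (t : Fin (P.N + 1)) (u : Fin (2 ^ P.B)) (ht : t.1 < P.N) :
    out (chn P) (Fin.last R, t, u) = 1 := by
  rw [out_chn, out_idle, Finset.sum_eq_single (⟨t.1, ht⟩ : Fin P.N)]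
  · rw [if_pos (by apply Fin.ext; rfl)]
    rfl
  · intro t' _ ht'
    refine if_neg fun h => ht' ?_
    apply Fin.ext
    have := congrArg Fin.val h
    simpa using this
  · intro h
    exact absurd (Finset.mem_univ _) h

theorem out_full (r : Fin R) (t : Fin (P.N + 1)) (u : Fin (2 ^ P.B)) (ht : t.1 < (P.S r).tp)
    (hq : ∃ q, (P.S r).cls q = t.1 ∧ (P.S r).off q / P.K r = u.1 % P.D r) :
    out (chn P) (r.castSucc, t, u) = ∑ c ∈ range (P.D r), theta (P.A r) (u.1 % P.D r) c := by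
  obtain ⟨q, hq1, hq2⟩ := hq
  rw [out_chn, out_seg, if_neg ht.ne, add_zero]
  have h1 := sum_starts P r t.1 (fun _ => 1) (u.1 % P.D r)
  simp only [mul_one] at h1
  refine (Eq.trans ?_ h1).trans ?_
  · rfl
  · have hK : (P.K r : ℝ) ≠ 0 := by exact_mod_cast (P.hK r).ne'
    refine Finset.sum_congr rfl fun c _ => ?_
    by_cases hc : theta (P.A r) (u.1 % P.D r) c = 0
    · rw [hc, zero_mul]
    · have h2 := theta_lt hc
      have h3 := (P.S r).card_full (P.K r) (P.hK r) (q := q) (c := c) (by rw [hq1]; exact ht)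
        (by rw [hq2]; exact h2)
      rw [hq1] at h3
      rw [h3, div_self hK, mul_one]

/-- the loss in one segment -/
theorem loss_seg (n : ℕ) (r : Fin R) (t : Fin (P.N + 1)) :
    ∑ u, vis (chn P) (sC P) n (r.castSucc, t, u) * (1 - out (chn P) (r.castSucc, t, u)) ≤
      if t.1 < (P.S r).tp then ((P.A r : ℝ) + 2) / (2 * 2 ^ P.A r) else 0 := by
  by_cases ht : t.1 < (P.S r).tp
  · rw [if_pos ht]
    calc _ ≤ ∑ u : Fin (2 ^ P.B), 1 / 2 ^ P.B *
          (1 - ∑ c ∈ range (2 ^ P.A r), theta (P.A r) (u.1 % 2 ^ P.A r) c) := by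
          refine Finset.sum_le_sum fun u _ => ?_
          have h0 : ∑ c ∈ range (2 ^ P.A r), theta (P.A r) (u.1 % 2 ^ P.A r) c ≤ 1 :=
            sum_theta_le _ _ _ (Nat.mod_lt _ (P.D_pos r))
          by_cases hq : ∃ q, (P.S r).cls q = t.1 ∧ (P.S r).off q / P.K r = u.1 % P.D r
          · rw [out_full P r t u ht hq]
            refine mul_le_mul_of_nonneg_right (vis_chn_le P n _) ?_
            exact sub_nonneg.2 h0
          · rw [vis_zero P n _ fun t' _ h => hq (h.1 r rfl), zero_mul]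
            exact mul_nonneg (by positivity) (sub_nonneg.2 h0)
      _ = 1 / 2 ^ P.B * ∑ u : Fin (2 ^ P.B),
          (1 - ∑ c ∈ range (2 ^ P.A r), theta (P.A r) (u.1 % 2 ^ P.A r) c) := by
          rw [Finset.mul_sum]
      _ = ((P.A r : ℝ) + 2) / (2 * 2 ^ P.A r) := by
          rw [sum_cols (P.hA r) (fun v => 1 - ∑ c ∈ range (2 ^ P.A r), theta (P.A r) v c),
            sum_defect]
          field_simp
  · rw [if_neg ht]
    refine le_of_eq (Finset.sum_eq_zero fun u _ => ?_)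
    by_cases ht2 : t.1 = (P.S r).tp
    · rw [out_top P r t u ht2, sub_self, mul_zero]
    · rw [vis_zero P n _ fun t' _ h => ?_, zero_mul]
      obtain ⟨q, hq, _⟩ := h.1 r rfl
      have h1 := (P.S r).cls_le q
      have h2 : (P.S r).cls q = t.1 := hq
      omega

theorem loss_last (n : ℕ) (hn : n ≤ P.N) (t : Fin (P.N + 1)) :
    ∑ u, vis (chn P) (sC P) n (Fin.last R, t, u) * (1 - out (chn P) (Fin.last R, t, u)) = 0 := by
  refine Finset.sum_eq_zero fun u _ => ?_
  by_cases ht : t.1 < P.N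
  · rw [out_last P t u ht, sub_self, mul_zero]
  · rw [vis_zero P n _ fun t' ht' h => ?_, zero_mul]
    have h1 : t.1 ≤ t' := h.2 rfl
    omega

/-- survival -/
theorem survive (n : ℕ) (hn : n ≤ P.N)
    (h : ∑ r, ((P.S r).tp : ℝ) * (((P.A r : ℝ) + 2) / (2 * 2 ^ P.A r)) ≤ 1 / 2) :
    1 / 2 ≤ ∑ x, ∑ z, sC P x * (chn P).P n x z := by
  rw [mass_eq, mass_loss, sC_sum]
  have h1 : ∑ z, vis (chn P) (sC P) n z * (1 - out (chn P) z) ≤ 1 / 2 := by
    refine le_trans ?_ h
    rw [Fintype.sum_prod_type, Fin.sum_univ_castSucc]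
    have h2 : ∑ y : Fin (P.N + 1) × Fin (2 ^ P.B), vis (chn P) (sC P) n (Fin.last R, y) *
        (1 - out (chn P) (Fin.last R, y)) = 0 := by
      rw [Fintype.sum_prod_type]
      exact Finset.sum_eq_zero fun t _ => loss_last P n hn t
    rw [h2, add_zero]
    refine Finset.sum_le_sum fun r _ => ?_
    rw [Fintype.sum_prod_type]
    refine (Finset.sum_le_sum fun t _ => loss_seg P n r t).trans ?_
    rw [Fin.sum_univ_eq_sum_range (fun t => if t < (P.S r).tp then
      ((P.A r : ℝ) + 2) / (2 * 2 ^ P.A r) else 0) (P.N + 1), ← Finset.sum_filter,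
      Finset.sum_const, nsmul_eq_mul]
    refine mul_le_mul_of_nonneg_right ?_ (by positivity)
    have h3 : ((range (P.N + 1)).filter fun t => t < (P.S r).tp) ⊆ range (P.S r).tp := by
      intro t ht
      rw [Finset.mem_filter] at ht
      exact mem_range.2 ht.2
    have h4 := card_le_card h3
    rw [card_range] at h4
    exact_mod_cast h4
  linarith

end chain

end Pool.Agent.H66.SLC
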