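import Pool.Agent.H66.SLC.Main0

/-!
# Choice of the constants
-/

set_option autoImplicit false

open Finset

namespace Pool.Agent.H66.SLC

open Pool.Agent.H66.SLP Pool.Agent.H90.SPW

/-- logarithms are small -/
theorem lin_le_pow (δ : ℝ) (hδ : 0 < δ) : ∃ κ : ℝ, 1 ≤ κ ∧ ∀ A : ℕ,
    (A : ℝ) + 2 ≤ κ * ((2 : ℝ) ^ A) ^ δ := by
  have h1 : 0 < (2 : ℝ) ^ δ - 1 := by
    have := Real.one_lt_rpow (by norm_num : (1 : ℝ) < 2) hδ
    linarith
  refine ⟨2 + 1 / ((2 : ℝ) ^ δ - 1), ?_, fun A => ?_⟩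
  · have : 0 < 1 / ((2 : ℝ) ^ δ - 1) := by positivity
    linarith
  · have h2 : ((2 : ℝ) ^ A) ^ δ = ((2 : ℝ) ^ δ) ^ A := by
      rw [← Real.rpow_natCast, ← Real.rpow_mul (by norm_num), mul_comm,
        Real.rpow_mul (by norm_num), Real.rpow_natCast]
    rw [h2]
    have h3 := one_add_mul_le_pow (a := (2 : ℝ) ^ δ - 1) (by linarith) A
    rw [add_sub_cancel] at h3
    have h4 : (1 : ℝ) ≤ ((2 : ℝ) ^ δ) ^ A := one_le_pow₀ (by linarith)
    have h5 : (1 / ((2 : ℝ) ^ δ - 1)) * (1 + A * ((2 : ℝ) ^ δ - 1)) ≤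
        (1 / ((2 : ℝ) ^ δ - 1)) * ((2 : ℝ) ^ δ) ^ A :=
      mul_le_mul_of_nonneg_left h3 (by positivity)
    have h6 : (1 / ((2 : ℝ) ^ δ - 1)) * (1 + A * ((2 : ℝ) ^ δ - 1)) =
        1 / ((2 : ℝ) ^ δ - 1) + A := by
      field_simp
    have h7 : 0 < 1 / ((2 : ℝ) ^ δ - 1) := by positivity
    rw [h6] at h5
    rw [add_mul]
    linarith

/-- the constant of the cells -/
theorem exists_c (ε : ℝ) (hε : 0 < ε) (R : ℕ) : ∃ c : ℝ, 1 ≤ c ∧ ∀ n : ℝ, 1 ≤ n → ∀ A : ℕ,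
    (2 : ℝ) ^ A ≤ 4 * c * n ^ 2 → (R : ℝ) * (A + 2) ≤ c * n ^ (ε / 2) := by
  obtain ⟨δ, hδ⟩ : ∃ δ, δ = min (ε / 4) (1 / 2) := ⟨_, rfl⟩
  have hδ0 : 0 < δ := by rw [hδ]; exact lt_min (by linarith) (by norm_num)
  have hδ1 : δ ≤ ε / 4 := by rw [hδ]; exact min_le_left _ _
  have hδ2 : δ ≤ 1 / 2 := by rw [hδ]; exact min_le_right _ _
  obtain ⟨κ, hκ1, hκ⟩ := lin_le_pow δ hδ0
  obtain ⟨z, hz⟩ : ∃ z : ℝ, z = (R + 1) * κ * 4 ^ δ := ⟨_, rfl⟩
  have h4 : (1 : ℝ) ≤ 4 ^ δ := Real.one_le_rpow (by norm_num) hδ0.le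
  have hR : (0 : ℝ) ≤ R := Nat.cast_nonneg R
  have hz1 : 1 ≤ z := by
    rw [hz]
    have h5 : (1 : ℝ) ≤ (R + 1) * κ := by nlinarith
    nlinarith
  refine ⟨z ^ 2, by nlinarith, ?_⟩
  intro n hn A hA
  have hn0 : 0 < n := by linarith
  have h6 : ((2 : ℝ) ^ A) ^ δ ≤ (4 * z ^ 2 * n ^ 2) ^ δ :=
    Real.rpow_le_rpow (by positivity) hA hδ0.le
  have h7 : (4 * z ^ 2 * n ^ 2) ^ δ = 4 ^ δ * (z ^ 2) ^ δ * (n ^ 2) ^ δ := by
    rw [Real.mul_rpow (by positivity) (by positivity),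
      Real.mul_rpow (by positivity) (by positivity)]
  have h8 : (z ^ 2) ^ δ ≤ z := by
    calc (z ^ 2) ^ δ = z ^ (2 * δ) := by
          rw [← Real.rpow_natCast, ← Real.rpow_mul (by linarith)]
          norm_num
      _ ≤ z ^ (1 : ℝ) := Real.rpow_le_rpow_of_exponent_le hz1 (by linarith)
      _ = z := Real.rpow_one z
  have h9 : (n ^ 2) ^ δ ≤ n ^ (ε / 2) := by
    calc (n ^ 2) ^ δ = n ^ (2 * δ) := by
          rw [← Real.rpow_natCast, ← Real.rpow_mul hn0.le]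
          norm_num
      _ ≤ n ^ (ε / 2) := Real.rpow_le_rpow_of_exponent_le hn (by linarith)
  have h10 : 0 < n ^ (ε / 2) := Real.rpow_pos_of_pos hn0 _
  have h11 : 0 ≤ (z ^ 2) ^ δ := Real.rpow_nonneg (by positivity) _
  have h12 : 0 ≤ (n ^ 2) ^ δ := Real.rpow_nonneg (by positivity) _
  calc (R : ℝ) * (A + 2) ≤ (R + 1) * (κ * (4 ^ δ * z * n ^ (ε / 2))) := by
        refine mul_le_mul (by linarith) ((hκ A).trans ?_) (by positivity) (by linarith)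
        refine mul_le_mul_of_nonneg_left ?_ (by linarith)
        rw [h7] at h6
        refine h6.trans ?_
        refine mul_le_mul ?_ h9 h12 (by positivity)
        exact mul_le_mul_of_nonneg_left h8 (by positivity)
    _ = ((R + 1) * κ * 4 ^ δ) * z * n ^ (ε / 2) := by ring
    _ = z ^ 2 * n ^ (ε / 2) := by rw [← hz]; ring

theorem har_le (m : ℕ) : har m ≤ 1 + Real.log m := by
  have h1 := harmonic_le_one_add_log m
  have h2 : ((harmonic m : ℚ) : ℝ) = har m := by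
    unfold harmonic har
    push_cast
    exact Finset.sum_congr rfl fun d _ => by rw [one_div]
  rw [← h2]
  exact h1

theorem har_le_rpow (δ : ℝ) (hδ : 0 < δ) (m : ℕ) (x : ℝ) (hx : 1 ≤ x) (hm : (m : ℝ) ≤ x) :
    har m ≤ (1 + 1 / δ) * x ^ δ := by
  have h1 : Real.log m ≤ Real.log x := by
    rcases Nat.eq_zero_or_pos m with h | h
    · rw [h, Nat.cast_zero, Real.log_zero]
      exact Real.log_nonneg hx
    · exact Real.log_le_log (by exact_mod_cast h) hm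
  have h2 := Real.log_le_rpow_div (by linarith : (0 : ℝ) ≤ x) hδ
  have h3 : (1 : ℝ) ≤ x ^ δ := Real.one_le_rpow hx hδ.le
  have h4 := har_le m
  have h5 : (1 + 1 / δ) * x ^ δ = x ^ δ + x ^ δ / δ := by ring
  rw [h5]
  linarith

theorem fst_le_mul {Y : Type} (S : RSys Y) (t : ℕ) : S.fst t ≤ t * S.Q := by
  induction t with
  | zero => rw [S.fst_zero, zero_mul]
  | succ t ih =>
    have := S.fst_succ t
    rw [Nat.succ_mul]
    omega

theorem F_le {Y : Type} (S : RSys Y) : S.F ≤ S.tp * S.Q := by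
  have := fst_le_mul S S.tp
  rwa [S.fst_top] at this

/-- a power of two between `z` and `2 z` -/
theorem exists_pow (z : ℝ) (hz : 1 ≤ z) : ∃ a : ℕ, z ≤ (2 : ℝ) ^ a ∧ (2 : ℝ) ^ a ≤ 2 * z := by
  obtain ⟨a, h1, h2⟩ := exists_nat_pow_near hz (by norm_num : (1 : ℝ) < 2)
  refine ⟨a + 1, h2.le, ?_⟩
  rw [pow_succ]
  linarith

end Pool.Agent.H66.SLC
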