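import Pool.Agent.H66.SLC.Num

/-!
# The parameters of the chain
-/

set_option autoImplicit false

open Finset

namespace Pool.Agent.H66.SLC

open Pool.Agent.H66.SLP Pool.Agent.H90.SPW

/-- the data -/
structure Dat (R : ℕ) (Y : Type) where
  S : Fin R → RSys Y
  q : Fin R → ℕ
  A : Fin R → ℕ
  n : ℝ
  ε : ℝ
  c : ℝ
  C : ℝ
  hR : 0 < R
  hn : 1 ≤ n
  hε : 0 < ε
  hε1 : ε ≤ 1
  hc : 1 ≤ c
  hlog : ∀ a : ℕ, (2 : ℝ) ^ a ≤ 4 * c * n ^ 2 → (R : ℝ) * (a + 2) ≤ c * n ^ (ε / 2)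
  hC : 2 * c ≤ C
  hW : ∀ r, 0 < (S r).W
  hWn : ∀ r, (S r).W ≤ n
  hQ : ∀ r, (S r).Q = 2 ^ q r
  hQn : ∀ r, ((S r).Q : ℝ) ≤ n ^ (10 : ℕ)
  hCQ : ∀ r, C * ((S r).W + 1) * n ^ ε ≤ (S r).Q
  hA1 : ∀ r, c * ((S r).W + 1) * n ^ (ε / 2) ≤ 2 ^ A r
  hA2 : ∀ r, (2 : ℝ) ^ A r ≤ 2 * (c * ((S r).W + 1) * n ^ (ε / 2))

section dat

variable {R : ℕ} {Y : Type} (d : Dat R Y)

theorem Dat.n_pos : 0 < d.n := by
  have := d.hn
  linarith

theorem Dat.ne_pos : 0 < d.n ^ (d.ε / 2) := Real.rpow_pos_of_pos d.n_pos _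

theorem Dat.ne_ge : 1 ≤ d.n ^ (d.ε / 2) := by
  have := d.hε
  exact Real.one_le_rpow d.hn (by linarith)

theorem Dat.ne_le : d.n ^ (d.ε / 2) ≤ d.n := by
  calc d.n ^ (d.ε / 2) ≤ d.n ^ (1 : ℝ) :=
        Real.rpow_le_rpow_of_exponent_le d.hn (by have := d.hε1; linarith)
    _ = d.n := Real.rpow_one _

theorem Dat.ne_sq : d.n ^ (d.ε / 2) * d.n ^ (d.ε / 2) = d.n ^ d.ε := by
  rw [← Real.rpow_add d.n_pos]
  congr 1
  ring

theorem Dat.Aq (r : Fin R) : d.A r ≤ d.q r := by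
  have h1 := d.hA2 r
  have h2 := d.hCQ r
  have h3 : ((d.S r).Q : ℝ) = 2 ^ d.q r := by
    rw [d.hQ r]
    push_cast
    rfl
  have hW := d.hW r
  have h4 : 2 * (d.c * ((d.S r).W + 1) * d.n ^ (d.ε / 2)) ≤
      d.C * ((d.S r).W + 1) * d.n ^ d.ε := by
    rw [← d.ne_sq]
    have h5 := d.ne_ge
    have h6 := d.ne_pos
    have h7 : 0 ≤ ((d.S r).W + 1) * d.n ^ (d.ε / 2) := by positivity
    have h8 : 2 * d.c ≤ d.C * d.n ^ (d.ε / 2) := by
      have := d.hC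
      have := d.hc
      nlinarith
    calc _ = (2 * d.c) * (((d.S r).W + 1) * d.n ^ (d.ε / 2)) := by ring
      _ ≤ (d.C * d.n ^ (d.ε / 2)) * (((d.S r).W + 1) * d.n ^ (d.ε / 2)) :=
          mul_le_mul_of_nonneg_right h8 h7
      _ = _ := by ring
  have h5 : (2 : ℝ) ^ d.A r ≤ 2 ^ d.q r := by
    rw [← h3]
    linarith
  exact (pow_le_pow_iff_right₀ (by norm_num : (1 : ℝ) < 2)).1 h5

theorem Dat.A_le (r : Fin R) : (2 : ℝ) ^ d.A r ≤ 4 * d.c * d.n ^ 2 := by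
  have h1 := d.hA2 r
  have h2 := d.hWn r
  have h3 := d.ne_le
  have h4 := d.ne_pos
  have h5 := d.hn
  have h6 := d.hc
  have hW := d.hW r
  have h7 : ((d.S r).W + 1) * d.n ^ (d.ε / 2) ≤ (2 * d.n) * d.n :=
    mul_le_mul (by linarith) h3 h4.le (by linarith)
  calc (2 : ℝ) ^ d.A r ≤ 2 * (d.c * ((d.S r).W + 1) * d.n ^ (d.ε / 2)) := h1
    _ = 2 * d.c * (((d.S r).W + 1) * d.n ^ (d.ε / 2)) := by ring
    _ ≤ 2 * d.c * ((2 * d.n) * d.n) := mul_le_mul_of_nonneg_left h7 (by linarith)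
    _ = _ := by ring

theorem Dat.tp_le (r : Fin R) : ((d.S r).tp : ℝ) ≤ (d.S r).W := Nat.floor_le (d.hW r).le

theorem Dat.W_le (r : Fin R) : (d.S r).W + 1 ≤ 2 ^ d.A r := by
  refine le_trans ?_ (d.hA1 r)
  have h1 := d.hc
  have h2 := d.ne_ge
  have hW := d.hW r
  have h3 : 1 ≤ d.c * d.n ^ (d.ε / 2) := by nlinarith
  calc (d.S r).W + 1 = 1 * ((d.S r).W + 1) := (one_mul _).symm
    _ ≤ (d.c * d.n ^ (d.ε / 2)) * ((d.S r).W + 1) :=
        mul_le_mul_of_nonneg_right h3 (by linarith)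
    _ = _ := by ring

/-- the parameters -/
noncomputable def Dat.par : Par R Y where
  S := d.S
  A := d.A
  K r := 2 ^ (d.q r - d.A r)
  B := univ.sup d.A
  N := ∑ r, ((d.S r).tp + 1)
  hW := d.hW
  hK r := by positivity
  hQ r := by
    rw [d.hQ r, ← pow_add, Nat.sub_add_cancel (d.Aq r)]
  hA r := Finset.le_sup (Finset.mem_univ r)
  hN r := by
    have : (d.S r).tp + 1 ≤ ∑ r, ((d.S r).tp + 1) :=
      Finset.single_le_sum (f := fun r => (d.S r).tp + 1) (fun _ _ => Nat.zero_le _)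
        (Finset.mem_univ r)
    omega
  hT r := by
    have h1 := d.tp_le r
    have h2 := d.W_le r
    have h3 : ((d.S r).tp : ℝ) ≤ 2 ^ d.A r := by linarith
    exact_mod_cast h3

theorem Dat.tot_eq : tot d.par = d.par.N := rfl

theorem Dat.N_le : (d.par.N : ℝ) ≤ 2 * R * d.n := by
  have h1 : (d.par.N : ℝ) = ∑ r, (((d.S r).tp : ℝ) + 1) := by
    show ((∑ r, ((d.S r).tp + 1) : ℕ) : ℝ) = _
    push_cast
    rfl
  rw [h1]
  calc _ ≤ ∑ _r : Fin R, 2 * d.n := by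
        refine Finset.sum_le_sum fun r _ => ?_
        have := d.tp_le r
        have := d.hWn r
        have := d.hn
        linarith
    _ = 2 * R * d.n := by
        rw [Finset.sum_const, Finset.card_univ, Fintype.card_fin, nsmul_eq_mul]
        ring

theorem Dat.B_le : (2 : ℝ) ^ d.par.B ≤ 4 * d.c * d.n ^ 2 := by
  have : Nonempty (Fin R) := ⟨⟨0, d.hR⟩⟩
  obtain ⟨r, _, hr⟩ := Finset.exists_mem_eq_sup univ Finset.univ_nonempty d.A
  have h1 : d.par.B = d.A r := hr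
  rw [h1]
  exact d.A_le r

include d in
theorem Dat.R_ge : (1 : ℝ) ≤ R := by exact_mod_cast d.hR

theorem Dat.n_pow (k : ℕ) (hk : k ≤ 13) : d.n ^ k ≤ d.n ^ 13 := pow_le_pow_right₀ d.hn hk

theorem Dat.cX : (Fintype.card (St d.par) : ℝ) ≤ 24 * R ^ 2 * d.c * d.n ^ 13 := by
  have h1 : (Fintype.card (St d.par) : ℝ) =
      ((R : ℝ) + 1) * (((d.par.N : ℝ) + 1) * 2 ^ d.par.B) := by
    rw [Fintype.card_prod, Fintype.card_prod, Fintype.card_fin, Fintype.card_fin,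
      Fintype.card_fin]
    push_cast
    rfl
  rw [h1]
  have hR := d.R_ge
  have hn := d.hn
  have hc := d.hc
  have h2 := d.N_le
  have h3 := d.B_le
  have h4 : (d.par.N : ℝ) + 1 ≤ 3 * R * d.n := by nlinarith
  calc _ ≤ (2 * R : ℝ) * ((3 * R * d.n) * (4 * d.c * d.n ^ 2)) := by
        refine mul_le_mul (by linarith) ?_ (by positivity) (by linarith)
        exact mul_le_mul h4 h3 (by positivity) (by positivity)
    _ = 24 * R ^ 2 * d.c * d.n ^ 3 := by ring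
    _ ≤ _ := mul_le_mul_of_nonneg_left (d.n_pow 3 (by norm_num)) (by positivity)

theorem Dat.cN : (d.par.N : ℝ) ≤ 24 * R ^ 2 * d.c * d.n ^ 13 := by
  have hR := d.R_ge
  have hn := d.hn
  have hc := d.hc
  have h2 := d.N_le
  calc (d.par.N : ℝ) ≤ 2 * R * d.n := h2
    _ ≤ 24 * R ^ 2 * d.c * d.n := by
        refine mul_le_mul_of_nonneg_right ?_ (by linarith)
        have h3 : (R : ℝ) ≤ R ^ 2 * d.c := by
          calc (R : ℝ) = R * 1 := (mul_one _).symm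
            _ ≤ R * (R * d.c) := by
                refine mul_le_mul_of_nonneg_left ?_ (by linarith)
                nlinarith
            _ = R ^ 2 * d.c := by ring
        linarith
    _ = 24 * R ^ 2 * d.c * d.n ^ 1 := by rw [pow_one]
    _ ≤ _ := mul_le_mul_of_nonneg_left (d.n_pow 1 (by norm_num)) (by positivity)

theorem Dat.cE : (Fintype.card (Ed d.par) : ℝ) ≤ 24 * R ^ 2 * d.c * d.n ^ 13 := by
  have h1 : (Fintype.card (Ed d.par) : ℝ) =
      (∑ r : Fin R, (2 : ℝ) ^ d.par.B * ((d.S r).F : ℝ)) +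
        ((R : ℝ) * 2 ^ d.par.B + (d.par.N : ℝ) * 2 ^ d.par.B) := by
    rw [Fintype.card_sum, Fintype.card_sum, Fintype.card_sigma, Fintype.card_prod,
      Fintype.card_prod]
    simp only [Fintype.card_prod, Fintype.card_fin]
    push_cast
    rfl
  rw [h1]
  have hR := d.R_ge
  have hn := d.hn
  have hn0 := d.n_pos
  have hc := d.hc
  have h2 := d.N_le
  have h3 := d.B_le
  have hF : ∀ r, ((d.S r).F : ℝ) ≤ d.n ^ 11 := by
    intro r
    have h4 : ((d.S r).F : ℝ) ≤ (d.S r).tp * (d.S r).Q := by exact_mod_cast F_le (d.S r)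
    calc ((d.S r).F : ℝ) ≤ (d.S r).tp * (d.S r).Q := h4
      _ ≤ d.n * d.n ^ 10 :=
          mul_le_mul ((d.tp_le r).trans (d.hWn r)) (d.hQn r) (by positivity) hn0.le
      _ = d.n ^ 11 := by ring
  have h5 : ∑ r : Fin R, (2 : ℝ) ^ d.par.B * ((d.S r).F : ℝ) ≤
      4 * R * d.c * d.n ^ 13 := by
    calc _ ≤ ∑ _r : Fin R, (4 * d.c * d.n ^ 2) * d.n ^ 11 :=
          Finset.sum_le_sum fun r _ => mul_le_mul h3 (hF r) (by positivity) (by positivity)
      _ = 4 * R * d.c * d.n ^ 13 := by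
          rw [Finset.sum_const, Finset.card_univ, Fintype.card_fin, nsmul_eq_mul]
          ring
  have h6 : (R : ℝ) * 2 ^ d.par.B + (d.par.N : ℝ) * 2 ^ d.par.B ≤ 12 * R * d.c * d.n ^ 13 := by
    calc _ = ((R : ℝ) + d.par.N) * 2 ^ d.par.B := by ring
      _ ≤ (3 * R * d.n) * (4 * d.c * d.n ^ 2) := by
          refine mul_le_mul ?_ h3 (by positivity) (by positivity)
          nlinarith
      _ = 12 * R * d.c * d.n ^ 3 := by ring
      _ ≤ _ := mul_le_mul_of_nonneg_left (d.n_pow 3 (by norm_num)) (by positivity)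
  have h7 : (R : ℝ) ≤ R ^ 2 := by nlinarith
  have h8 : (0 : ℝ) ≤ d.c * d.n ^ 13 := by positivity
  nlinarith

theorem Dat.K_ge (r : Fin R) :
    d.C / (2 * d.c) * d.n ^ (d.ε / 2) ≤ (d.par.K r : ℝ) := by
  have h1 := d.hA2 r
  have h2 := d.hCQ r
  have hW := d.hW r
  have hc := d.hc
  have hn := d.ne_pos
  have hCc := d.hC
  have h3 : ((d.S r).Q : ℝ) = d.par.K r * 2 ^ d.A r := by
    have := d.par.hQ r
    have h4 : (d.S r).Q = d.par.K r * 2 ^ d.A r := this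
    rw [h4]
    push_cast
    rfl
  have hK : (0 : ℝ) < d.par.K r := by exact_mod_cast d.par.hK r
  rw [h3, ← d.ne_sq] at h2
  have h4 : d.C * ((d.S r).W + 1) * (d.n ^ (d.ε / 2) * d.n ^ (d.ε / 2)) ≤
      d.par.K r * (2 * (d.c * ((d.S r).W + 1) * d.n ^ (d.ε / 2))) :=
    h2.trans (mul_le_mul_of_nonneg_left h1 hK.le)
  have h5 : 0 < ((d.S r).W + 1) * d.n ^ (d.ε / 2) := by positivity
  have h6 : (d.C * d.n ^ (d.ε / 2)) * (((d.S r).W + 1) * d.n ^ (d.ε / 2)) ≤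
      (d.par.K r * (2 * d.c)) * (((d.S r).W + 1) * d.n ^ (d.ε / 2)) := by
    calc _ = d.C * ((d.S r).W + 1) * (d.n ^ (d.ε / 2) * d.n ^ (d.ε / 2)) := by ring
      _ ≤ _ := h4
      _ = _ := by ring
  have h7 := le_of_mul_le_mul_right h6 h5
  rw [div_mul_eq_mul_div, div_le_iff₀ (by linarith)]
  exact h7

theorem Dat.loss : ∑ r, ((d.par.S r).tp : ℝ) * (((d.par.A r : ℝ) + 2) / (2 * 2 ^ d.par.A r)) ≤
    1 / 2 := by
  have hc := d.hc
  have hn := d.ne_pos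
  have hR := d.R_ge
  have h1 : ∀ r, ((d.par.S r).tp : ℝ) * (((d.par.A r : ℝ) + 2) / (2 * 2 ^ d.par.A r)) ≤
      1 / (2 * R) := by
    intro r
    have h2 : ((d.S r).tp : ℝ) * (((d.A r : ℝ) + 2) / (2 * 2 ^ d.A r)) ≤ 1 / (2 * R) := by
      have h3 := d.tp_le r
      have hW := d.hW r
      have h4 := d.hlog (d.A r) (d.A_le r)
      have h5 := d.hA1 r
      rw [mul_div_assoc', div_le_div_iff₀ (by positivity) (by linarith)]
      have h7 : (R : ℝ) * (d.A r + 2) * (d.S r).tp ≤ 2 ^ d.A r := by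
        calc (R : ℝ) * (d.A r + 2) * (d.S r).tp ≤
              (d.c * d.n ^ (d.ε / 2)) * ((d.S r).W + 1) := by
              refine mul_le_mul h4 (by linarith) (Nat.cast_nonneg _) (by positivity)
          _ = d.c * ((d.S r).W + 1) * d.n ^ (d.ε / 2) := by ring
          _ ≤ _ := h5
      nlinarith
    exact h2
  calc _ ≤ ∑ _r : Fin R, 1 / (2 * (R : ℝ)) := Finset.sum_le_sum fun r _ => h1 r
    _ = 1 / 2 := by
        rw [Finset.sum_const, Finset.card_univ, Fintype.card_fin, nsmul_eq_mul]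
        field_simp

theorem Dat.ovl : ∑ r, ((d.par.A r : ℝ) + 1) * (d.par.S r).W / 2 ^ d.par.A r ≤ 1 := by
  have hc := d.hc
  have hn := d.ne_pos
  have hR := d.R_ge
  have h1 : ∀ r, ((d.par.A r : ℝ) + 1) * (d.par.S r).W / 2 ^ d.par.A r ≤ 1 / R := by
    intro r
    have h2 : ((d.A r : ℝ) + 1) * (d.S r).W / 2 ^ d.A r ≤ 1 / R := by
      have hW := d.hW r
      have h4 := d.hlog (d.A r) (d.A_le r)
      have h5 := d.hA1 r
      rw [div_le_div_iff₀ (by positivity) (by linarith)]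
      calc ((d.A r : ℝ) + 1) * (d.S r).W * R = (R * ((d.A r : ℝ) + 1)) * (d.S r).W := by ring
        _ ≤ (d.c * d.n ^ (d.ε / 2)) * ((d.S r).W + 1) := by
            refine mul_le_mul (by nlinarith) (by linarith) hW.le (by positivity)
        _ = d.c * ((d.S r).W + 1) * d.n ^ (d.ε / 2) := by ring
        _ ≤ 2 ^ d.A r := h5
        _ = 1 * 2 ^ d.A r := (one_mul _).symm
    exact h2
  calc _ ≤ ∑ _r : Fin R, 1 / (R : ℝ) := Finset.sum_le_sum fun r _ => h1 r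
    _ = 1 := by
        rw [Finset.sum_const, Finset.card_univ, Fintype.card_fin, nsmul_eq_mul]
        field_simp

theorem Dat.use : ∑ r, 241 / (d.par.K r : ℝ) * har (d.par.N + 1) ≤
    (482 * R * d.c * ((1 + 4 / d.ε) * (3 * R) ^ (d.ε / 4))) / d.C * d.n ^ (-(d.ε / 4)) := by
  have hc := d.hc
  have hn := d.ne_pos
  have hn0 := d.n_pos
  have hn1 := d.hn
  have hR := d.R_ge
  have hε := d.hε
  have hC : 0 < d.C := by have := d.hC; linarith
  have h1 : har (d.par.N + 1) ≤ (1 + 4 / d.ε) * ((3 * R) ^ (d.ε / 4) * d.n ^ (d.ε / 4)) := by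
    have h2 := d.N_le
    have h3 := har_le_rpow (d.ε / 4) (by positivity) (d.par.N + 1) (3 * R * d.n)
      (by nlinarith) (by push_cast; nlinarith)
    rw [Real.mul_rpow (by positivity) hn0.le] at h3
    have h4 : (1 : ℝ) + 1 / (d.ε / 4) = 1 + 4 / d.ε := by
      rw [one_div_div]
    rw [h4] at h3
    exact h3
  obtain ⟨H, hH⟩ : ∃ H : ℝ, H = (1 + 4 / d.ε) * (3 * R) ^ (d.ε / 4) := ⟨_, rfl⟩
  have hH0 : 0 ≤ H := by rw [hH]; positivity
  rw [← hH]
  have h5 : har (d.par.N + 1) ≤ H * d.n ^ (d.ε / 4) := by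
    rw [hH]
    refine h1.trans (le_of_eq ?_)
    ring
  have h6 : ∀ r, 241 / (d.par.K r : ℝ) * har (d.par.N + 1) ≤
      (482 * d.c * H) / d.C * d.n ^ (-(d.ε / 4)) := by
    intro r
    have hK : (0 : ℝ) < d.par.K r := by exact_mod_cast d.par.hK r
    have h7 := d.K_ge r
    have h8 : 241 / (d.par.K r : ℝ) ≤ 241 / (d.C / (2 * d.c) * d.n ^ (d.ε / 2)) :=
      div_le_div_of_nonneg_left (by norm_num) (by positivity) h7
    have h9 : d.n ^ (-(d.ε / 4)) = d.n ^ (d.ε / 4) / d.n ^ (d.ε / 2) := by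
      rw [← Real.rpow_sub hn0]
      congr 1
      ring
    calc _ ≤ 241 / (d.C / (2 * d.c) * d.n ^ (d.ε / 2)) * (H * d.n ^ (d.ε / 4)) :=
          mul_le_mul h8 h5 (har_nonneg _) (by positivity)
      _ = (482 * d.c * H) / d.C * d.n ^ (-(d.ε / 4)) := by
          rw [h9]
          field_simp
          ring
  calc _ ≤ ∑ _r : Fin R, (482 * d.c * H) / d.C * d.n ^ (-(d.ε / 4)) :=
        Finset.sum_le_sum fun r _ => h6 r
    _ = _ := by
        rw [Finset.sum_const, Finset.card_univ, Fintype.card_fin, nsmul_eq_mul]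
        ring

end dat

end Pool.Agent.H66.SLC
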