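import Mathlib

/-!
# The mixing kernel on the cells of a class
-/

set_option autoImplicit false

open Finset

namespace Pool.Agent.H66.SLC

/-- from the cell `c` the walker goes, with probability `2^-(a+1)`, to a uniform cell of the block of
`2^a` cells before the block which contains `c` -/
noncomputable def theta (A c c' : ℕ) : ℝ :=
  ∑ a ∈ range (A + 1), if c / 2 ^ a = c' / 2 ^ a + 1 then (1 / 2 : ℝ) ^ (a + 1) * (1 / 2) ^ a else 0

theorem theta_nonneg (A c c' : ℕ) : 0 ≤ theta A c c' := by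
  unfold theta
  refine Finset.sum_nonneg fun a _ => ?_
  split_ifs <;> positivity

theorem theta_lt {A c c' : ℕ} (h : theta A c c' ≠ 0) : c' < c := by
  unfold theta at h
  obtain ⟨a, _, ha⟩ := Finset.exists_ne_zero_of_sum_ne_zero h
  have h1 : c / 2 ^ a = c' / 2 ^ a + 1 := by
    by_contra h2
    rw [if_neg h2] at ha
    exact ha rfl
  by_contra h2
  have := Nat.div_le_div_right (c := 2 ^ a) (not_lt.1 h2)
  omega

theorem card_block (m B N : ℕ) (hm : 0 < m) : ((range N).filter fun c => c / m = B).card ≤ m := by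
  have h : ((range N).filter fun c => c / m = B) ⊆ Ico (B * m) (B * m + m) := by
    intro c hc
    rw [Finset.mem_filter] at hc
    rw [mem_Ico]
    have h1 := Nat.div_mul_le_self c m
    have h2 := Nat.lt_div_mul_add hm (a := c)
    rw [hc.2] at h1 h2
    exact ⟨h1, h2⟩
  refine (card_le_card h).trans ?_
  rw [Nat.card_Ico]
  omega

theorem card_block_eq (m B N : ℕ) (hm : 0 < m) (hN : B * m + m ≤ N) :
    ((range N).filter fun c => c / m = B).card = m := by
  have h : ((range N).filter fun c => c / m = B) = Ico (B * m) (B * m + m) := by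
    ext c
    rw [Finset.mem_filter, mem_Ico, mem_range]
    constructor
    · rintro ⟨_, h⟩
      have h1 := Nat.div_mul_le_self c m
      have h2 := Nat.lt_div_mul_add hm (a := c)
      rw [h] at h1 h2
      exact ⟨h1, h2⟩
    · rintro ⟨h1, h2⟩
      refine ⟨by omega, ?_⟩
      apply Nat.div_eq_of_lt_le h1
      rw [Nat.succ_mul]
      exact h2
  rw [h, Nat.card_Ico]
  omega

theorem geo_part (b n : ℕ) : ∑ a ∈ Ico b (b + n), (1 / 2 : ℝ) ^ (a + 1) =
    (1 / 2) ^ b - (1 / 2) ^ (b + n) := by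
  induction n with
  | zero => simp
  | succ n ih =>
    rw [← Nat.add_assoc, Finset.sum_Ico_succ_top (by omega), ih]
    ring

theorem geo_le (b n : ℕ) : ∑ a ∈ Ico b n, (1 / 2 : ℝ) ^ (a + 1) ≤ (1 / 2) ^ b := by
  rcases Nat.le_total b n with h | h
  · obtain ⟨m, rfl⟩ := Nat.exists_eq_add_of_le h
    rw [geo_part]
    have : (0 : ℝ) ≤ (1 / 2) ^ (b + m) := by positivity
    linarith
  · rw [Finset.Ico_eq_empty_of_le h, Finset.sum_empty]
    positivity

theorem geo_range (n : ℕ) : ∑ a ∈ range n, (1 / 2 : ℝ) ^ (a + 1) = 1 - (1 / 2) ^ n := by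
  have := geo_part 0 n
  rw [Nat.zero_add, pow_zero] at this
  rw [Finset.range_eq_Ico]
  exact this

/-- the mixing property, for a relation `r a` in which at most `2 ^ a` cells are related to `c` -/
theorem mix_aux (A D : ℕ) (r : ℕ → ℕ → Prop) [∀ a c', Decidable (r a c')]
    (hr : ∀ a, ((range D).filter fun c' => r a c').card ≤ 2 ^ a) (b : ℕ) (hb : b ≤ A)
    (f : ℕ → ℝ) (m : ℝ) (hf : ∀ c' < D, 0 ≤ f c' ∧ f c' ≤ m) (hm : 0 ≤ m) :
    ∑ c' ∈ range D, (∑ a ∈ range (A + 1), if r a c' then (1 / 2 : ℝ) ^ (a + 1) * (1 / 2) ^ a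
      else 0) * f c' ≤ (1 - (1 / 2) ^ b) * m + (1 / 4) ^ b * ∑ c' ∈ range D, f c' := by
  have h1 : ∑ c' ∈ range D, (∑ a ∈ range (A + 1), if r a c' then
      (1 / 2 : ℝ) ^ (a + 1) * (1 / 2) ^ a else 0) * f c' =
      ∑ a ∈ range (A + 1), (1 / 2 : ℝ) ^ (a + 1) * ((1 / 2) ^ a *
        ∑ c' ∈ (range D).filter fun c' => r a c', f c') := by
    simp_rw [Finset.sum_mul]
    rw [Finset.sum_comm]
    refine Finset.sum_congr rfl fun a _ => ?_
    rw [Finset.sum_filter, Finset.mul_sum, Finset.mul_sum]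
    refine Finset.sum_congr rfl fun c' _ => ?_
    split_ifs
    · ring
    · simp
  have hS : 0 ≤ ∑ c' ∈ range D, f c' :=
    Finset.sum_nonneg fun c' hc' => (hf c' (mem_range.1 hc')).1
  have hA : ∀ a, ∑ c' ∈ (range D).filter (fun c' => r a c'), f c' ≤ 2 ^ a * m := by
    intro a
    calc ∑ c' ∈ (range D).filter (fun c' => r a c'), f c'
        ≤ ∑ c' ∈ (range D).filter (fun c' => r a c'), m := by
          refine Finset.sum_le_sum fun c' hc' => ?_
          exact (hf c' (mem_range.1 (Finset.mem_filter.1 hc').1)).2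
      _ = (((range D).filter (fun c' => r a c')).card : ℝ) * m := by
          rw [Finset.sum_const, nsmul_eq_mul]
      _ ≤ 2 ^ a * m := by
          refine mul_le_mul_of_nonneg_right ?_ hm
          exact_mod_cast hr a
  have hB : ∀ a, ∑ c' ∈ (range D).filter (fun c' => r a c'), f c' ≤ ∑ c' ∈ range D, f c' := by
    intro a
    refine Finset.sum_le_sum_of_subset_of_nonneg (Finset.filter_subset _ _) fun c' hc' _ => ?_
    exact (hf c' (mem_range.1 hc')).1
  have hpow : ∀ a : ℕ, (1 / 2 : ℝ) ^ a * 2 ^ a = 1 := by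
    intro a
    rw [← mul_pow]
    norm_num
  rw [h1, ← Finset.sum_range_add_sum_Ico _ (show b ≤ A + 1 by omega)]
  refine add_le_add ?_ ?_
  · rw [← geo_range, Finset.sum_mul]
    refine Finset.sum_le_sum fun a _ => ?_
    refine mul_le_mul_of_nonneg_left ?_ (by positivity)
    calc (1 / 2 : ℝ) ^ a * ∑ c' ∈ (range D).filter (fun c' => r a c'), f c'
        ≤ (1 / 2 : ℝ) ^ a * (2 ^ a * m) := mul_le_mul_of_nonneg_left (hA a) (by positivity)
      _ = m := by rw [← mul_assoc, hpow, one_mul]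
  · calc ∑ a ∈ Ico b (A + 1), (1 / 2 : ℝ) ^ (a + 1) * ((1 / 2) ^ a *
          ∑ c' ∈ (range D).filter fun c' => r a c', f c')
        ≤ ∑ a ∈ Ico b (A + 1), (1 / 2 : ℝ) ^ (a + 1) * ((1 / 2) ^ b *
          ∑ c' ∈ range D, f c') := by
          refine Finset.sum_le_sum fun a ha => ?_
          rw [mem_Ico] at ha
          refine mul_le_mul_of_nonneg_left ?_ (by positivity)
          refine mul_le_mul ?_ (hB a) ?_ (by positivity)
          · exact pow_le_pow_of_le_one (by norm_num) (by norm_num) ha.1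
          · exact Finset.sum_nonneg fun c' hc' =>
              (hf c' (mem_range.1 (Finset.mem_filter.1 hc').1)).1
      _ = (∑ a ∈ Ico b (A + 1), (1 / 2 : ℝ) ^ (a + 1)) * ((1 / 2) ^ b *
          ∑ c' ∈ range D, f c') := by rw [Finset.sum_mul]
      _ ≤ (1 / 2) ^ b * ((1 / 2) ^ b * ∑ c' ∈ range D, f c') :=
          mul_le_mul_of_nonneg_right (geo_le b (A + 1)) (mul_nonneg (by positivity) hS)
      _ = (1 / 4) ^ b * ∑ c' ∈ range D, f c' := by
          rw [← mul_assoc, ← mul_pow]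
          norm_num

theorem theta_mix (A D b : ℕ) (hb : b ≤ A) (c : ℕ) (f : ℕ → ℝ) (m : ℝ)
    (hf : ∀ c' < D, 0 ≤ f c' ∧ f c' ≤ m) (hm : 0 ≤ m) :
    ∑ c' ∈ range D, theta A c c' * f c' ≤
      (1 - (1 / 2) ^ b) * m + (1 / 4) ^ b * ∑ c' ∈ range D, f c' := by
  unfold theta
  refine mix_aux A D (fun a c' => c / 2 ^ a = c' / 2 ^ a + 1) (fun a => ?_) b hb f m hf hm
  have h : ((range D).filter fun c' => c / 2 ^ a = c' / 2 ^ a + 1) ⊆
      ((range D).filter fun c' => c' / 2 ^ a = c / 2 ^ a - 1) := by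
    intro c' hc'
    rw [Finset.mem_filter] at hc' ⊢
    exact ⟨hc'.1, by rw [hc'.2, Nat.add_sub_cancel]⟩
  exact (card_le_card h).trans (card_block _ _ _ (by positivity))

theorem theta_mix' (A D b : ℕ) (hb : b ≤ A) (c' : ℕ) (f : ℕ → ℝ) (m : ℝ)
    (hf : ∀ c < D, 0 ≤ f c ∧ f c ≤ m) (hm : 0 ≤ m) :
    ∑ c ∈ range D, theta A c c' * f c ≤
      (1 - (1 / 2) ^ b) * m + (1 / 4) ^ b * ∑ c ∈ range D, f c := by
  unfold theta
  refine mix_aux A D (fun a c => c / 2 ^ a = c' / 2 ^ a + 1) (fun a => ?_) b hb f m hf hm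
  exact card_block _ _ _ (by positivity)

theorem sum_theta_eq (A D c : ℕ) (hc : c < D) : ∑ c' ∈ range D, theta A c c' =
    ∑ a ∈ range (A + 1), if 2 ^ a ≤ c then (1 / 2 : ℝ) ^ (a + 1) else 0 := by
  unfold theta
  rw [Finset.sum_comm]
  refine Finset.sum_congr rfl fun a _ => ?_
  rw [← Finset.sum_filter, Finset.sum_const, nsmul_eq_mul]
  have hpow : (2 : ℝ) ^ a * (1 / 2) ^ a = 1 := by
    rw [← mul_pow]
    norm_num
  by_cases h : 2 ^ a ≤ c
  · rw [if_pos h]
    have h1 : 1 ≤ c / 2 ^ a := (Nat.one_le_div_iff (by positivity)).2 h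
    have h2 : ((range D).filter fun c' => c / 2 ^ a = c' / 2 ^ a + 1) =
        ((range D).filter fun c' => c' / 2 ^ a = c / 2 ^ a - 1) := by
      ext c'
      rw [Finset.mem_filter, Finset.mem_filter]
      constructor
      · rintro ⟨h3, h4⟩
        exact ⟨h3, by rw [h4, Nat.add_sub_cancel]⟩
      · rintro ⟨h3, h4⟩
        exact ⟨h3, by rw [h4, Nat.sub_add_cancel h1]⟩
    have h3 := Nat.div_mul_le_self c (2 ^ a)
    have h4 : (c / 2 ^ a - 1) * 2 ^ a + 2 ^ a ≤ D := by
      have : (c / 2 ^ a - 1) * 2 ^ a + 2 ^ a = c / 2 ^ a * 2 ^ a := by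
        obtain ⟨x, hx⟩ : ∃ x, c / 2 ^ a = x + 1 := ⟨c / 2 ^ a - 1, by omega⟩
        rw [hx, Nat.add_sub_cancel, Nat.succ_mul]
      rw [this]
      exact h3.trans hc.le
    rw [h2, card_block_eq _ _ _ (by positivity) h4]
    push_cast
    rw [mul_comm ((1 / 2 : ℝ) ^ (a + 1)), ← mul_assoc, hpow, one_mul]
  · rw [if_neg h]
    have h1 : c / 2 ^ a = 0 := Nat.div_eq_of_lt (not_le.1 h)
    have h2 : ((range D).filter fun c' => c / 2 ^ a = c' / 2 ^ a + 1) = ∅ := by
      ext c'
      rw [Finset.mem_filter]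
      simp only [Finset.notMem_empty, iff_false]
      rintro ⟨_, h3⟩
      exact Nat.succ_ne_zero _ (h3.symm.trans h1)
    rw [h2]
    simp

theorem sum_theta_le (A D c : ℕ) (hc : c < D) : ∑ c' ∈ range D, theta A c c' ≤ 1 := by
  rw [sum_theta_eq A D c hc]
  calc _ ≤ ∑ a ∈ range (A + 1), (1 / 2 : ℝ) ^ (a + 1) := by
        refine Finset.sum_le_sum fun a _ => ?_
        split_ifs
        · exact le_rfl
        · positivity
    _ ≤ 1 := by
        rw [geo_range]
        have : (0 : ℝ) ≤ (1 / 2) ^ (A + 1) := by positivity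
        linarith

theorem sum_theta_le' (A D c' : ℕ) : ∑ c ∈ range D, theta A c c' ≤ 1 := by
  unfold theta
  rw [Finset.sum_comm]
  calc _ ≤ ∑ a ∈ range (A + 1), (1 / 2 : ℝ) ^ (a + 1) := by
        refine Finset.sum_le_sum fun a _ => ?_
        rw [← Finset.sum_filter, Finset.sum_const, nsmul_eq_mul]
        have h1 := card_block (2 ^ a) (c' / 2 ^ a + 1) D (by positivity)
        have h2 : (((range D).filter fun c => c / 2 ^ a = c' / 2 ^ a + 1).card : ℝ) ≤ 2 ^ a := by
          exact_mod_cast h1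
        have hpow : (2 : ℝ) ^ a * (1 / 2) ^ a = 1 := by
          rw [← mul_pow]
          norm_num
        calc _ ≤ (2 : ℝ) ^ a * ((1 / 2 : ℝ) ^ (a + 1) * (1 / 2) ^ a) :=
              mul_le_mul_of_nonneg_right h2 (by positivity)
          _ = (1 / 2 : ℝ) ^ (a + 1) := by
              rw [mul_comm ((1 / 2 : ℝ) ^ (a + 1)), ← mul_assoc, hpow, one_mul]
    _ ≤ 1 := by
        rw [geo_range]
        have : (0 : ℝ) ≤ (1 / 2) ^ (A + 1) := by positivity
        linarith

theorem sum_theta_le_all (A D c : ℕ) : ∑ c' ∈ range D, theta A c c' ≤ 1 := by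
  unfold theta
  rw [Finset.sum_comm]
  calc _ ≤ ∑ a ∈ range (A + 1), (1 / 2 : ℝ) ^ (a + 1) := by
        refine Finset.sum_le_sum fun a _ => ?_
        rw [← Finset.sum_filter, Finset.sum_const, nsmul_eq_mul]
        have h0 : ((range D).filter fun c' => c / 2 ^ a = c' / 2 ^ a + 1) ⊆
            ((range D).filter fun c' => c' / 2 ^ a = c / 2 ^ a - 1) := by
          intro c' hc'
          rw [Finset.mem_filter] at hc' ⊢
          exact ⟨hc'.1, by rw [hc'.2, Nat.add_sub_cancel]⟩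
        have h1 := (card_le_card h0).trans (card_block (2 ^ a) (c / 2 ^ a - 1) D
          (by positivity))
        have h2 : (((range D).filter fun c' => c / 2 ^ a = c' / 2 ^ a + 1).card : ℝ) ≤ 2 ^ a := by
          exact_mod_cast h1
        have hpow : (2 : ℝ) ^ a * (1 / 2) ^ a = 1 := by
          rw [← mul_pow]
          norm_num
        calc _ ≤ (2 : ℝ) ^ a * ((1 / 2 : ℝ) ^ (a + 1) * (1 / 2) ^ a) :=
              mul_le_mul_of_nonneg_right h2 (by positivity)
          _ = (1 / 2 : ℝ) ^ (a + 1) := by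
              rw [mul_comm ((1 / 2 : ℝ) ^ (a + 1)), ← mul_assoc, hpow, one_mul]
    _ ≤ 1 := by
        rw [geo_range]
        have : (0 : ℝ) ≤ (1 / 2) ^ (A + 1) := by positivity
        linarith

/-- the total defect of the rows -/
theorem sum_defect (A : ℕ) : ∑ c ∈ range (2 ^ A), (1 - ∑ c' ∈ range (2 ^ A), theta A c c') =
    ((A : ℝ) + 2) / 2 := by
  have h1 : ∀ c ∈ range (2 ^ A), 1 - ∑ c' ∈ range (2 ^ A), theta A c c' =
      (1 / 2 : ℝ) ^ (A + 1) + ∑ a ∈ range (A + 1), if c < 2 ^ a then (1 / 2 : ℝ) ^ (a + 1)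
        else 0 := by
    intro c hc
    rw [sum_theta_eq A _ c (mem_range.1 hc)]
    have h2 : (1 : ℝ) = (1 / 2) ^ (A + 1) + ∑ a ∈ range (A + 1), (1 / 2 : ℝ) ^ (a + 1) := by
      rw [geo_range]
      ring
    rw [sub_eq_iff_eq_add, add_assoc, ← Finset.sum_add_distrib]
    conv_lhs => rw [h2]
    congr 1
    refine Finset.sum_congr rfl fun a _ => ?_
    by_cases h : c < 2 ^ a
    · rw [if_pos h, if_neg (not_le.2 h), add_zero]
    · rw [if_neg h, if_pos (not_lt.1 h), zero_add]
  rw [Finset.sum_congr rfl h1, Finset.sum_add_distrib, Finset.sum_comm]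
  have h2 : ∀ a ∈ range (A + 1), ∑ c ∈ range (2 ^ A), (if c < 2 ^ a then
      (1 / 2 : ℝ) ^ (a + 1) else 0) = 1 / 2 := by
    intro a ha
    rw [← Finset.sum_filter, Finset.sum_const, nsmul_eq_mul]
    have h3 : ((range (2 ^ A)).filter fun c => c < 2 ^ a) = range (2 ^ a) := by
      ext c
      rw [Finset.mem_filter, mem_range, mem_range]
      constructor
      · rintro ⟨_, h⟩
        exact h
      · intro h
        exact ⟨lt_of_lt_of_le h (Nat.pow_le_pow_right (by norm_num)
          (by rw [mem_range] at ha; omega)), h⟩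
    rw [h3, card_range, pow_succ]
    push_cast
    rw [← mul_assoc, ← mul_pow]
    norm_num
  rw [Finset.sum_congr rfl h2, Finset.sum_const, Finset.sum_const, card_range, card_range,
    nsmul_eq_mul, nsmul_eq_mul, pow_succ]
  push_cast
  rw [← mul_assoc, ← mul_pow]
  norm_num
  ring

end Pool.Agent.H66.SLC
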